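import Pool.Agent.U26Z.DX.Pt

/-!
# The grid: the bad dilations at `x` lie in one of few small sets
-/

set_option autoImplicit false

namespace Pool.Agent.U26Z.DX

open Finset Filter Topology MeasureTheory
open scoped NNReal ENNReal

/-- the bad dilations at `x` lie in one of few small sets -/
theorem core {θ μ : ℝ} (hθ0 : 0.167 ≤ θ) (hθ1 : θ ≤ 1) (hμ : 0 ≤ μ) {η : ℝ} (hη : 0 < η)
    (hv : ∀ ε a b : ℝ, 0 < ε → ε ≤ 1 / 10 → 0 < a → a ≤ b → ∀ᶠ x : ℝ in atTop, ∀ H : ℝ,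
      x ^ θ / 10 ≤ H → H ≤ x ^ (0.65 : ℝ) → volume (Bd a b ε x H) ≤ ENNReal.ofReal (x ^ (-(μ + η))))
    {r : ℕ} (hr : 1 - θ < (r + 1) * (μ + η / 2)) {a b : ℝ} (ha : 0 < a) (hab : a ≤ b)
    {ε : ℝ} (hε : 0 < ε) (hε1 : ε ≤ 1 / 10) :
    ∃ (T : ℕ → Finset ℕ) (G : ℕ → ℕ → Set ℝ) (N : ℕ → ℕ) (q : ℕ → ℝ),
      (∀ m p, MeasurableSet (G m p)) ∧ (∀ m, 0 ≤ q m) ∧ (∀ m, ∀ p ∈ T m, volume (G m p) ≤ ENNReal.ofReal (q m)) ∧
      (∀ M : ℝ≥0, Summable fun m => ((T m).card : ℝ) * (N m * (M * q m)) ^ (r + 1)) ∧ (∀ m, 1 ≤ N m) ∧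
      ∀ m₀ : ℕ, ∀ᶠ x : ℝ in atTop, ∃ m, m₀ ≤ m ∧ (∀ j : ℕ, (j : ℝ) < x ^ (η / 4) → j < N m) ∧
        ∃ p ∈ T m, ∀ t ∈ Set.Icc a b, ∀ H : ℝ, x ^ θ ≤ H → H ≤ x → 10 * ε < |density (t * x) H - 1| → t ∈ G m p := by
  classical
  have hb : 0 < b := ha.trans_le hab
  have hθp : 0 < θ := by linarith
  -- the grid
  obtain ⟨s, hs⟩ : ∃ s : ℝ → ℝ, s = fun X => ε * X ^ θ / (2 * b) := ⟨_, rfl⟩
  obtain ⟨I, hI⟩ : ∃ I : ℝ → ℕ, I = fun X => ⌈X / s X⌉₊ + 1 := ⟨_, rfl⟩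
  obtain ⟨N, hN⟩ : ∃ N : ℝ → ℕ, N = fun X => ⌈(2 * X) ^ (η / 4)⌉₊ := ⟨_, rfl⟩
  obtain ⟨xg, hxg⟩ : ∃ xg : ℝ → ℕ → ℝ, xg = fun (X : ℝ) (i : ℕ) => X + (i : ℝ) * s X := ⟨_, rfl⟩
  obtain ⟨X₁, hX₁⟩ := eventually_atTop.1 (vol_GS (θ := θ) (μ := μ) hη hε (hv ε a b hε hε1 ha hab))
  obtain ⟨X₂, hX₂⟩ : ∃ X₂, X₂ = max X₁ 1 := ⟨_, rfl⟩
  obtain ⟨G, hG⟩ : ∃ G : ℝ → ℕ → Set ℝ, G = fun X p => if X₂ ≤ X then
    GS a b ε θ (xg X p) ∪ GS a b ε θ (xg X (p + 1)) else ∅ := ⟨_, rfl⟩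
  have hs0 : ∀ X : ℝ, 0 < X → 0 < s X := fun X hX => by rw [hs]; positivity
  have hGm : ∀ X p, MeasurableSet (G X p) := by
    intro X p
    rw [hG]
    simp only
    split_ifs
    · exact (GS_meas _ _ _ _ _).union (GS_meas _ _ _ _ _)
    · exact MeasurableSet.empty
  have hGv : ∀ X p, 0 < X → volume (G X p) ≤ ENNReal.ofReal (2 * X ^ (-(μ + 3 / 4 * η))) := by
    intro X p hX
    rw [hG]
    simp only
    split_ifs with h1
    · have hX1 : X₁ ≤ X := (le_max_left _ _).trans (hX₂ ▸ h1)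
      have hs' := hs0 X hX
      have g0 : X ≤ xg X p := by
        rw [hxg]
        simp only
        have : (0 : ℝ) ≤ p * s X := by positivity
        linarith
      have g1 : xg X p ≤ xg X (p + 1) := by
        rw [hxg]
        simp only
        push_cast
        nlinarith
      have hmono : ∀ y : ℝ, X ≤ y → ENNReal.ofReal (y ^ (-(μ + 3 / 4 * η))) ≤ ENNReal.ofReal (X ^ (-(μ + 3 / 4 * η))) := by
        intro y hy
        apply ENNReal.ofReal_le_ofReal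
        exact Real.rpow_le_rpow_of_nonpos hX hy (by linarith)
      have v0 := hX₁ (xg X p) (hX1.trans g0)
      have v1 := hX₁ (xg X (p + 1)) (hX1.trans (g0.trans g1))
      refine (measure_union_le _ _).trans ?_
      rw [two_mul, ENNReal.ofReal_add (by positivity) (by positivity)]
      exact add_le_add (v0.trans (hmono _ g0)) (v1.trans (hmono _ (g0.trans g1)))
    · rw [measure_empty]
      exact zero_le
  -- the powers of `2`
  have hX0 : ∀ m : ℕ, (0 : ℝ) < 2 ^ m := fun m => by positivity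
  have hXt : Tendsto (fun m : ℕ => (2 : ℝ) ^ m) atTop atTop := tendsto_pow_atTop_atTop_of_one_lt (by norm_num)
  -- the sum over the powers of `2`
  obtain ⟨ν, hν⟩ : ∃ ν, ν = (r + 1) * (μ + η / 2) - (1 - θ) := ⟨_, rfl⟩
  have hν0 : 0 < ν := by linarith
  have hr0 : (0 : ℝ) ≤ r := Nat.cast_nonneg r
  obtain ⟨κ, hκ⟩ : ∃ κ, κ = ν / (2 * (2 * r + 3)) := ⟨_, rfl⟩
  have hκ0 : 0 < κ := by rw [hκ]; positivity
  have hκ2 : κ * (2 * r + 3) = ν / 2 := by rw [hκ]; field_simp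
  have hbound : ∀ M : ℝ≥0, ∀ᶠ X : ℝ in atTop,
      (I X : ℝ) * (N X * (M * (2 * X ^ (-(μ + 3 / 4 * η))))) ^ (r + 1) ≤ X ^ (-(ν / 2)) := by
    intro M
    filter_upwards [eventually_ge_atTop (2 : ℝ), ev_const (2 * b / ε + 3) hκ0,
      ev_const (2 * 2 ^ (η / 4)) hκ0, ev_const (M * 2) hκ0] with X h1 h2 h3 h4
    have hX : 0 < X := by linarith
    have e1 : (I X : ℝ) ≤ X ^ κ * X ^ (1 - θ) := by
      have f1 : X / s X = 2 * b / ε * X ^ (1 - θ) := by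
        rw [hs]
        simp only
        rw [Real.rpow_sub hX, Real.rpow_one]
        field_simp
      have f2 : 1 ≤ X ^ (1 - θ) := Real.one_le_rpow (by linarith) (by linarith)
      have f3 : (I X : ℝ) ≤ 2 * b / ε * X ^ (1 - θ) + 2 := by
        rw [hI]
        simp only
        push_cast
        have := (Nat.ceil_lt_add_one (show 0 ≤ X / s X from div_nonneg hX.le (hs0 X hX).le)).le
        rw [← f1]
        linarith
      calc (I X : ℝ) ≤ 2 * b / ε * X ^ (1 - θ) + 2 := f3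
        _ ≤ (2 * b / ε + 3) * X ^ (1 - θ) := by
            have e : (2 * b / ε + 3) * X ^ (1 - θ) = 2 * b / ε * X ^ (1 - θ) + 3 * X ^ (1 - θ) := by ring
            rw [e]
            linarith
        _ ≤ _ := by gcongr
    have e3 : (N X : ℝ) ≤ X ^ κ * X ^ (η / 4) := by
      rw [hN]
      simp only
      have f1 : 1 ≤ (2 * X) ^ (η / 4) := Real.one_le_rpow (by linarith) (by positivity)
      have f2 := (Nat.ceil_lt_add_one (show 0 ≤ (2 * X) ^ (η / 4) by positivity)).le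
      calc ((⌈(2 * X) ^ (η / 4)⌉₊ : ℕ) : ℝ) ≤ 2 * (2 * X) ^ (η / 4) := by linarith
        _ = 2 * 2 ^ (η / 4) * X ^ (η / 4) := by rw [Real.mul_rpow (by norm_num) hX.le]; ring
        _ ≤ _ := by gcongr
    have e4 : (N X : ℝ) * (M * (2 * X ^ (-(μ + 3 / 4 * η)))) ≤ X ^ (2 * κ + η / 4 - (μ + 3 / 4 * η)) := by
      calc (N X : ℝ) * (M * (2 * X ^ (-(μ + 3 / 4 * η)))) = N X * (M * 2) * X ^ (-(μ + 3 / 4 * η)) := by ring
        _ ≤ (X ^ κ * X ^ (η / 4)) * X ^ κ * X ^ (-(μ + 3 / 4 * η)) := by gcongr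
        _ = _ := by
            rw [← Real.rpow_add hX, ← Real.rpow_add hX, ← Real.rpow_add hX]
            congr 1
            ring
    have hM0 : (0 : ℝ) ≤ M := NNReal.coe_nonneg M
    calc (I X : ℝ) * (N X * (M * (2 * X ^ (-(μ + 3 / 4 * η))))) ^ (r + 1)
        ≤ (X ^ κ * X ^ (1 - θ)) * (X ^ (2 * κ + η / 4 - (μ + 3 / 4 * η))) ^ (r + 1) := by
          gcongr
      _ = X ^ (κ + (1 - θ) + (2 * κ + η / 4 - (μ + 3 / 4 * η)) * ((r : ℝ) + 1)) := by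
          rw [← Real.rpow_add hX, ← Real.rpow_natCast, ← Real.rpow_mul hX.le, ← Real.rpow_add hX]
          push_cast
          rfl
      _ = X ^ (-(ν / 2)) := by
          congr 1
          have e : κ + (1 - θ) + (2 * κ + η / 4 - (μ + 3 / 4 * η)) * ((r : ℝ) + 1) = κ * (2 * r + 3) - ν := by
            rw [hν]
            ring
          rw [e, hκ2]
          ring
  have hsum : ∀ M : ℝ≥0, Summable fun m : ℕ => (((range (I (2 ^ m))).card : ℕ) : ℝ) *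
      (N (2 ^ m) * (M * (2 * ((2 : ℝ) ^ m) ^ (-(μ + 3 / 4 * η))))) ^ (r + 1) := by
    intro M
    have hg : Summable fun m : ℕ => ((2 : ℝ) ^ (-(ν / 2))) ^ m :=
      summable_geometric_of_lt_one (by positivity) (Real.rpow_lt_one_of_one_lt_of_neg (by norm_num) (by linarith))
    refine Summable.of_norm_bounded_eventually_nat hg ?_
    filter_upwards [hXt.eventually (hbound M)] with m hm'
    rw [Real.norm_of_nonneg (by positivity), card_range]
    refine hm'.trans (le_of_eq ?_)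
    rw [← Real.rpow_natCast, ← Real.rpow_natCast, ← Real.rpow_mul (by norm_num), ← Real.rpow_mul (by norm_num)]
    congr 1
    ring
  refine ⟨fun m : ℕ => range (I (2 ^ m)), fun m p => G (2 ^ m) p, fun m => N (2 ^ m),
    fun m => 2 * ((2 : ℝ) ^ m) ^ (-(μ + 3 / 4 * η)), fun m p => hGm _ p, fun m => by positivity,
    fun m p _ => hGv _ p (hX0 m), hsum, ?_, ?_⟩
  · intro m
    rw [hN]
    simp only
    exact Nat.one_le_ceil_iff.2 (by positivity)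
  intro m₀
  filter_upwards [eventually_ge_atTop ((2 : ℝ) ^ (m₀ + 1)), eventually_ge_atTop (2 * X₂), eventually_ge_atTop (2 : ℝ),
    stab hθ0 hθ1 ha hab hε hε1] with x hx1 hx2 hx3 hst
  have hx0 : 0 < x := by linarith
  obtain ⟨m, hm1, hm2⟩ := exists_nat_pow_near (x := x) (y := 2) (by linarith) (by norm_num)
  obtain ⟨X, hX⟩ : ∃ X : ℝ, X = 2 ^ m := ⟨_, rfl⟩
  have hX2 : x < 2 * X := by rw [hX]; rw [pow_succ] at hm2; linarith
  rw [← hX] at hm1
  have hXp : 0 < X := by rw [hX]; positivity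
  have hmm : m₀ ≤ m := by
    have h1 : (2 : ℝ) ^ (m₀ + 1) < 2 ^ (m + 1) := lt_of_le_of_lt hx1 hm2
    have h2 := (pow_lt_pow_iff_right₀ (by norm_num : (1 : ℝ) < 2)).1 h1
    omega
  have hX₂X : X₂ ≤ X := by linarith
  have hs' := hs0 X hXp
  -- the index `i`
  obtain ⟨i, hidef⟩ : ∃ i : ℕ, i = ⌊(x - X) / s X⌋₊ := ⟨_, rfl⟩
  have hi0 : (0 : ℝ) ≤ (x - X) / s X := div_nonneg (by linarith) hs'.le
  have hi1 : (i : ℝ) * s X ≤ x - X := by
    rw [← le_div_iff₀ hs', hidef]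
    exact Nat.floor_le hi0
  have hi2 : x - X < ((i : ℝ) + 1) * s X := by
    rw [← div_lt_iff₀ hs', hidef]
    exact Nat.lt_floor_add_one _
  have hiI : i ∈ range (I X) := by
    rw [mem_range, hI]
    simp only
    have h1 : (i : ℝ) ≤ X / s X := by
      rw [le_div_iff₀ hs']
      linarith
    have h2 : (i : ℝ) ≤ (⌈X / s X⌉₊ : ℝ) := h1.trans (Nat.le_ceil _)
    have h3 : i ≤ ⌈X / s X⌉₊ := by exact_mod_cast h2
    omega
  have hxi : xg X i ≤ x := by rw [hxg]; simp only; linarith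
  have hxi1 : x ≤ xg X (i + 1) := by rw [hxg]; simp only; push_cast; linarith
  have hxis : xg X (i + 1) - xg X i = s X := by rw [hxg]; simp only; push_cast; ring
  refine ⟨m, hmm, ?_, i, ?_, ?_⟩
  · intro j hj1
    rw [← hX, hN]
    simp only
    have h1 : (j : ℝ) < (2 * X) ^ (η / 4) := lt_of_lt_of_le hj1 (Real.rpow_le_rpow hx0.le hX2.le (by positivity))
    exact_mod_cast h1.trans_le (Nat.le_ceil _)
  · rw [← hX]
    exact hiI
  intro t ht H hH1 hH2 hbad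
  rw [← hX, hG]
  simp only
  rw [if_pos hX₂X]
  refine hst (xg X i) (xg X (i + 1)) hxi hxi1 ?_ t ht H hH1 hH2 hbad
  rw [hxis, hs]
  simp only
  have h1 : X ^ θ ≤ x ^ θ := Real.rpow_le_rpow hXp.le hm1 hθp.le
  calc b * (ε * X ^ θ / (2 * b)) = ε / 2 * X ^ θ := by field_simp
    _ ≤ ε / 2 * x ^ θ := by gcongr

end Pool.Agent.U26Z.DX
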