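import Pool.Agent.Q211.KS.Near
import Pool.Agent.Q240.KT.All

/-!
# The neighbourhood of the line one, for the frequencies up to `e ^ (0.84 Y)`

Adapted from `Pool/Agent/Q240/KT/Near2.lean` (there: up to `e ^ (0.82 Y)`).
-/

set_option autoImplicit false

namespace Pool.Agent.U26Z.DX

open Finset Pool.Agent.H376R2.MR Pool.Agent.Q240.KS Pool.Agent.Q211.KS

/-- the neighbourhood of the line one -/
def NR : Prop := ∀ ε₃ : ℝ, 0 < ε₃ → ∃ ε₀ : ℝ, 0 < ε₀ ∧ ε₀ ≤ 1 / 100 ∧ ∀ B : ℕ, ∃ Y₀ : ℝ, ∀ Y : ℝ, Y₀ ≤ Y →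
  ∀ d ∈ DY Y, ∀ L : Finset ℤ,
  (∀ k ∈ L, Real.exp (ε₃ * Y) ≤ |(k : ℝ)| ∧ |(k : ℝ)| ≤ Real.exp (0.84 * Y)) →
  (∀ k ∈ L, ∀ i, Real.exp (-(ε₀ * Y)) ≤ ‖PF (zY Y) (ty i) (d i) k‖) →
  ∑ k ∈ L, ‖EE (zY Y) d k‖ ≤ 1 / Y ^ B

theorem near_of (hsbv : S_SBV) (hkerv : S_KERV) (hlvm : S_LVM) (hhmg : S_HMG) (htri : S_TRI)
    (hmb : S_MB) : NR := by
  classical
  intro ε₃ hε₃
  obtain ⟨C, η, hC, hη, hη2, hs⟩ := hsbv 2000
  obtain ⟨C', η', hC', hη', hη'2, hk⟩ := hkerv 5
  obtain ⟨ε₀, he0, he1, he2, he3, he4⟩ : ∃ ε₀ : ℝ, 0 < ε₀ ∧ ε₀ ≤ ε₃ / 3 ∧ ε₀ ≤ η / 6000 ∧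
      ε₀ ≤ η' / 100 ∧ ε₀ ≤ 1 / 1000 := by
    refine ⟨min (min (ε₃ / 3) (η / 6000)) (min (η' / 100) (1 / 1000)), ?_, ?_, ?_, ?_, ?_⟩
    · exact lt_min (lt_min (by positivity) (by positivity)) (lt_min (by positivity) (by norm_num))
    · exact (min_le_left _ _).trans (min_le_left _ _)
    · exact (min_le_left _ _).trans (min_le_right _ _)
    · exact (min_le_right _ _).trans (min_le_left _ _)
    · exact (min_le_right _ _).trans (min_le_right _ _)
  refine ⟨ε₀, he0, by linarith, fun B => ?_⟩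
  obtain ⟨C₁, hC₁, hl⟩ := hlvm 5 (ε₀ / 100) (by norm_num) (by positivity)
  obtain ⟨C₂, hC₂, hlin⟩ := one_add_le_exp he0
  obtain ⟨C₃, hC₃, hm⟩ := hmb 5 (B + 2)
  refine ⟨max (max 400 (42 * C * C₂ / ε₀)) (max (4 * C₁ / (0.6 * ε₀)) (12 * C' * C₃ * 3200)), ?_⟩
  intro Y hY d hd L hL hPF
  have hY1 : 400 ≤ Y := ((le_max_left _ _).trans (le_max_left _ _)).trans hY
  have hY2 : 42 * C * C₂ ≤ ε₀ * Y := by
    have h := ((le_max_right _ _).trans (le_max_left _ _)).trans hY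
    rw [div_le_iff₀ he0] at h
    linarith
  have hY3 : 4 * C₁ ≤ 0.6 * ε₀ * Y := by
    have h := ((le_max_left _ _).trans (le_max_right _ _)).trans hY
    rw [div_le_iff₀ (by positivity)] at h
    linarith
  have hY4 : 12 * C' * C₃ * 3200 ≤ Y := ((le_max_right _ _).trans (le_max_right _ _)).trans hY
  have hY0 : 0 < Y := by linarith
  rcases L.eq_empty_or_nonempty with rfl | ⟨k₀, hk₀⟩
  · rw [Finset.sum_empty]
    positivity
  unfold DY at hd
  rw [Finset.mem_filter, Fintype.mem_piFinset] at hd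
  obtain ⟨hd1, hd2⟩ := hd
  have hdu : ∀ i, (d i : ℝ) ≤ 20 * (Y + 1) := by
    intro i
    have h1 := Finset.mem_range.1 (hd1 i)
    have h2 : d i ≤ ⌊20 * (Y + 1)⌋₊ := by omega
    exact (Nat.cast_le.2 h2).trans (Nat.floor_le (by linarith))
  have hpos : ∀ k ∈ L, k ≠ 0 := by
    intro k hk' hc
    have h1 := (hL k hk').1
    rw [hc] at h1
    simp only [Int.cast_zero, abs_zero] at h1
    linarith [Real.exp_pos (ε₃ * Y)]
  -- step 1: the smooth factors are short
  have h5 : ∀ i : Fin 10, 5 ≤ (i : ℕ) → (d i : ℝ) < Y / 100 := by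
    intro i hi
    by_contra hc
    push Not at hc
    have hty : ty i ≠ 0 := by
      unfold ty
      rw [if_neg (by omega)]
      split_ifs <;> decide
    have hkle : |(k₀ : ℝ)| ≤ Real.exp ((2000 : ℕ) * (d i : ℝ) / 20) := by
      refine (hL k₀ hk₀).2.trans (Real.exp_le_exp.2 ?_)
      push_cast
      linarith
    have h1 := hs (zY Y) (ty i) (d i) k₀ hty (hpos k₀ hk₀) hkle
    have h2 := hPF k₀ hk₀ i
    have h3 : 1 / |(k₀ : ℝ)| ≤ Real.exp (-(3 * ε₀ * Y)) := by
      have h4 : Real.exp (3 * ε₀ * Y) ≤ |(k₀ : ℝ)| := by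
        refine le_trans (Real.exp_le_exp.2 ?_) (hL k₀ hk₀).1
        exact mul_le_mul_of_nonneg_right (by linarith) hY0.le
      rw [Real.exp_neg, ← one_div]
      exact one_div_le_one_div_of_le (Real.exp_pos _) h4
    have h4 : Real.exp (-(η * d i / 20)) ≤ Real.exp (-(3 * ε₀ * Y)) := by
      apply Real.exp_le_exp.2
      have h6 : 3 * ε₀ * Y ≤ η / 2000 * Y := mul_le_mul_of_nonneg_right (by linarith) hY0.le
      have h7 : η * (Y / 100) ≤ η * d i := mul_le_mul_of_nonneg_left hc hη.le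
      linarith
    have h6 : C * (1 + (d i : ℝ)) * (1 / |(k₀ : ℝ)| + Real.exp (-(η * d i / 20))) ≤
        C * (21 * (1 + Y)) * (2 * Real.exp (-(3 * ε₀ * Y))) := by
      have h8 := hdu i
      apply mul_le_mul _ (by linarith) (by positivity) (by positivity)
      exact mul_le_mul_of_nonneg_left (by linarith) (by linarith)
    have h7 : C * (21 * (1 + Y)) * (2 * Real.exp (-(3 * ε₀ * Y))) ≤
        42 * C * C₂ * Real.exp (-(2 * ε₀ * Y)) := by
      have h8 := hlin Y hY0.le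
      calc C * (21 * (1 + Y)) * (2 * Real.exp (-(3 * ε₀ * Y)))
          ≤ C * (21 * (C₂ * Real.exp (ε₀ * Y))) * (2 * Real.exp (-(3 * ε₀ * Y))) := by
            apply mul_le_mul_of_nonneg_right _ (by positivity)
            exact mul_le_mul_of_nonneg_left (by linarith) (by linarith)
        _ = 42 * C * C₂ * (Real.exp (ε₀ * Y) * Real.exp (-(3 * ε₀ * Y))) := by ring
        _ = _ := by
            rw [← Real.exp_add]
            congr 2
            ring
    have h8 : Real.exp (-(ε₀ * Y)) ≤ 42 * C * C₂ * Real.exp (-(2 * ε₀ * Y)) :=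
      h2.trans (h1.trans (h6.trans h7))
    have h9 : Real.exp (-(ε₀ * Y)) = Real.exp (ε₀ * Y) * Real.exp (-(2 * ε₀ * Y)) := by
      rw [← Real.exp_add]
      congr 1
      ring
    rw [h9] at h8
    have h10 : Real.exp (ε₀ * Y) ≤ 42 * C * C₂ := le_of_mul_le_mul_right h8 (Real.exp_pos _)
    linarith [Real.add_one_le_exp (ε₀ * Y)]
  -- step 2
  have h4 : ∀ i : Fin 10, (i : ℕ) < 5 → (d i : ℝ) < 4 * Y + 9 := by
    intro i hi
    have hty : ty i = 0 := by
      unfold ty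
      rw [if_pos hi]
    have h1 := hPF k₀ hk₀ i
    rw [hty] at h1
    refine mob_short (k := k₀) ?_
    intro hc
    rw [hc, norm_zero] at h1
    linarith [Real.exp_pos (-(ε₀ * Y))]
  have h3 : ∀ j : Fin 10, (j : ℕ) < 5 → 3.8 * Y ≤ (d j : ℝ) := by
    intro j hj
    have h1 : ∑ i, (d i : ℝ) = d j + ∑ i ∈ univ.erase j, (d i : ℝ) :=
      (Finset.add_sum_erase univ (fun i => (d i : ℝ)) (Finset.mem_univ j)).symm
    have h2 : ∑ i ∈ univ.erase j, (d i : ℝ) ≤
        ∑ i ∈ univ.erase j, (if (i : ℕ) < 5 then 4 * Y + 9 else Y / 100) := by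
      refine Finset.sum_le_sum fun i _ => ?_
      split_ifs with hi
      · exact (h4 i hi).le
      · exact (h5 i (by omega)).le
    have h6 : ∑ i : Fin 10, (if (i : ℕ) < 5 then 4 * Y + 9 else Y / 100) =
        (4 * Y + 9) + ∑ i ∈ univ.erase j, (if (i : ℕ) < 5 then 4 * Y + 9 else Y / 100) := by
      rw [← Finset.add_sum_erase univ _ (Finset.mem_univ j), if_pos hj]
    have h7 : ∑ i : Fin 10, (if (i : ℕ) < 5 then 4 * Y + 9 else Y / 100) =
        5 * (4 * Y + 9) + 5 * (Y / 100) := by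
      simp only [Fin.sum_univ_succ, Fin.val_succ, Fin.val_zero]
      norm_num
      ring
    have h8 := (abs_le.1 hd2).1
    linarith
  -- step 3: the number of frequencies
  have hexp : (2 : ℝ) ≤ Real.exp (0.11 * Y) / 2 := by
    have := Real.add_one_le_exp (0.11 * Y)
    linarith
  have hcard : (L.card : ℝ) ≤ Real.exp (11 * ε₀ * Y) := by
    set K : ℕ := ⌈Real.exp (0.84 * Y)⌉₊ + 1 with hK
    have hKle : (K : ℝ) ≤ 3 * Real.exp (0.84 * Y) := by
      have h1 := Nat.ceil_lt_add_one (Real.exp_pos (0.84 * Y)).le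
      have h2 : (1 : ℝ) ≤ Real.exp (0.84 * Y) := Real.one_le_exp (by positivity)
      rw [hK]
      push_cast
      linarith
    have h1 := hl (zY Y) (ty 0) (d 0) K (Real.exp (-(ε₀ * Y))) L (by omega) (Real.exp_pos _) (by
      intro k hk'
      refine ⟨?_, hPF k hk' 0⟩
      have h1 : |(k : ℝ)| ≤ Real.exp (0.84 * Y) := (hL k hk').2
      have h2 : |(k : ℝ)| < K := by
        rw [hK]
        push_cast
        linarith [Nat.le_ceil (Real.exp (0.84 * Y))]
      have h3 : |k| < (K : ℤ) := by exact_mod_cast h2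
      unfold FK
      rw [Finset.mem_Ioo]
      exact abs_lt.1 h3)
    have hd0 := h3 0 (by norm_num)
    have hdu0 := hdu 0
    have h2 : (K : ℝ) * Real.exp (-(((5 : ℕ) : ℝ) * (d 0 : ℝ) / 20)) ≤ 3 := by
      calc (K : ℝ) * Real.exp (-(((5 : ℕ) : ℝ) * (d 0 : ℝ) / 20))
          ≤ 3 * Real.exp (0.84 * Y) * Real.exp (-(0.84 * Y)) := by
            apply mul_le_mul hKle _ (Real.exp_pos _).le (by positivity)
            apply Real.exp_le_exp.2
            push_cast
            linarith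
        _ = 3 * (Real.exp (0.84 * Y) * Real.exp (-(0.84 * Y))) := by ring
        _ = 3 := by
            rw [← Real.exp_add]
            simp
    have h6 : Real.exp (ε₀ / 100 * (d 0 : ℝ)) ≤ Real.exp (0.4 * ε₀ * Y) := by
      apply Real.exp_le_exp.2
      have : ε₀ * (d 0 : ℝ) ≤ ε₀ * (40 * Y) := mul_le_mul_of_nonneg_left (by linarith) he0.le
      linarith
    have h7 : (Real.exp (-(ε₀ * Y))) ^ (2 * 5) = Real.exp (-(10 * ε₀ * Y)) := by
      rw [← Real.exp_nat_mul]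
      congr 1
      push_cast
      ring
    rw [h7] at h1
    calc (L.card : ℝ) ≤ C₁ * Real.exp (ε₀ / 100 * (d 0 : ℝ)) *
          (1 + K * Real.exp (-(((5 : ℕ) : ℝ) * (d 0 : ℝ) / 20))) / Real.exp (-(10 * ε₀ * Y)) := h1
      _ ≤ C₁ * Real.exp (0.4 * ε₀ * Y) * 4 / Real.exp (-(10 * ε₀ * Y)) := by
          apply div_le_div_of_nonneg_right _ (Real.exp_pos _).le
          apply mul_le_mul _ (by linarith) (by positivity) (by positivity)
          exact mul_le_mul_of_nonneg_left h6 (by linarith)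
      _ = 4 * C₁ * (Real.exp (0.4 * ε₀ * Y) * Real.exp (10 * ε₀ * Y)) := by
          rw [Real.exp_neg, div_inv_eq_mul]
          ring
      _ ≤ Real.exp (0.6 * ε₀ * Y) * (Real.exp (0.4 * ε₀ * Y) * Real.exp (10 * ε₀ * Y)) := by
          apply mul_le_mul_of_nonneg_right _ (by positivity)
          linarith [Real.add_one_le_exp (0.6 * ε₀ * Y)]
      _ = Real.exp (11 * ε₀ * Y) := by
          rw [← Real.exp_add, ← Real.exp_add]
          congr 1
          ring
  -- step 4: mean squares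
  have hms : ∀ i : Fin 10, (i : ℕ) < 5 → ∑ k ∈ L, ‖PF (zY Y) (ty i) (d i) k‖ ^ 2 ≤ 12 * C' := by
    intro i hi
    have hty : ty i ≠ 2 := by
      unfold ty
      rw [if_pos hi]
      decide
    have hdi := h3 i hi
    apply sq_sum hC' hhmg htri hty
    have hN := hk (Real.exp ((d i : ℝ) / 20)) (Real.one_le_exp (by positivity))
    apply row_le (R := Real.exp ((d i : ℝ) / 20) ^ (-η')) hC' hN.1
    · intro k hk' l hl' hkl
      apply hN.2 (k - l) (sub_ne_zero.2 hkl)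
      have h1 : |(((k - l : ℤ)) : ℝ)| ≤ |(k : ℝ)| + |(l : ℝ)| := by
        push_cast
        exact abs_sub _ _
      rw [← Real.exp_nat_mul]
      have h2 : Real.exp (0.95 * Y) ≤ Real.exp (((5 : ℕ) : ℝ) * ((d i : ℝ) / 20)) := by
        apply Real.exp_le_exp.2
        push_cast
        linarith
      have h6 : Real.exp (0.95 * Y) = Real.exp (0.11 * Y) * Real.exp (0.84 * Y) := by
        rw [← Real.exp_add]
        congr 1
        ring
      have h7 : 2 * Real.exp (0.84 * Y) ≤ Real.exp (0.11 * Y) * Real.exp (0.84 * Y) :=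
        mul_le_mul_of_nonneg_right (by linarith) (Real.exp_pos _).le
      linarith [(hL k hk').2, (hL l hl').2]
    · positivity
    · have h1 : Real.exp ((d i : ℝ) / 20) ^ (-η') ≤ Real.exp (-(11 * ε₀ * Y)) := by
        rw [← Real.exp_mul]
        apply Real.exp_le_exp.2
        have h6 : 0.19 * Y * η' ≤ (d i : ℝ) / 20 * η' := mul_le_mul_of_nonneg_right (by linarith) hη'.le
        have h7 : ε₀ * Y ≤ η' / 100 * Y := mul_le_mul_of_nonneg_right he3 hY0.le
        have h8 : 0 < η' * Y := by positivity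
        linarith
      calc (L.card : ℝ) * Real.exp ((d i : ℝ) / 20) ^ (-η')
          ≤ Real.exp (11 * ε₀ * Y) * Real.exp (-(11 * ε₀ * Y)) :=
            mul_le_mul hcard h1 (by positivity) (Real.exp_pos _).le
        _ = 1 := by
            rw [← Real.exp_add]
            simp
  -- step 5
  have hEE : ∀ k ∈ L, ‖EE (zY Y) d k‖ ≤
      C₃ * 3200 * Y / Y ^ (B + 2) * (‖PF (zY Y) (ty 0) (d 0) k‖ * ‖PF (zY Y) (ty 1) (d 1) k‖) := by
    intro k hk'
    have hb : ∀ i : Fin 10, ‖PF (zY Y) (ty i) (d i) k‖ ≤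
        (![‖PF (zY Y) (ty 0) (d 0) k‖, ‖PF (zY Y) (ty 1) (d 1) k‖, C₃ / Y ^ (B + 2), 2, 2, 2, 2, 2, 2,
          50 * Y] : Fin 10 → ℝ) i := by
      have hT : ∀ i : Fin 10, ty i ≠ 2 → ‖PF (zY Y) (ty i) (d i) k‖ ≤ 2 := fun i hi =>
        (htri (zY Y) (ty i) (d i) k).2.1 hi
      have h2' : ‖PF (zY Y) (ty 2) (d 2) k‖ ≤ C₃ / Y ^ (B + 2) := by
        have hd2' := h3 2 (by norm_num)
        have h1 := hm (zY Y) (d 2) k (by
          refine (hL k hk').2.trans (Real.exp_le_exp.2 ?_)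
          push_cast
          linarith)
        have h6 : ty 2 = 0 := by
          unfold ty
          rw [if_pos (by norm_num)]
        rw [h6]
        refine h1.trans ?_
        apply div_le_div_of_nonneg_left (by linarith) (by positivity)
        exact pow_le_pow_left₀ hY0.le (by linarith) _
      have h9' : ‖PF (zY Y) (ty 9) (d 9) k‖ ≤ 50 * Y := by
        have h1 := (htri (zY Y) (ty 9) (d 9) k).1
        linarith [hdu 9]
      intro i
      fin_cases i
      · exact le_rfl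
      · exact le_rfl
      · exact h2'
      · exact hT 3 (by decide)
      · exact hT 4 (by decide)
      · exact hT 5 (by decide)
      · exact hT 6 (by decide)
      · exact hT 7 (by decide)
      · exact hT 8 (by decide)
      · exact h9'
    unfold EE
    rw [norm_prod]
    refine (Finset.prod_le_prod (fun i _ => norm_nonneg _) fun i _ => hb i).trans (le_of_eq ?_)
    simp [Fin.prod_univ_succ]
    ring
  have hCS : ∑ k ∈ L, ‖PF (zY Y) (ty 0) (d 0) k‖ * ‖PF (zY Y) (ty 1) (d 1) k‖ ≤ 12 * C' := by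
    have h1 := hms 0 (by norm_num)
    have h2 := hms 1 (by norm_num)
    have h6 : ∀ k ∈ L, ‖PF (zY Y) (ty 0) (d 0) k‖ * ‖PF (zY Y) (ty 1) (d 1) k‖ ≤
        (‖PF (zY Y) (ty 0) (d 0) k‖ ^ 2 + ‖PF (zY Y) (ty 1) (d 1) k‖ ^ 2) / 2 := by
      intro k _
      nlinarith [sq_nonneg (‖PF (zY Y) (ty 0) (d 0) k‖ - ‖PF (zY Y) (ty 1) (d 1) k‖)]
    have h7 := Finset.sum_le_sum h6
    rw [← Finset.sum_div, Finset.sum_add_distrib] at h7
    linarith
  refine (Finset.sum_le_sum hEE).trans ?_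
  rw [← Finset.mul_sum]
  calc C₃ * 3200 * Y / Y ^ (B + 2) *
        ∑ k ∈ L, ‖PF (zY Y) (ty 0) (d 0) k‖ * ‖PF (zY Y) (ty 1) (d 1) k‖
      ≤ C₃ * 3200 * Y / Y ^ (B + 2) * (12 * C') := mul_le_mul_of_nonneg_left hCS (by positivity)
    _ = 12 * C' * C₃ * 3200 * (Y / Y ^ (B + 2)) := by ring
    _ ≤ Y * (Y / Y ^ (B + 2)) := mul_le_mul_of_nonneg_right hY4 (by positivity)
    _ = 1 / Y ^ B := by
        rw [pow_add]
        field_simp

theorem near : NR :=
  near_of Pool.Agent.Q298.KS.sbv Pool.Agent.Q222.KS.kerv Pool.Agent.Q211.KS.lvm Pool.Agent.Q209.KS.hmg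
    Pool.Agent.Q298.KS.tri Pool.Agent.Q298.KS.mb

end Pool.Agent.U26Z.DX
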