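import Mathlib

/-!
# Parseval's identity for finite trigonometric sums and the measure of their large values
-/

set_option autoImplicit false

namespace Pool.Agent.U26Z.DX

open Finset MeasureTheory

theorem int_exp (n : ℤ) (v : ℝ) : ∫ u in v..(v + 2 * Real.pi), Complex.exp (((n : ℝ) * u : ℝ) * Complex.I) =
    if n = 0 then ((2 * Real.pi : ℝ) : ℂ) else 0 := by
  split_ifs with h
  · subst h
    simp
  · have hc : ((n : ℂ) * Complex.I) ≠ 0 := mul_ne_zero (by exact_mod_cast h) Complex.I_ne_zero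
    have e : ∀ u : ℝ, Complex.exp (((n : ℝ) * u : ℝ) * Complex.I) = Complex.exp (((n : ℂ) * Complex.I) * u) := by
      intro u
      congr 1
      push_cast
      ring
    simp_rw [e]
    rw [integral_exp_mul_complex hc]
    have e2 : Complex.exp ((n : ℂ) * Complex.I * ((v + 2 * Real.pi : ℝ) : ℂ)) =
        Complex.exp ((n : ℂ) * Complex.I * (v : ℂ)) := by
      have e3 : (n : ℂ) * Complex.I * ((v + 2 * Real.pi : ℝ) : ℂ) =
          (n : ℂ) * Complex.I * (v : ℂ) + (n : ℂ) * (2 * Real.pi * Complex.I) := by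
        push_cast
        ring
      rw [e3, Complex.exp_add, Complex.exp_int_mul_two_pi_mul_I, mul_one]
    rw [e2, sub_self, zero_div]

/-- the trigonometric sum -/
noncomputable def TS (L : Finset ℤ) (c : ℤ → ℂ) (u : ℝ) : ℂ :=
  ∑ k ∈ L, c k * Complex.exp (((k : ℝ) * u : ℝ) * Complex.I)

theorem ts_cont (L : Finset ℤ) (c : ℤ → ℂ) : Continuous (TS L c) := by
  unfold TS
  fun_prop

theorem parseval (L : Finset ℤ) (c : ℤ → ℂ) (v : ℝ) :
    ∫ u in v..(v + 2 * Real.pi), ‖TS L c u‖ ^ 2 = 2 * Real.pi * ∑ k ∈ L, ‖c k‖ ^ 2 := by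
  have key : ∀ u : ℝ, ((‖TS L c u‖ ^ 2 : ℝ) : ℂ) = ∑ k ∈ L, ∑ l ∈ L, (c k * (starRingEnd ℂ) (c l)) *
      Complex.exp ((((k - l : ℤ) : ℝ) * u : ℝ) * Complex.I) := by
    intro u
    rw [← Complex.normSq_eq_norm_sq, ← Complex.mul_conj]
    unfold TS
    rw [map_sum, Finset.sum_mul_sum]
    refine Finset.sum_congr rfl fun k _ => Finset.sum_congr rfl fun l _ => ?_
    rw [map_mul, ← Complex.exp_conj, map_mul, Complex.conj_I, Complex.conj_ofReal]
    rw [show c k * Complex.exp (((k : ℝ) * u : ℝ) * Complex.I) * ((starRingEnd ℂ) (c l) *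
      Complex.exp (((l : ℝ) * u : ℝ) * -Complex.I)) = (c k * (starRingEnd ℂ) (c l)) *
      (Complex.exp (((k : ℝ) * u : ℝ) * Complex.I) * Complex.exp (((l : ℝ) * u : ℝ) * -Complex.I)) by ring,
      ← Complex.exp_add]
    congr 2
    push_cast
    ring
  have hmain : ((∫ u in v..(v + 2 * Real.pi), ‖TS L c u‖ ^ 2 : ℝ) : ℂ) =
      ((2 * Real.pi * ∑ k ∈ L, ‖c k‖ ^ 2 : ℝ) : ℂ) := by
    rw [← intervalIntegral.integral_ofReal]
    simp_rw [key]
    rw [intervalIntegral.integral_finsetSum]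
    swap
    · intro k _
      exact Continuous.intervalIntegrable (by fun_prop) _ _
    have h1 : ∀ k ∈ L, ∫ u in v..(v + 2 * Real.pi), ∑ l ∈ L, (c k * (starRingEnd ℂ) (c l)) *
        Complex.exp ((((k - l : ℤ) : ℝ) * u : ℝ) * Complex.I) = ((2 * Real.pi * ‖c k‖ ^ 2 : ℝ) : ℂ) := by
      intro k hk
      rw [intervalIntegral.integral_finsetSum]
      swap
      · intro l _
        exact Continuous.intervalIntegrable (by fun_prop) _ _
      rw [Finset.sum_eq_single_of_mem k hk]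
      · rw [intervalIntegral.integral_const_mul, int_exp, if_pos (sub_self k), Complex.mul_conj,
          Complex.normSq_eq_norm_sq]
        push_cast
        ring
      · intro l _ hl
        rw [intervalIntegral.integral_const_mul, int_exp, if_neg (sub_ne_zero.2 (Ne.symm hl)), mul_zero]
    rw [Finset.sum_congr rfl h1, ← Complex.ofReal_sum, ← Finset.mul_sum]
  exact_mod_cast hmain

/-- the measure of the large values -/
theorem meas_large (L : Finset ℤ) (c : ℤ → ℂ) (v : ℝ) {ρ M : ℝ} (hρ : 0 < ρ) (hM : ∑ k ∈ L, ‖c k‖ ^ 2 ≤ M) :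
    volume {u : ℝ | u ∈ Set.Icc v (v + 3) ∧ ρ ≤ ‖TS L c u‖} ≤ ENNReal.ofReal (7 * M / ρ ^ 2) := by
  have hpi3 := Real.pi_gt_three
  have hpi := Real.pi_lt_d2
  have hM0 : 0 ≤ ∑ k ∈ L, ‖c k‖ ^ 2 := Finset.sum_nonneg fun k _ => by positivity
  have hcont : Continuous fun u : ℝ => ‖TS L c u‖ ^ 2 := (ts_cont L c).norm.pow 2
  have hint : Integrable (fun u : ℝ => ‖TS L c u‖ ^ 2) (volume.restrict (Set.Ioc v (v + 2 * Real.pi))) :=
    (hcont.integrableOn_Icc (a := v) (b := v + 2 * Real.pi)).mono_set Set.Ioc_subset_Icc_self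
  have h1 := mul_meas_ge_le_integral_of_nonneg (μ := volume.restrict (Set.Ioc v (v + 2 * Real.pi)))
    (f := fun u : ℝ => ‖TS L c u‖ ^ 2) (Filter.Eventually.of_forall fun u => by positivity) hint (ρ ^ 2)
  have h2 : ∫ u, ‖TS L c u‖ ^ 2 ∂(volume.restrict (Set.Ioc v (v + 2 * Real.pi))) = 2 * Real.pi * ∑ k ∈ L, ‖c k‖ ^ 2 := by
    rw [← parseval L c v, intervalIntegral.integral_of_le (by linarith)]
  rw [h2] at h1
  have hρ2 : 0 < ρ ^ 2 := by positivity
  have h3 : (volume.restrict (Set.Ioc v (v + 2 * Real.pi))).real {u | ρ ^ 2 ≤ ‖TS L c u‖ ^ 2} ≤ 7 * M / ρ ^ 2 := by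
    rw [le_div_iff₀ hρ2, mul_comm]
    refine h1.trans ?_
    have : 2 * Real.pi * ∑ k ∈ L, ‖c k‖ ^ 2 ≤ 7 * ∑ k ∈ L, ‖c k‖ ^ 2 :=
      mul_le_mul_of_nonneg_right (by linarith) hM0
    linarith
  have h4 : (volume.restrict (Set.Ioc v (v + 2 * Real.pi))) {u | ρ ^ 2 ≤ ‖TS L c u‖ ^ 2} ≤
      ENNReal.ofReal (7 * M / ρ ^ 2) := by
    have hfin : (volume.restrict (Set.Ioc v (v + 2 * Real.pi))) {u | ρ ^ 2 ≤ ‖TS L c u‖ ^ 2} ≠ ⊤ :=
      measure_ne_top _ _
    rw [← ENNReal.ofReal_toReal hfin]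
    exact ENNReal.ofReal_le_ofReal h3
  have hsub : {u : ℝ | u ∈ Set.Icc v (v + 3) ∧ ρ ≤ ‖TS L c u‖} ⊆
      {v} ∪ ({u | ρ ^ 2 ≤ ‖TS L c u‖ ^ 2} ∩ Set.Ioc v (v + 2 * Real.pi)) := by
    rintro u ⟨⟨h5, h6⟩, h7⟩
    rcases eq_or_lt_of_le h5 with h8 | h8
    · left; exact h8.symm
    · right
      exact ⟨pow_le_pow_left₀ hρ.le h7 2, h8, by linarith⟩
  refine (measure_mono hsub).trans ((measure_union_le _ _).trans ?_)
  have h5 : MeasurableSet {u : ℝ | ρ ^ 2 ≤ ‖TS L c u‖ ^ 2} := measurableSet_le measurable_const hcont.measurable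
  rw [Real.volume_singleton, zero_add, ← Measure.restrict_apply h5]
  exact h4

end Pool.Agent.U26Z.DX
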