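import Pool.Agent.U26Z.DX.Opt
import Pool.Agent.U26Z.DX.Near
import Pool.Agent.U26Z.DX.Par
import Pool.Agent.H39x.LP.Dif

/-!
# The measure of the exceptional points

At all points outside a set of measure `e ^ (-(μ + η) Y)` the high frequencies are negligible.
-/

set_option autoImplicit false

namespace Pool.Agent.U26Z.DX

open Finset Filter Topology MeasureTheory Pool.Agent.H376R2.MR Pool.Agent.Q240.KS Pool.Agent.Q278.KS Pool.Agent.Q278.KT
open Pool.Agent.Q257.KS Pool.Agent.Q95.KS Pool.Agent.H39x.LP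

/-- for every class of frequencies: a pointwise bound or a bound of the mean square -/
theorem class_alt {lam0 μ : ℝ} (hFG : FG lam0 μ) (hl0 : 0 ≤ lam0) (hl : lam0 ≤ 0.833) (B : ℕ) :
    ∃ (G : ℕ) (ε' η Y₀ : ℝ), 0 < ε' ∧ 0 < η ∧ η ≤ 1 / 1000 ∧ ∀ Y : ℝ, Y₀ ≤ Y → ∀ K : ℕ,
    1 ≤ K → (K : ℝ) ≤ Real.exp ((lam0 + η) * Y) → ∀ m : ℤ → ℝ, (∀ k, |m k| ≤ 1) → ∀ d ∈ DY Y,
    ∀ r : ℕ, ∀ g ∈ Fintype.piFinset (fun _ : Fin 10 => range (G + 1)),
    (∀ u : ℝ, ‖SS Y G (ε' * Y) ⌈Real.exp (Y / 200)⌉₊ K r d g m u‖ ≤ 1 / Y ^ B) ∨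
    ∑ k ∈ LS Y G (ε' * Y) ⌈Real.exp (Y / 200)⌉₊ K r d g, ‖((m k : ℝ) : ℂ) * EE (zY Y) d k‖ ^ 2 ≤
      Real.exp (-((μ + η) * Y)) := by
  classical
  obtain ⟨ε₀, hε₀, hε₀1, HN⟩ := near (1 / 200) (by norm_num)
  obtain ⟨YN, HN⟩ := HN B
  obtain ⟨ε', η₁, YF, hε', hε'0, hη₁, HF⟩ := hFG (1 / 400) (ε₀ / 2) (by norm_num) (by positivity) (by linarith)
  have hT := Pool.Agent.Q298.KS.tri
  obtain ⟨G, hG⟩ : ∃ G : ℕ, G = ⌈3 / ε'⌉₊ := ⟨_, rfl⟩
  have hGpos : 3 ≤ ε' * G := by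
    have := Nat.le_ceil (3 / ε')
    rw [← hG, div_le_iff₀ hε'] at this
    linarith
  have hη₁2 : 0 < η₁ / 2 := by positivity
  have hev : ∀ᶠ Y : ℝ in atTop, 800 ≤ Y ∧ YN ≤ Y ∧ YF ≤ Y ∧
      2 * (1 + 50 * Y) ^ (10 + B) ≤ Real.exp (1 * Y) ∧ 1 * (1 + 50 * Y) ^ (10 + B) ≤ Real.exp (η₁ * Y) ∧
      1 * (1 + 50 * Y) ^ 20 ≤ Real.exp (η₁ / 2 * Y) := by
    refine (eventually_ge_atTop 800).and ((eventually_ge_atTop YN).and ((eventually_ge_atTop YF).and
      ((ev_poly' _ (by norm_num) _ (by norm_num)).and ((ev_poly' _ (by norm_num) _ hη₁).and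
      (ev_poly' _ (by norm_num) _ hη₁2)))))
  obtain ⟨Y₀, hY₀⟩ := eventually_atTop.1 hev
  refine ⟨G, ε', min (η₁ / 2) (1 / 1000), Y₀, hε', lt_min hη₁2 (by norm_num), min_le_right _ _, ?_⟩
  intro Y hYY K hKpos hKle m hmb d hd r g hg
  obtain ⟨hY, kN, kF, k1, k2, k3⟩ := hY₀ Y hYY
  rw [one_mul] at k2 k3
  have hYpos : 0 < Y := by linarith
  have hη1 : min (η₁ / 2) (1 / 1000) ≤ η₁ / 2 := min_le_left _ _
  have hη2 : min (η₁ / 2) (1 / 1000) ≤ 1 / 1000 := min_le_right _ _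
  have hK3 : (K : ℝ) ≤ Real.exp ((lam0 + η₁) * Y) :=
    hKle.trans (Real.exp_le_exp.2 (mul_le_mul_of_nonneg_right (by linarith) hYpos.le))
  have hK4 : (K : ℝ) ≤ Real.exp (0.84 * Y) :=
    hKle.trans (Real.exp_le_exp.2 (mul_le_mul_of_nonneg_right (by linarith) hYpos.le))
  set K₀ : ℕ := ⌈Real.exp (Y / 200)⌉₊ with hK₀
  set s : ℝ := ε' * Y with hs
  have hs0 : 0 ≤ s := by positivity
  have hK₀1 : Real.exp (1 / 200 * Y) ≤ K₀ := by
    rw [show 1 / 200 * Y = Y / 200 by ring]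
    exact Nat.le_ceil _
  rw [Fintype.mem_piFinset] at hg
  have h50 : 50 * Y ≤ 1 + 50 * Y := by linarith
  have hYB : Y ^ B ≤ (1 + 50 * Y) ^ B := by gcongr; linarith
  have hYBp : 0 < Y ^ B := by positivity
  set L := LS Y G s K₀ K r d g with hL
  set S : ℝ := ∑ i, (g i : ℝ) with hS
  set κ : Fin 10 → ℝ := fun i => ε' * (g i : ℝ) with hκ
  set kap : ℝ := ∑ i, κ i with hkap
  have hkapS : S * s = kap * Y := by
    rw [hS, hs, hkap, hκ]
    simp only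
    rw [← Finset.mul_sum]; ring
  have hκ0 : ∀ i, 0 ≤ κ i := fun i => by simp only [hκ]; positivity
  have hkle : ∀ i, κ i ≤ kap := fun i => Finset.single_le_sum (fun j _ => hκ0 j) (mem_univ i)
  have hk0 : 0 ≤ kap := Finset.sum_nonneg fun i _ => hκ0 i
  have hbd : ∀ u, ‖SS Y G s K₀ K r d g m u‖ ≤ L.card * ((50 * Y) ^ 10 * Real.exp (-(kap * Y))) := by
    intro u
    have h := SS_le' (s := s) (G := G) (K₀ := K₀) (K := K) (r := r) (g := g) hT u hmb
      (by linarith) hd hs0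
    rw [← hL, ← hS, hkapS] at h
    exact h
  have hLc : (L.card : ℝ) ≤ 2 * K := by
    have h1 : L ⊆ FK K := fun k hk => (mem_LS.1 hk).1
    exact le_trans (by exact_mod_cast Finset.card_le_card h1) (card_FK K)
  rcases L.eq_empty_or_nonempty with he | hLne
  · left
    intro u
    have h := hbd u
    rw [he] at h
    simp only [Finset.card_empty, Nat.cast_zero, zero_mul] at h
    exact h.trans (by positivity)
  have hkl : ∀ k ∈ L, Real.exp (1 / 200 * Y) ≤ |(k : ℝ)| ∧ |(k : ℝ)| < K := by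
    intro k hk
    have h1 := mem_LS.1 hk
    constructor
    · refine hK₀1.trans ?_
      have := h1.2.1
      exact_mod_cast this
    · have h2 := h1.1
      unfold FK at h2
      rw [mem_Ioo] at h2
      rw [abs_lt]
      constructor
      · exact_mod_cast h2.1
      · exact_mod_cast h2.2
  by_cases hcase1 : ∃ i, g i = G
  · left
    intro u
    obtain ⟨i, hi⟩ := hcase1
    have h3 : 3 ≤ kap := by
      refine hGpos.trans ?_
      have := hkle i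
      simp only [hκ] at this
      rw [hi] at this
      exact this
    have h4 : (L.card : ℝ) * ((50 * Y) ^ 10 * Real.exp (-(kap * Y))) ≤
        2 * Real.exp (0.84 * Y) * ((50 * Y) ^ 10 * Real.exp (-(3 * Y))) := by
      gcongr
      linarith
    refine ((hbd u).trans h4).trans ?_
    rw [le_div_iff₀ hYBp]
    calc 2 * Real.exp (0.84 * Y) * ((50 * Y) ^ 10 * Real.exp (-(3 * Y))) * Y ^ B
        ≤ 2 * Real.exp (0.84 * Y) * ((1 + 50 * Y) ^ 10 * Real.exp (-(3 * Y))) * (1 + 50 * Y) ^ B := by gcongr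
      _ = (2 * (1 + 50 * Y) ^ (10 + B)) * (Real.exp (0.84 * Y) * Real.exp (-(3 * Y))) := by
          rw [pow_add]; ring
      _ ≤ Real.exp (1 * Y) * (Real.exp (0.84 * Y) * Real.exp (-(3 * Y))) := by gcongr
      _ = Real.exp ((1 + 0.84 - 3) * Y) := by rw [← Real.exp_add, ← Real.exp_add]; congr 1; ring
      _ ≤ 1 := by
        rw [Real.exp_le_one_iff]
        nlinarith
  push Not at hcase1
  have hgG : ∀ i, g i < G := by
    intro i
    have := hg i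
    rw [mem_range] at this
    have := hcase1 i
    omega
  have hPF : ∀ k ∈ L, ∀ i, Real.exp (-((κ i + ε') * Y)) ≤ ‖PF (zY Y) (ty i) (d i) k‖ := by
    intro k hk i
    have h1 := cg_high hs0 ((mem_LS.1 hk).2.2.2.2 i) (hgG i)
    refine le_of_eq_of_le ?_ h1.le
    congr 1
    simp only [hκ, hs]
    ring
  by_cases hcase2 : kap < ε₀ / 2
  · left
    intro u
    have h1 := HN Y kN d hd L (by
      intro k hk
      have := hkl k hk
      exact ⟨this.1, (this.2.le).trans hK4⟩) (by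
      intro k hk i
      refine le_trans ?_ (hPF k hk i)
      apply Real.exp_le_exp.2
      have := hkle i
      apply neg_le_neg
      apply mul_le_mul_of_nonneg_right _ hYpos.le
      linarith)
    exact (SS_le _ hmb).trans h1
  push Not at hcase2
  obtain ⟨k₁, hk₁⟩ := hLne
  have hk₁' := mem_LS.1 hk₁
  have hT1 : (2:ℝ) ^ r ≤ |(k₁ : ℝ)| := by exact_mod_cast hk₁'.2.2.1
  have hT2 : |(k₁ : ℝ)| < (2:ℝ) ^ (r + 1) := by exact_mod_cast hk₁'.2.2.2.1
  have h1 := HF Y kF d hd ((2:ℝ) ^ r) (by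
      have h2 := (hkl k₁ hk₁).1
      have h3 : Real.exp (1 / 200 * Y) = Real.exp (1 / 400 * Y) * Real.exp (1 / 400 * Y) := by
        rw [← Real.exp_add]; congr 1; ring
      have h5 : (2:ℝ) ^ (r + 1) = 2 * 2 ^ r := by ring
      rw [h3] at h2
      rw [h5] at hT2
      refine lemD (B := 0) h2 hT2 ?_
      have := Real.add_one_le_exp (1 / 400 * Y)
      linarith) (by
      exact (hT1.trans (hkl k₁ hk₁).2.le).trans hK3) L ⟨k₁, hk₁⟩ (by
      intro k hk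
      have h2 := mem_LS.1 hk
      constructor
      · exact_mod_cast h2.2.2.1
      · have h3 : |(k : ℝ)| < (2:ℝ) ^ (r + 1) := by exact_mod_cast h2.2.2.2.1
        have h5 : (2:ℝ) ^ (r + 1) = 2 * 2 ^ r := by ring
        linarith) κ hκ0 hcase2 hPF
  rcases le_total (2 * kap - μ) kap with hcase3 | hcase3
  · left
    intro u
    rw [← hkap, max_eq_left hcase3] at h1
    refine (hbd u).trans ?_
    rw [le_div_iff₀ hYBp]
    calc (L.card : ℝ) * ((50 * Y) ^ 10 * Real.exp (-(kap * Y))) * Y ^ B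
        ≤ Real.exp ((kap - η₁) * Y) * ((1 + 50 * Y) ^ 10 * Real.exp (-(kap * Y))) * (1 + 50 * Y) ^ B := by gcongr
      _ = (1 + 50 * Y) ^ (10 + B) * (Real.exp ((kap - η₁) * Y) * Real.exp (-(kap * Y))) := by
          rw [pow_add]; ring
      _ ≤ Real.exp (η₁ * Y) * (Real.exp ((kap - η₁) * Y) * Real.exp (-(kap * Y))) := by gcongr
      _ = 1 := by
          rw [← Real.exp_add, ← Real.exp_add]
          rw [show η₁ * Y + ((kap - η₁) * Y + -(kap * Y)) = 0 by ring, Real.exp_zero]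
  · right
    rw [← hkap, max_eq_right hcase3] at h1
    have h2 : ∀ k ∈ L, ‖((m k : ℝ) : ℂ) * EE (zY Y) d k‖ ^ 2 ≤ ((50 * Y) ^ 10 * Real.exp (-(kap * Y))) ^ 2 := by
      intro k hk
      have h6 := EE_le hT (by linarith) hd hs0 (mem_LS.1 hk).2.2.2.2
      rw [← hS, hkapS] at h6
      have h7 : ‖((m k : ℝ) : ℂ) * EE (zY Y) d k‖ ≤ ‖EE (zY Y) d k‖ := by
        rw [norm_mul, Complex.norm_real, Real.norm_eq_abs]
        calc |m k| * ‖EE (zY Y) d k‖ ≤ 1 * ‖EE (zY Y) d k‖ := by gcongr; exact hmb k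
          _ = _ := one_mul _
      exact pow_le_pow_left₀ (norm_nonneg _) (h7.trans h6) 2
    refine (Finset.sum_le_card_nsmul _ _ _ h2).trans ?_
    rw [nsmul_eq_mul]
    calc (L.card : ℝ) * ((50 * Y) ^ 10 * Real.exp (-(kap * Y))) ^ 2
        ≤ Real.exp ((2 * kap - μ - η₁) * Y) * ((1 + 50 * Y) ^ 10 * Real.exp (-(kap * Y))) ^ 2 := by gcongr
      _ = (1 + 50 * Y) ^ 20 * (Real.exp ((2 * kap - μ - η₁) * Y) * (Real.exp (-(kap * Y)) * Real.exp (-(kap * Y)))) := by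
          ring
      _ ≤ Real.exp (η₁ / 2 * Y) * (Real.exp ((2 * kap - μ - η₁) * Y) * (Real.exp (-(kap * Y)) * Real.exp (-(kap * Y)))) := by
          gcongr
      _ = Real.exp (-((μ + η₁ / 2) * Y)) := by
          rw [← Real.exp_add, ← Real.exp_add, ← Real.exp_add]
          congr 1
          ring
      _ ≤ _ := by
          apply Real.exp_le_exp.2
          apply neg_le_neg
          exact mul_le_mul_of_nonneg_right (by linarith) hYpos.le

theorem lemB3 {K : ℕ} {Y : ℝ} (hY : 100 ≤ Y) (hK : 1 ≤ K) (h : (K : ℝ) ≤ Real.exp (0.9 * Y)) :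
    ((Nat.log 2 K : ℕ) : ℝ) + 1 ≤ 2 * Y := by
  have h1 : 2 ^ Nat.log 2 K ≤ K := Nat.pow_log_le_self 2 (by omega)
  have h2 : (2:ℝ) ^ Nat.log 2 K ≤ Real.exp (0.9 * Y) := le_trans (by exact_mod_cast h1) h
  have h3 := Real.log_le_log (by positivity) h2
  rw [Real.log_pow, Real.log_exp] at h3
  have h4 := Real.log_two_gt_d9
  have h5 : (0:ℝ) ≤ (Nat.log 2 K : ℕ) := Nat.cast_nonneg _
  have h6 : ((Nat.log 2 K : ℕ) : ℝ) * 0.69 ≤ ((Nat.log 2 K : ℕ) : ℝ) * Real.log 2 :=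
    mul_le_mul_of_nonneg_left (by linarith) h5
  linarith

/-- the high frequencies are small outside a set of small measure -/
theorem high_exc {lam0 μ : ℝ} (hFG : FG lam0 μ) (hl0 : 0 ≤ lam0) (hl : lam0 ≤ 0.833) (B : ℕ) :
    ∃ η Y₀ : ℝ, 0 < η ∧ η ≤ 1 / 1000 ∧ ∀ Y : ℝ, Y₀ ≤ Y → ∀ K : ℕ,
    1 ≤ K → (K : ℝ) ≤ Real.exp ((lam0 + η) * Y) → ∀ m : ℤ → ℝ, (∀ k, |m k| ≤ 1) → ∀ v : ℝ,
    volume {u : ℝ | u ∈ Set.Icc v (v + 3) ∧ 1 / Y ^ B <
      ‖∑ k ∈ (FK K).filter (fun k => (⌈Real.exp (Y / 200)⌉₊ : ℤ) ≤ |k|), ((m k : ℝ) : ℂ) *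
        Complex.exp (((k : ℝ) * u : ℝ) * Complex.I) * AA (zY Y) Y k‖} ≤
      ENNReal.ofReal (Real.exp (-((μ + η) * Y))) := by
  classical
  obtain ⟨G, ε', η₁, Y₁, hε', hη₁, hη₁1, hcl⟩ := class_alt hFG hl0 hl (B + 13)
  obtain ⟨A, hA⟩ : ∃ A : ℝ, A = 31 * 21 ^ 10 * 2 * ((G : ℝ) + 1) ^ 10 := ⟨_, rfl⟩
  have hA0 : 0 < A := by rw [hA]; positivity
  have hη₁2 : 0 < η₁ / 2 := by positivity
  obtain ⟨Y₂, hY₂⟩ := eventually_atTop.1 (ev_poly (21 ^ 10 * 2 * ((G : ℝ) + 1) ^ 10 * 7) (2 * B + 35) hη₁2)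
  refine ⟨η₁ / 2, max (max Y₁ Y₂) (max 100 (A + 1)), hη₁2, by linarith, ?_⟩
  intro Y hY K hK hKle m hm v
  have hY1 : Y₁ ≤ Y := ((le_max_left _ _).trans (le_max_left _ _)).trans hY
  have hY2' : Y₂ ≤ Y := ((le_max_right _ _).trans (le_max_left _ _)).trans hY
  have hY2 : 100 ≤ Y := ((le_max_left _ _).trans (le_max_right _ _)).trans hY
  have hY3 : A + 1 ≤ Y := ((le_max_right _ _).trans (le_max_right _ _)).trans hY
  have hY0 : 0 < Y := by linarith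
  have hY1' : 1 ≤ Y := by linarith
  have hKle' : (K : ℝ) ≤ Real.exp ((lam0 + η₁) * Y) :=
    hKle.trans (Real.exp_le_exp.2 (mul_le_mul_of_nonneg_right (by linarith) hY0.le))
  set s : ℝ := ε' * Y with hs
  set K₀ : ℕ := ⌈Real.exp (Y / 200)⌉₊ with hK₀
  have hlog : ((Nat.log 2 K : ℕ) : ℝ) + 1 ≤ 2 * Y := lemB3 hY2 hK (hKle.trans (Real.exp_le_exp.2
    (mul_le_mul_of_nonneg_right (by linarith) hY0.le)))
  have hcd := card_DY (by linarith : (21 : ℝ) ≤ Y)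
  -- the classes
  set C : Finset ((Fin 10 → ℕ) × (ℕ × (Fin 10 → ℕ))) := (DY Y) ×ˢ ((range (Nat.log 2 K + 1)) ×ˢ
    (Fintype.piFinset (fun _ : Fin 10 => range (G + 1)))) with hC
  have hCc : (C.card : ℝ) ≤ (21 * Y) ^ 10 * (2 * Y * ((G : ℝ) + 1) ^ 10) := by
    have h1 : C.card = (DY Y).card * ((Nat.log 2 K + 1) * (G + 1) ^ 10) := by
      rw [hC, card_product, card_product, card_range, Fintype.card_piFinset]
      simp
    rw [h1]
    push_cast
    gcongr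
  set q : ℝ := 7 * Real.exp (-((μ + η₁) * Y)) / (1 / Y ^ (B + 12)) ^ 2 with hq
  have hq0 : 0 ≤ q := by rw [hq]; positivity
  have hclass : ∀ c ∈ C, volume {u : ℝ | u ∈ Set.Icc v (v + 3) ∧ 1 / Y ^ (B + 12) ≤
      ‖SS Y G s K₀ K c.2.1 c.1 c.2.2 m u‖} ≤ ENNReal.ofReal q := by
    rintro ⟨d, r, g⟩ hc
    rw [hC, mem_product, mem_product] at hc
    obtain ⟨hd, hr, hg⟩ := hc
    rcases hcl Y hY1 K hK hKle' m hm d hd r g hg with h | h
    · have : {u : ℝ | u ∈ Set.Icc v (v + 3) ∧ 1 / Y ^ (B + 12) ≤ ‖SS Y G s K₀ K r d g m u‖} = ∅ := by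
        ext u
        simp only [Set.mem_setOf_eq, Set.mem_empty_iff_false, iff_false, not_and, not_le]
        intro _
        refine lt_of_le_of_lt (h u) ?_
        rw [one_div_lt_one_div (by positivity) (by positivity)]
        exact pow_lt_pow_right₀ (by linarith) (by omega)
      rw [this, measure_empty]
      exact zero_le
    · have h1 := meas_large (LS Y G s K₀ K r d g) (fun k => ((m k : ℝ) : ℂ) * EE (zY Y) d k) v
        (show 0 < 1 / Y ^ (B + 12) by positivity) h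
      refine le_trans (le_of_eq ?_) h1
      congr 1
      ext u
      have e : SS Y G s K₀ K r d g m u = TS (LS Y G s K₀ K r d g) (fun k => ((m k : ℝ) : ℂ) * EE (zY Y) d k) u := by
        unfold SS TS
        exact Finset.sum_congr rfl fun k _ => by ring
      simp only [Set.mem_setOf_eq, e]
  have hsub : {u : ℝ | u ∈ Set.Icc v (v + 3) ∧ 1 / Y ^ B <
      ‖∑ k ∈ (FK K).filter (fun k => (K₀ : ℤ) ≤ |k|), ((m k : ℝ) : ℂ) *
        Complex.exp (((k : ℝ) * u : ℝ) * Complex.I) * AA (zY Y) Y k‖} ⊆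
      ⋃ c ∈ C, {u : ℝ | u ∈ Set.Icc v (v + 3) ∧ 1 / Y ^ (B + 12) ≤ ‖SS Y G s K₀ K c.2.1 c.1 c.2.2 m u‖} := by
    rintro u ⟨hu1, hu2⟩
    obtain ⟨d, hd, r, hr, g, hg, h⟩ := Pool.Agent.Q222.KS.cls Y K₀ K G s u (1 / Y ^ B) m
      (Nat.one_le_ceil_iff.2 (Real.exp_pos _)) (by positivity) hu2.le
    rw [Set.mem_iUnion₂]
    refine ⟨(d, r, g), ?_, hu1, ?_⟩
    · rw [hC, mem_product, mem_product]
      exact ⟨hd, hr, hg⟩
    · have hc0 : (0 : ℝ) < (DY Y).card := by exact_mod_cast Finset.card_pos.2 ⟨d, hd⟩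
      have h2 : 31 * ((DY Y).card : ℝ) * ((Nat.log 2 K : ℕ) + 1) * ((G : ℝ) + 1) ^ 10 ≤ A * Y ^ 11 := by
        calc 31 * ((DY Y).card : ℝ) * ((Nat.log 2 K : ℕ) + 1) * ((G : ℝ) + 1) ^ 10
            ≤ 31 * (21 * Y) ^ 10 * (2 * Y) * ((G : ℝ) + 1) ^ 10 := by gcongr
          _ = A * Y ^ 11 := by rw [hA]; ring
      refine le_trans ?_ h
      calc 1 / Y ^ (B + 12) ≤ 1 / Y ^ B / (A * Y ^ 11) := by
            rw [div_div, one_div_le_one_div (by positivity) (by positivity)]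
            calc Y ^ B * (A * Y ^ 11) = A * (Y ^ B * Y ^ 11) := by ring
              _ ≤ Y * (Y ^ B * Y ^ 11) := mul_le_mul_of_nonneg_right (by linarith) (by positivity)
              _ = Y ^ (B + 12) := by rw [pow_add]; ring
        _ ≤ _ := by gcongr
  refine (measure_mono hsub).trans ((measure_biUnion_finset_le _ _).trans ?_)
  refine (Finset.sum_le_sum hclass).trans ?_
  rw [Finset.sum_const, nsmul_eq_mul, ← ENNReal.ofReal_natCast, ← ENNReal.ofReal_mul (Nat.cast_nonneg _)]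
  apply ENNReal.ofReal_le_ofReal
  have h3 := hY₂ Y hY2'
  calc (C.card : ℝ) * q ≤ ((21 * Y) ^ 10 * (2 * Y * ((G : ℝ) + 1) ^ 10)) * q := by gcongr
    _ = (21 ^ 10 * 2 * ((G : ℝ) + 1) ^ 10 * 7 * Y ^ (2 * B + 35)) * Real.exp (-((μ + η₁) * Y)) := by
        rw [hq, div_pow, one_pow, div_div_eq_mul_div, div_one, ← pow_mul,
          show 2 * B + 35 = (B + 12) * 2 + 11 by ring, pow_add Y ((B + 12) * 2)]
        ring
    _ ≤ Real.exp (η₁ / 2 * Y) * Real.exp (-((μ + η₁) * Y)) := by gcongr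
    _ = Real.exp (-((μ + η₁ / 2) * Y)) := by
        rw [← Real.exp_add]
        congr 1
        ring

end Pool.Agent.U26Z.DX
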