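import Mathlib

/-!
# The mean of a frequency over an interval
-/

set_option autoImplicit false

namespace Pool.Agent.U26Z.DX

open MeasureTheory

theorem int_freq (k : ℤ) (v : ℝ) {h : ℝ} (hh : 0 < h) :
    ∫ u in v..(v + h), Complex.exp (((k : ℝ) * u : ℝ) * Complex.I) =
      ((h * Real.sinc (k * (h / 2)) : ℝ) : ℂ) * Complex.exp (((k : ℝ) * (v + h / 2) : ℝ) * Complex.I) := by
  by_cases hk : k = 0
  · subst hk
    simp
  · have hkr : (k : ℝ) ≠ 0 := by exact_mod_cast hk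
    have hkc : (k : ℂ) ≠ 0 := by exact_mod_cast hk
    have hc : ((k : ℂ) * Complex.I) ≠ 0 := mul_ne_zero hkc Complex.I_ne_zero
    have e : ∀ u : ℝ, Complex.exp (((k : ℝ) * u : ℝ) * Complex.I) = Complex.exp (((k : ℂ) * Complex.I) * u) := by
      intro u
      congr 1
      push_cast
      ring
    simp_rw [e]
    rw [integral_exp_mul_complex hc]
    have e1 : Complex.exp ((k : ℂ) * Complex.I * ((v + h : ℝ) : ℂ)) =
        Complex.exp ((k : ℂ) * Complex.I * ((v + h / 2 : ℝ) : ℂ)) *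
        Complex.exp ((((k : ℝ) * (h / 2) : ℝ) : ℂ) * Complex.I) := by
      rw [← Complex.exp_add]
      congr 1
      push_cast
      ring
    have e2 : Complex.exp ((k : ℂ) * Complex.I * (v : ℂ)) =
        Complex.exp ((k : ℂ) * Complex.I * ((v + h / 2 : ℝ) : ℂ)) *
        Complex.exp (-(((k : ℝ) * (h / 2) : ℝ) : ℂ) * Complex.I) := by
      rw [← Complex.exp_add]
      congr 1
      push_cast
      ring
    have e3 := Complex.two_sin (((k : ℝ) * (h / 2) : ℝ) : ℂ)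
    have e4 : Complex.exp ((((k : ℝ) * (h / 2) : ℝ) : ℂ) * Complex.I) -
        Complex.exp (-(((k : ℝ) * (h / 2) : ℝ) : ℂ) * Complex.I) =
        2 * Complex.sin (((k : ℝ) * (h / 2) : ℝ) : ℂ) * Complex.I := by
      rw [e3, mul_assoc, Complex.I_mul_I]
      ring
    have hx : (k : ℝ) * (h / 2) ≠ 0 := mul_ne_zero hkr (by positivity)
    rw [e1, e2, ← mul_sub, e4, Real.sinc_of_ne_zero hx, ← Complex.ofReal_sin]
    obtain ⟨S, hS⟩ : ∃ S, S = Real.sin ((k : ℝ) * (h / 2)) := ⟨_, rfl⟩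
    rw [← hS]
    obtain ⟨E, hE⟩ : ∃ E, E = Complex.exp ((k : ℂ) * Complex.I * ((v + h / 2 : ℝ) : ℂ)) := ⟨_, rfl⟩
    rw [← hE]
    have hhc : (h : ℂ) ≠ 0 := by exact_mod_cast hh.ne'
    push_cast
    field_simp

end Pool.Agent.U26Z.DX
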