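import Pool.Agent.Q257.KS.FEb
import Pool.Agent.Q278.KS.Mai

/-!
# From the sums of `Λ(n)/n` to the number of primes
-/

set_option autoImplicit false

namespace Pool.Agent.U26Z.DX

open Finset Filter Topology Pool.Agent.Q240.KS Pool.Agent.Q257.KS

/-- the number `π(x, H)` of the primes in `(x, x + H]` -/
noncomputable def primesIn (x H : ℝ) : ℕ := ((Ioc ⌊x⌋₊ ⌊x + H⌋₊).filter Nat.Prime).card

/-- `π(x, H) log x / H` -/
noncomputable def density (x H : ℝ) : ℝ := primesIn x H * Real.log x / H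

theorem primesIn_eq (x H : ℝ) : primesIn x H = pic x H := rfl

theorem pic_low {y H h₁ : ℝ} (hy : Real.exp 1 ≤ y) (hH : 0 < H) (hHy : H ≤ y) (hh : y * Real.exp h₁ ≤ y + H) :
    SL (Real.log y) h₁ ≤ ((pic y H : ℝ) + (2 * Real.log y + 2) * (H / Real.sqrt y + 1) + 1) * ((Real.log y + 1) / y) := by
  classical
  have hy0 : 0 < y := (Real.exp_pos 1).trans_le hy
  have hlog : 1 ≤ Real.log y := by rw [Real.le_log_iff_exp_le hy0]; exact hy
  have hmid := middle (Y := Real.log y) (y := y) (h := H) hlog hy0 hH.le (by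
    rw [Real.exp_add, Real.exp_log hy0]
    have h2 : (2 : ℝ) ≤ Real.exp 1 := by have := Real.exp_one_gt_d9; linarith
    nlinarith)
  have hnn : ∀ n : ℕ, 0 ≤ ArithmeticFunction.vonMangoldt n / (n : ℝ) := fun n =>
    div_nonneg ArithmeticFunction.vonMangoldt_nonneg (Nat.cast_nonneg _)
  have hsub : (Icc 1 ⌊Real.exp (Real.log y + h₁)⌋₊).filter (fun n : ℕ => Real.log y ≤ Real.log n) ⊆
      (({⌊y⌋₊} : Finset ℕ).filter (fun n : ℕ => (n : ℝ) = y)) ∪ Ioc ⌊y⌋₊ ⌊y + H⌋₊ := by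
    intro n hn
    rw [mem_filter, mem_Icc, Real.exp_add, Real.exp_log hy0] at hn
    obtain ⟨⟨h1, h2⟩, h3⟩ := hn
    have hn0 : (0 : ℝ) < n := by exact_mod_cast h1
    have h4 : y ≤ n := (Real.log_le_log_iff hy0 hn0).1 h3
    have h5 : (n : ℝ) ≤ y + H := by
      have : (n : ℝ) ≤ y * Real.exp h₁ := (Nat.le_floor_iff (by positivity)).1 h2
      linarith
    rw [mem_union, mem_filter, mem_singleton, mem_Ioc]
    rcases eq_or_lt_of_le h4 with h6 | h6
    · left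
      exact ⟨by rw [h6, Nat.floor_natCast], h6.symm⟩
    · right
      exact ⟨(Nat.floor_lt hy0.le).2 h6, Nat.le_floor h5⟩
  have h1 : SL (Real.log y) h₁ ≤ ∑ n ∈ ({⌊y⌋₊} : Finset ℕ).filter (fun n : ℕ => (n : ℝ) = y),
      ArithmeticFunction.vonMangoldt n / n + ∑ n ∈ Ioc ⌊y⌋₊ ⌊y + H⌋₊, ArithmeticFunction.vonMangoldt n / n := by
    unfold SL
    refine (Finset.sum_le_sum_of_subset_of_nonneg hsub fun n _ _ => hnn n).trans ?_
    rw [← Finset.sum_union_inter]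
    have : 0 ≤ ∑ n ∈ ({⌊y⌋₊} : Finset ℕ).filter (fun n : ℕ => (n : ℝ) = y) ∩ Ioc ⌊y⌋₊ ⌊y + H⌋₊,
      ArithmeticFunction.vonMangoldt n / (n : ℝ) := Finset.sum_nonneg fun n _ => hnn n
    linarith
  have h2 : ∑ n ∈ ({⌊y⌋₊} : Finset ℕ).filter (fun n : ℕ => (n : ℝ) = y), ArithmeticFunction.vonMangoldt n / (n : ℝ) ≤
      (Real.log y + 1) / y := by
    rw [Finset.sum_filter, Finset.sum_singleton]
    split_ifs with h
    · rw [h]
      have h3 : ArithmeticFunction.vonMangoldt ⌊y⌋₊ ≤ Real.log y := by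
        have := ArithmeticFunction.vonMangoldt_le_log (n := ⌊y⌋₊)
        rwa [h] at this
      gcongr
      linarith
    · positivity
  have e : ((pic y H : ℝ) + (2 * Real.log y + 2) * (H / Real.sqrt y + 1) + 1) * ((Real.log y + 1) / y) =
      (Real.log y + 1) / y + ((pic y H : ℝ) + (2 * Real.log y + 2) * (H / Real.sqrt y + 1)) * ((Real.log y + 1) / y) := by
    ring
  rw [e]
  exact h1.trans (add_le_add h2 hmid)

theorem pic_up {y H h₂ : ℝ} (hy : Real.exp 1 ≤ y) (hH : 0 < H) (hh : y + H ≤ y * Real.exp h₂) :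
    (pic y H : ℝ) * (Real.log y / (y + H)) ≤ SL (Real.log y) h₂ := by
  classical
  have hy0 : 0 < y := (Real.exp_pos 1).trans_le hy
  have hlog : 1 ≤ Real.log y := by rw [Real.le_log_iff_exp_le hy0]; exact hy
  have hnn : ∀ n : ℕ, 0 ≤ ArithmeticFunction.vonMangoldt n / (n : ℝ) := fun n =>
    div_nonneg ArithmeticFunction.vonMangoldt_nonneg (Nat.cast_nonneg _)
  have hsub : (Ioc ⌊y⌋₊ ⌊y + H⌋₊).filter Nat.Prime ⊆
      (Icc 1 ⌊Real.exp (Real.log y + h₂)⌋₊).filter (fun n : ℕ => Real.log y ≤ Real.log n) := by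
    intro n hn
    rw [mem_filter, mem_Ioc] at hn
    obtain ⟨⟨h1, h2⟩, h3⟩ := hn
    have h4 : y < n := (Nat.floor_lt hy0.le).1 h1
    have h5 : (n : ℝ) ≤ y + H := (Nat.le_floor_iff (by linarith)).1 h2
    rw [mem_filter, mem_Icc, Real.exp_add, Real.exp_log hy0]
    exact ⟨⟨h3.one_lt.le, Nat.le_floor (h5.trans hh)⟩, Real.log_le_log hy0 h4.le⟩
  have h1 : ∑ n ∈ (Ioc ⌊y⌋₊ ⌊y + H⌋₊).filter Nat.Prime, ArithmeticFunction.vonMangoldt n / (n : ℝ) ≤ SL (Real.log y) h₂ := by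
    unfold SL
    exact Finset.sum_le_sum_of_subset_of_nonneg hsub fun n _ _ => hnn n
  refine le_trans ?_ h1
  unfold pic
  rw [← nsmul_eq_mul]
  refine Finset.card_nsmul_le_sum _ _ _ fun n hn => ?_
  rw [mem_filter, mem_Ioc] at hn
  obtain ⟨⟨h1, h2⟩, h3⟩ := hn
  have h4 : y < n := (Nat.floor_lt hy0.le).1 h1
  have h5 : (n : ℝ) ≤ y + H := (Nat.le_floor_iff (by linarith)).1 h2
  rw [ArithmeticFunction.vonMangoldt_apply_prime h3]
  have hn0 : (0 : ℝ) < n := by linarith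
  exact div_le_div₀ (Real.log_nonneg (by linarith [Real.add_one_le_exp (1 : ℝ)])) (Real.log_le_log hy0 h4.le) hn0 h5

theorem dens_of {ε : ℝ} (hε : 0 < ε) (hε1 : ε ≤ 1 / 10) : ∀ᶠ y : ℝ in atTop, ∀ H : ℝ, y ^ (0.1 : ℝ) ≤ H → H ≤ ε * y →
    ∀ h₁ h₂ : ℝ, h₁ ≤ Real.log (1 + H / y) → Real.log (1 + H / y) ≤ (1 + ε) * h₁ → Real.log (1 + H / y) ≤ h₂ →
    h₂ ≤ (1 + ε) * Real.log (1 + H / y) → |SL (Real.log y) h₁ - h₁| ≤ ε * h₁ → |SL (Real.log y) h₂ - h₂| ≤ ε * h₂ →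
    |density y H - 1| ≤ 5 * ε := by
  have hp1 := Real.tendsto_log_atTop.eventually
    (Pool.Agent.Q278.KS.ev_poly (10 / ε) 2 (show (0 : ℝ) < 0.1 by norm_num))
  filter_upwards [hp1, Real.tendsto_log_atTop.eventually_ge_atTop (1 / ε), eventually_ge_atTop (Real.exp 1)]
    with y hy1 hy2 hy3
  intro H hH1 hH2 h₁ h₂ g1 g2 g3 g4 g5 g6
  have hy0 : 0 < y := (Real.exp_pos 1).trans_le hy3
  have hy1' : 1 ≤ y := by linarith [Real.add_one_le_exp (1 : ℝ)]
  have hlog : 1 ≤ Real.log y := by rw [Real.le_log_iff_exp_le hy0]; exact hy3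
  have hHp : 1 ≤ H := (Real.one_le_rpow hy1' (by norm_num)).trans hH1
  have hH0 : 0 < H := by linarith
  obtain ⟨τ, hτ⟩ : ∃ τ, τ = H / y := ⟨_, rfl⟩
  have hτ0 : 0 < τ := by rw [hτ]; positivity
  have hτ1 : τ ≤ ε := by rw [hτ, div_le_iff₀ hy0]; exact hH2
  have hHτ : H = τ * y := by rw [hτ]; field_simp
  obtain ⟨T, hT⟩ : ∃ T, T = Real.log (1 + τ) := ⟨_, rfl⟩
  rw [← hτ, ← hT] at g1 g2 g3 g4
  have hT1 : T ≤ τ := by
    rw [hT]
    have := Real.log_le_sub_one_of_pos (show 0 < 1 + τ by linarith)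
    linarith
  have hT2 : τ / (1 + τ) ≤ T := by
    rw [hT]
    have := Real.one_sub_inv_le_log_of_pos (show 0 < 1 + τ by linarith)
    have e : 1 - (1 + τ)⁻¹ = τ / (1 + τ) := by field_simp; ring
    rwa [e] at this
  have hT0 : 0 < T := lt_of_lt_of_le (by positivity) hT2
  have hexpT : y * Real.exp T = y + H := by
    rw [hT, Real.exp_log (by linarith), hHτ]
    ring
  have hh1 : 0 < h₁ := by
    by_contra hcon
    push Not at hcon
    have : (1 + ε) * h₁ ≤ 0 := mul_nonpos_of_nonneg_of_nonpos (by linarith) hcon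
    linarith
  obtain ⟨Y, hY⟩ : ∃ Y, Y = Real.log y := ⟨_, rfl⟩
  rw [← hY] at hy1 hy2 hlog g5 g6
  have hpow : Real.exp (0.1 * Y) = y ^ (0.1 : ℝ) := by
    rw [hY, Real.rpow_def_of_pos hy0]
    congr 1
    ring
  rw [hpow] at hy1
  have hlow := pic_low (h₁ := h₁) hy3 hH0 (by linarith [mul_le_of_le_one_left hy0.le (by linarith : ε ≤ 1)]) (by
    rw [← hexpT]
    exact mul_le_mul_of_nonneg_left (Real.exp_le_exp.2 g1) hy0.le)
  have hup := pic_up (h₂ := h₂) hy3 hH0 (by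
    rw [← hexpT]
    exact mul_le_mul_of_nonneg_left (Real.exp_le_exp.2 g3) hy0.le)
  rw [← hY] at hlow hup
  unfold density
  rw [primesIn_eq, ← hY]
  obtain ⟨N, hN⟩ : ∃ N : ℝ, N = (pic y H : ℝ) := ⟨_, rfl⟩
  rw [← hN] at hlow hup ⊢
  have hN0 : 0 ≤ N := by rw [hN]; exact Nat.cast_nonneg _
  have hY0 : 0 < Y := by linarith
  have g5' := (abs_le.1 g5).1
  have g6' := (abs_le.1 g6).2
  have hYε : 1 ≤ ε * Y := by
    rw [div_le_iff₀ hε] at hy2
    linarith
  rw [abs_le]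
  constructor
  · -- lower bound
    have hsq : y ^ (0.1 : ℝ) ≤ Real.sqrt y := by
      rw [Real.sqrt_eq_rpow]
      exact Real.rpow_le_rpow_of_exponent_le hy1' (by norm_num)
    have hpos1 : 0 < y ^ (0.1 : ℝ) := by positivity
    have hsq0 : 0 < Real.sqrt y := by positivity
    have hY2 : Y ^ 2 ≤ ε / 10 * y ^ (0.1 : ℝ) := by
      calc Y ^ 2 = ε / 10 * (10 / ε * Y ^ 2) := by field_simp
        _ ≤ _ := by gcongr
    have hYY : Y ≤ Y ^ 2 := by nlinarith
    -- the error term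
    have herr : Y * ((2 * Y + 2) * (H / Real.sqrt y + 1) + 1) ≤ ε * H := by
      have e1 : H / Real.sqrt y ≤ H / y ^ (0.1 : ℝ) := by gcongr
      have e2 : Y ^ 2 * (H / y ^ (0.1 : ℝ)) ≤ ε / 10 * H := by
        rw [mul_div_assoc', div_le_iff₀ hpos1]
        calc Y ^ 2 * H ≤ (ε / 10 * y ^ (0.1 : ℝ)) * H := by gcongr
          _ = _ := by ring
      have e3 : Y ^ 2 ≤ ε / 10 * H := hY2.trans (by gcongr)
      have e4 : 0 ≤ H / Real.sqrt y := by positivity
      calc Y * ((2 * Y + 2) * (H / Real.sqrt y + 1) + 1) ≤ Y * ((4 * Y) * (H / Real.sqrt y + 1) + Y) := by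
            gcongr
            linarith
        _ = 4 * (Y ^ 2 * (H / Real.sqrt y)) + 5 * Y ^ 2 := by ring
        _ ≤ 4 * (Y ^ 2 * (H / y ^ (0.1 : ℝ))) + 5 * Y ^ 2 := by gcongr
        _ ≤ 4 * (ε / 10 * H) + 5 * (ε / 10 * H) := by gcongr
        _ ≤ ε * H := by nlinarith
    obtain ⟨E, hE⟩ : ∃ E, E = (2 * Y + 2) * (H / Real.sqrt y + 1) + 1 := ⟨_, rfl⟩
    rw [← hE] at herr
    have hlow2 : SL Y h₁ * y ≤ (N + E) * (Y + 1) := by
      rw [mul_div_assoc', le_div_iff₀ hy0] at hlow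
      rw [hE]
      linarith
    have hE0 : 0 ≤ E := by rw [hE]; positivity
    -- `SL * y ≥ (1 - ε) / (1 + ε) ^ 2 * H`
    have hS : (1 - 4 * ε + ε) * H ≤ SL Y h₁ * y := by
      have s1 : (1 - ε) * h₁ ≤ SL Y h₁ := by linarith
      have s2 : T / (1 + ε) ≤ h₁ := by
        rw [div_le_iff₀ (by linarith)]
        linarith
      have s3 : τ / (1 + ε) ≤ T := by
        refine le_trans ?_ hT2
        gcongr
      have s4 : (1 - 3 * ε) * τ ≤ (1 - ε) * h₁ := by
        have s5 : τ / (1 + ε) / (1 + ε) ≤ h₁ := le_trans (by gcongr) s2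
        have s6 : (1 - 2 * ε) * τ ≤ h₁ := by
          refine le_trans ?_ s5
          rw [div_div, le_div_iff₀ (by positivity)]
          have : (1 - 2 * ε) * ((1 + ε) * (1 + ε)) ≤ 1 := by
            have e1 : 0 ≤ ε * ε := by positivity
            have e2 : 0 ≤ ε * ε * ε := by positivity
            have e3 : (1 - 2 * ε) * ((1 + ε) * (1 + ε)) = 1 - 3 * (ε * ε) - 2 * (ε * ε * ε) := by ring
            linarith
          calc (1 - 2 * ε) * τ * ((1 + ε) * (1 + ε)) = τ * ((1 - 2 * ε) * ((1 + ε) * (1 + ε))) := by ring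
            _ ≤ τ * 1 := by gcongr
            _ = τ := mul_one _
        calc (1 - 3 * ε) * τ ≤ (1 - ε) * ((1 - 2 * ε) * τ) := by
              have e1 : 0 ≤ ε * ε * τ := by positivity
              have e2 : (1 - ε) * ((1 - 2 * ε) * τ) = (1 - 3 * ε) * τ + 2 * (ε * ε * τ) := by ring
              linarith
          _ ≤ (1 - ε) * h₁ := mul_le_mul_of_nonneg_left s6 (by linarith)
      calc (1 - 4 * ε + ε) * H = ((1 - 3 * ε) * τ) * y := by rw [hHτ]; ring
        _ ≤ SL Y h₁ * y := mul_le_mul_of_nonneg_right (s4.trans s1) hy0.le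
    have h1 : (1 - 3 * ε) * H * Y ≤ (N + E) * (Y + 1) * Y := by
      have : (1 - 3 * ε) * H ≤ (N + E) * (Y + 1) := by linarith
      exact mul_le_mul_of_nonneg_right this hY0.le
    have h2 : (1 - ε) * (Y + 1) ≤ Y := by linarith
    have h3 : (1 - ε) * ((1 - 3 * ε) * H) ≤ (N + E) * Y := by
      have h4 : (1 - 3 * ε) * H ≤ (N + E) * (Y + 1) := by linarith
      have h5 : (1 - ε) * ((1 - 3 * ε) * H) ≤ (1 - ε) * ((N + E) * (Y + 1)) :=
        mul_le_mul_of_nonneg_left h4 (by linarith)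
      have h6 : (1 - ε) * ((N + E) * (Y + 1)) ≤ (N + E) * Y := by
        calc (1 - ε) * ((N + E) * (Y + 1)) = (N + E) * ((1 - ε) * (Y + 1)) := by ring
          _ ≤ (N + E) * Y := mul_le_mul_of_nonneg_left h2 (by linarith)
      linarith
    have h7 : (1 - 5 * ε) * H ≤ N * Y := by
      have h8 : (1 - 4 * ε) * H ≤ (1 - ε) * ((1 - 3 * ε) * H) := by
        have e1 : 0 ≤ ε * ε * H := by positivity
        have e2 : (1 - ε) * ((1 - 3 * ε) * H) = (1 - 4 * ε) * H + 3 * (ε * ε * H) := by ring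
        linarith
      have e3 : (1 - 5 * ε) * H = (1 - 4 * ε) * H - ε * H := by ring
      have e4 : (N + E) * Y = N * Y + Y * E := by ring
      linarith
    have h8 : 1 - 5 * ε ≤ N * Y / H := by
      rw [le_div_iff₀ hH0]
      exact h7
    linarith
  · -- upper bound
    have h1 : N * Y ≤ SL Y h₂ * (y + H) := by
      rw [mul_div_assoc', div_le_iff₀ (by linarith)] at hup
      exact hup
    have h2 : SL Y h₂ ≤ (1 + ε) * ((1 + ε) * τ) := by
      calc SL Y h₂ ≤ (1 + ε) * h₂ := by linarith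
        _ ≤ (1 + ε) * ((1 + ε) * T) := by gcongr
        _ ≤ _ := by gcongr
    have h3 : y + H ≤ (1 + ε) * y := by linarith
    have h4 : N * Y ≤ (1 + ε) ^ 3 * H := by
      calc N * Y ≤ SL Y h₂ * (y + H) := h1
        _ ≤ ((1 + ε) * ((1 + ε) * τ)) * ((1 + ε) * y) := by
            apply mul_le_mul h2 h3 (by linarith) (by positivity)
        _ = (1 + ε) ^ 3 * (τ * y) := by ring
        _ = _ := by rw [← hHτ]
    have h5 : (1 + ε) ^ 3 ≤ 1 + 5 * ε := by
      have e1 : ε * ε ≤ ε * (1 / 10) := mul_le_mul_of_nonneg_left hε1 hε.le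
      have e2 : ε * ε * ε ≤ ε * (1 / 10) * 1 := by
        apply mul_le_mul e1 (by linarith) hε.le (by positivity)
      have e3 : (1 + ε) ^ 3 = 1 + 3 * ε + 3 * (ε * ε) + ε * ε * ε := by ring
      linarith
    have h6 : N * Y / H ≤ 1 + 5 * ε := by
      rw [div_le_iff₀ hH0]
      exact h4.trans (mul_le_mul_of_nonneg_right h5 hH0.le)
    linarith

end Pool.Agent.U26Z.DX
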