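import Mathlib

/-!
# At most `r` of the random points fall into any of many small sets
-/

set_option autoImplicit false

namespace Pool.Agent.U26Z.DX

open Finset Filter Topology MeasureTheory ProbabilityTheory
open scoped NNReal ENNReal

open scoped Classical in
theorem few_bc {Ω : Type*} [MeasurableSpace Ω] {P : Measure Ω} [IsProbabilityMeasure P] {lam : ℕ → Ω → ℝ}
    (hm : ∀ j, Measurable (lam j)) (hi : iIndepFun lam P) {M : ℝ≥0} {a b : ℝ}
    (hlaw : ∀ j, P.map (lam j) ≤ M • volume.restrict (Set.Icc a b))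
    {ι : Type*} (T : ℕ → Finset ι) (G : ℕ → ι → Set ℝ) (hG : ∀ m i, MeasurableSet (G m i)) (q : ℕ → ℝ)
    (hq0 : ∀ m, 0 ≤ q m) (hq : ∀ m, ∀ i ∈ T m, volume (G m i) ≤ ENNReal.ofReal (q m)) (N : ℕ → ℕ) (r : ℕ)
    (hs : Summable fun m => ((T m).card : ℝ) * (N m * (M * q m)) ^ (r + 1)) :
    ∀ᵐ ω ∂P, ∀ᶠ m in atTop, ∀ i ∈ T m, ((range (N m)).filter (fun j => lam j ω ∈ G m i)).card ≤ r := by
  classical
  have hP : ∀ j : ℕ, ∀ m : ℕ, ∀ i ∈ T m, P ((lam j) ⁻¹' (G m i)) ≤ ENNReal.ofReal (M * q m) := by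
    intro j m i hi'
    rw [← Measure.map_apply (hm j) (hG m i)]
    refine (hlaw j (G m i)).trans ?_
    rw [Measure.smul_apply, ENNReal.ofReal_mul (NNReal.coe_nonneg M), ENNReal.ofReal_coe_nnreal]
    show (M : ℝ≥0∞) * _ ≤ _
    gcongr
    exact (Measure.restrict_apply_le _ _).trans (hq m i hi')
  have hE : ∀ m : ℕ, P (⋃ i ∈ T m, ⋃ S ∈ powersetCard (r + 1) (range (N m)), ⋂ j ∈ S, (lam j) ⁻¹' (G m i)) ≤
      ENNReal.ofReal (((T m).card : ℝ) * (N m * (M * q m)) ^ (r + 1)) := by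
    intro m
    have hMq : 0 ≤ M * q m := mul_nonneg (NNReal.coe_nonneg M) (hq0 m)
    have h1 : ∀ i ∈ T m, P (⋃ S ∈ powersetCard (r + 1) (range (N m)), ⋂ j ∈ S, (lam j) ⁻¹' (G m i)) ≤
        ENNReal.ofReal ((N m * (M * q m)) ^ (r + 1)) := by
      intro i hi'
      have h2 : ∀ S ∈ powersetCard (r + 1) (range (N m)), P (⋂ j ∈ S, (lam j) ⁻¹' (G m i)) ≤
          ENNReal.ofReal ((M * q m) ^ (r + 1)) := by
        intro S hS
        rw [mem_powersetCard] at hS
        rw [hi.measure_inter_preimage_eq_mul S (fun _ _ => hG m i)]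
        refine (Finset.prod_le_prod' fun j _ => hP j m i hi').trans ?_
        rw [prod_const, hS.2, ENNReal.ofReal_pow hMq]
      refine (measure_biUnion_finset_le _ _).trans ((Finset.sum_le_card_nsmul _ _ _ h2).trans ?_)
      rw [card_powersetCard, card_range, ← ENNReal.ofReal_nsmul, nsmul_eq_mul]
      apply ENNReal.ofReal_le_ofReal
      rw [mul_pow (N m : ℝ)]
      apply mul_le_mul_of_nonneg_right _ (by positivity)
      exact_mod_cast Nat.choose_le_pow (N m) (r + 1)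
    refine (measure_biUnion_finset_le _ _).trans ((Finset.sum_le_card_nsmul _ _ _ h1).trans ?_)
    rw [← ENNReal.ofReal_nsmul, nsmul_eq_mul]
  have hsum : (∑' m, P (⋃ i ∈ T m, ⋃ S ∈ powersetCard (r + 1) (range (N m)), ⋂ j ∈ S, (lam j) ⁻¹' (G m i))) ≠ ∞ := by
    have h1 := ENNReal.ofReal_tsum_of_nonneg (f := fun m => ((T m).card : ℝ) * (N m * (M * q m)) ^ (r + 1))
      (fun m => by
        have hMq : 0 ≤ M * q m := mul_nonneg (NNReal.coe_nonneg M) (hq0 m)
        positivity) hs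
    refine ne_top_of_le_ne_top ?_ (ENNReal.tsum_le_tsum hE)
    rw [← h1]
    exact ENNReal.ofReal_ne_top
  filter_upwards [ae_eventually_notMem hsum] with ω hω
  filter_upwards [hω] with m hm' i hi'
  by_contra hcon
  push Not at hcon
  obtain ⟨S, hS1, hS2⟩ := Finset.exists_subset_card_eq (show r + 1 ≤ ((range (N m)).filter (fun j => lam j ω ∈ G m i)).card by omega)
  apply hm'
  simp only [Set.mem_iUnion, Set.mem_iInter]
  refine ⟨i, hi', S, ?_, ?_⟩
  · rw [mem_powersetCard]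
    exact ⟨hS1.trans (filter_subset _ _), hS2⟩
  · intro j hj
    exact (mem_filter.1 (hS1 hj)).2

end Pool.Agent.U26Z.DX
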