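import Pool.Agent.U26Z.DX.Core
import Pool.Agent.U26Z.DX.Prob
import Pool.Agent.U26Z.DX.Opt2

/-!
# All but boundedly many of the dilates
-/

set_option autoImplicit false

namespace Pool.Agent.U26Z.DX

open Finset Filter Topology MeasureTheory ProbabilityTheory
open scoped NNReal ENNReal

/-- the statement for one `ε` and one range of the random dilations -/
theorem few_one {θ μ : ℝ} (hθ0 : 0.167 ≤ θ) (hθ1 : θ ≤ 1) (hμ : 0 ≤ μ) {η : ℝ} (hη : 0 < η)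
    (hv : ∀ ε a b : ℝ, 0 < ε → ε ≤ 1 / 10 → 0 < a → a ≤ b → ∀ᶠ x : ℝ in atTop, ∀ H : ℝ,
      x ^ θ / 10 ≤ H → H ≤ x ^ (0.65 : ℝ) → volume (Bd a b ε x H) ≤ ENNReal.ofReal (x ^ (-(μ + η))))
    {r : ℕ} (hr : 1 - θ < (r + 1) * (μ + η / 2))
    {Ω : Type*} [MeasurableSpace Ω] {P : Measure Ω} [IsProbabilityMeasure P] {lam : ℕ → Ω → ℝ}
    (hm : ∀ j, Measurable (lam j)) (hi : iIndepFun lam P) {M : ℝ≥0} {a b : ℝ} (ha : 0 < a) (hab : a ≤ b)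
    (hlaw : ∀ j, P.map (lam j) ≤ M • volume.restrict (Set.Icc a b)) {ε : ℝ} (hε : 0 < ε) (hε1 : ε ≤ 1 / 10) :
    ∀ᵐ ω ∂P, (∀ j, lam j ω ∈ Set.Icc a b) → ∀ᶠ x : ℝ in atTop,
      {j : ℕ | (j : ℝ) < x ^ (η / 4) ∧ ∃ H : ℝ, x ^ θ ≤ H ∧ H ≤ x ∧ 10 * ε < |density (lam j ω * x) H - 1|}.encard ≤ r := by
  classical
  obtain ⟨T, G, N, q, hGm, hq0, hGv, hsum, -, hcore⟩ := core hθ0 hθ1 hμ hη hv hr ha hab hε hε1
  have hbc := few_bc hm hi hlaw T G hGm q hq0 hGv N r (hsum M)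
  filter_upwards [hbc] with ω hω hin
  obtain ⟨m₀, hm₀⟩ := eventually_atTop.1 hω
  filter_upwards [hcore m₀] with x hx
  obtain ⟨m, hm1, hm2, p, hp, hm3⟩ := hx
  have hcount := hm₀ m hm1 p hp
  have hsub : {j : ℕ | (j : ℝ) < x ^ (η / 4) ∧ ∃ H : ℝ, x ^ θ ≤ H ∧ H ≤ x ∧ 10 * ε < |density (lam j ω * x) H - 1|} ⊆
      (((range (N m)).filter (fun j => lam j ω ∈ G m p) : Finset ℕ) : Set ℕ) := by
    rintro j ⟨hj1, H, hH1, hH2, hj2⟩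
    rw [Finset.mem_coe, mem_filter, mem_range]
    exact ⟨hm2 j hj1, hm3 _ (hin j) H hH1 hH2 hj2⟩
  refine (Set.encard_le_encard hsub).trans ?_
  rw [Set.encard_coe_eq_coe_finsetCard]
  exact_mod_cast hcount

/-- the statement for almost all tuples, one `ε` and one range -/
theorem tup_one {θ μ : ℝ} (hθ0 : 0.167 ≤ θ) (hθ1 : θ ≤ 1) (hμ : 0 ≤ μ) {η : ℝ} (hη : 0 < η)
    (hv : ∀ ε a b : ℝ, 0 < ε → ε ≤ 1 / 10 → 0 < a → a ≤ b → ∀ᶠ x : ℝ in atTop, ∀ H : ℝ,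
      x ^ θ / 10 ≤ H → H ≤ x ^ (0.65 : ℝ) → volume (Bd a b ε x H) ≤ ENNReal.ofReal (x ^ (-(μ + η))))
    {r : ℕ} (hr : 1 - θ < (r + 1) * (μ + η / 2)) {a b : ℝ} (ha : 0 < a) (hab : a ≤ b) {ε : ℝ} (hε : 0 < ε) (hε1 : ε ≤ 1 / 10) :
    ∀ᵐ l : Fin (r + 1) → ℝ, (∀ j, l j ∈ Set.Icc a b) → ∀ᶠ x : ℝ in atTop, ∃ j, ∀ H : ℝ, x ^ θ ≤ H → H ≤ x →
      |density (l j * x) H - 1| ≤ 10 * ε := by
  classical
  obtain ⟨T, G, N, q, hGm, hq0, hGv, hsum, hN, hcore⟩ := core hθ0 hθ1 hμ hη hv hr ha hab hε hε1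
  have hE : ∀ m : ℕ, (volume : Measure (Fin (r + 1) → ℝ)) (⋃ p ∈ T m, Set.pi Set.univ (fun _ => G m p)) ≤
      ENNReal.ofReal (((T m).card : ℝ) * (N m * ((1 : ℝ≥0) * q m)) ^ (r + 1)) := by
    intro m
    have h1 : ∀ p ∈ T m, (volume : Measure (Fin (r + 1) → ℝ)) (Set.pi Set.univ (fun _ => G m p)) ≤
        ENNReal.ofReal ((N m * ((1 : ℝ≥0) * q m)) ^ (r + 1)) := by
      intro p hp
      rw [volume_pi_pi, Finset.prod_const, Finset.card_univ, Fintype.card_fin, ENNReal.ofReal_pow (by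
        have := hq0 m
        positivity)]
      gcongr
      refine (hGv m p hp).trans (ENNReal.ofReal_le_ofReal ?_)
      have h2 : (1 : ℝ) ≤ N m := by exact_mod_cast hN m
      have h3 := hq0 m
      simp only [NNReal.coe_one, one_mul]
      nlinarith
    refine (measure_biUnion_finset_le _ _).trans ((Finset.sum_le_card_nsmul _ _ _ h1).trans ?_)
    rw [← ENNReal.ofReal_nsmul, nsmul_eq_mul]
  have hfin : (∑' m, (volume : Measure (Fin (r + 1) → ℝ)) (⋃ p ∈ T m, Set.pi Set.univ (fun _ => G m p))) ≠ ∞ := by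
    have h1 := ENNReal.ofReal_tsum_of_nonneg (f := fun m => ((T m).card : ℝ) * (N m * ((1 : ℝ≥0) * q m)) ^ (r + 1))
      (fun m => by
        have := hq0 m
        positivity) (hsum 1)
    refine ne_top_of_le_ne_top ?_ (ENNReal.tsum_le_tsum hE)
    rw [← h1]
    exact ENNReal.ofReal_ne_top
  filter_upwards [ae_eventually_notMem hfin] with l hl hin
  obtain ⟨m₀, hm₀⟩ := eventually_atTop.1 hl
  filter_upwards [hcore m₀] with x hx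
  obtain ⟨m, hm1, hm2, p, hp, hm3⟩ := hx
  by_contra hcon
  push Not at hcon
  apply hm₀ m hm1
  simp only [Set.mem_iUnion, Set.mem_pi, Set.mem_univ, true_implies]
  refine ⟨p, hp, fun j => ?_⟩
  obtain ⟨H, hH1, hH2, hj⟩ := hcon j
  exact hm3 _ (hin j) H hH1 hH2 hj

/-- the volume bound from the exponents -/
theorem vol_of {θ μ : ℝ} (hFG : FG (1 - θ) μ) (hθ0 : 0.167 ≤ θ) (hθ1 : θ ≤ 1) (hμ : 0 ≤ μ) :
    ∃ η : ℝ, 0 < η ∧ ∀ ε a b : ℝ, 0 < ε → ε ≤ 1 / 10 → 0 < a → a ≤ b → ∀ᶠ x : ℝ in atTop, ∀ H : ℝ,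
      x ^ θ / 10 ≤ H → H ≤ x ^ (0.65 : ℝ) → volume (Bd a b ε x H) ≤ ENNReal.ofReal (x ^ (-(μ + η))) := by
  obtain ⟨η, hη, -, h⟩ := vol_bad hFG (by linarith) (by linarith) hμ
  refine ⟨η, hη, fun ε a b h1 h2 h3 h4 => ?_⟩
  have := h ε a b h1 h2 h3 h4
  rwa [show 1 - (1 - θ) = θ by ring] at this

/-- all but `r` of the first `x ^ c` random dilates -/
theorem few_all {θ μ : ℝ} (hθ0 : 0.167 ≤ θ) (hθ1 : θ ≤ 1) (hμ : 0 ≤ μ) {η : ℝ} (hη : 0 < η)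
    (hv : ∀ ε a b : ℝ, 0 < ε → ε ≤ 1 / 10 → 0 < a → a ≤ b → ∀ᶠ x : ℝ in atTop, ∀ H : ℝ,
      x ^ θ / 10 ≤ H → H ≤ x ^ (0.65 : ℝ) → volume (Bd a b ε x H) ≤ ENNReal.ofReal (x ^ (-(μ + η))))
    {r : ℕ} (hr : 1 - θ < (r + 1) * (μ + η / 2)) (Ω : Type) [MeasurableSpace Ω] (P : Measure Ω) [IsProbabilityMeasure P]
    (lam : ℕ → Ω → ℝ) (a b : ℝ) (M : ℝ≥0) (ha : 0 < a) (hm : ∀ j, Measurable (lam j)) (hi : iIndepFun lam P)
    (hlaw : ∀ j, P.map (lam j) ≤ M • volume.restrict (Set.Icc a b)) :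
    ∀ᵐ ω ∂P, ∀ δ : ℝ, 0 < δ → ∀ᶠ x : ℝ in atTop,
      {j : ℕ | (j : ℝ) < x ^ (η / 4) ∧ ∃ H : ℝ, x ^ θ ≤ H ∧ H ≤ x ∧ δ < |density (lam j ω * x) H - 1|}.encard ≤ r := by
  have hin : ∀ᵐ ω ∂P, ∀ j, lam j ω ∈ Set.Icc a b := by
    rw [ae_all_iff]
    intro j
    have h1 : P.map (lam j) (Set.Icc a b)ᶜ = 0 := by
      refine le_antisymm ((hlaw j _).trans ?_) zero_le
      rw [Measure.smul_apply, Measure.restrict_apply measurableSet_Icc.compl, Set.compl_inter_self, measure_empty]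
      simp
    rw [Measure.map_apply (hm j) measurableSet_Icc.compl] at h1
    exact h1
  have hab : a ≤ b := by
    by_contra hcon
    push Not at hcon
    obtain ⟨ω, hω⟩ := hin.exists
    have := hω 0
    rw [Set.Icc_eq_empty (not_le.2 hcon)] at this
    exact this
  have hall : ∀ᵐ ω ∂P, ∀ k : ℕ, ∀ᶠ x : ℝ in atTop,
      {j : ℕ | (j : ℝ) < x ^ (η / 4) ∧ ∃ H : ℝ, x ^ θ ≤ H ∧ H ≤ x ∧
        10 * (1 / ((k : ℝ) + 10)) < |density (lam j ω * x) H - 1|}.encard ≤ r := by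
    rw [ae_all_iff]
    intro k
    have hk : (0 : ℝ) ≤ k := Nat.cast_nonneg k
    filter_upwards [few_one hθ0 hθ1 hμ hη hv hr hm hi ha hab hlaw (ε := 1 / ((k : ℝ) + 10)) (by positivity) (by
      apply one_div_le_one_div_of_le (by norm_num)
      linarith), hin] with ω h1 h2
    exact h1 h2
  filter_upwards [hall] with ω hω δ hδ
  obtain ⟨k, hk⟩ := exists_nat_ge (10 / δ)
  filter_upwards [hω k] with x hx
  refine (Set.encard_le_encard ?_).trans hx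
  rintro j ⟨hj1, H, hH1, hH2, hj2⟩
  refine ⟨hj1, H, hH1, hH2, lt_of_le_of_lt ?_ hj2⟩
  rw [mul_one_div, div_le_iff₀ (by positivity)]
  rw [div_le_iff₀ hδ] at hk
  nlinarith

/-- one of `r + 1` dilates -/
theorem tup_all {θ μ : ℝ} (hθ0 : 0.167 ≤ θ) (hθ1 : θ ≤ 1) (hμ : 0 ≤ μ) {η : ℝ} (hη : 0 < η)
    (hv : ∀ ε a b : ℝ, 0 < ε → ε ≤ 1 / 10 → 0 < a → a ≤ b → ∀ᶠ x : ℝ in atTop, ∀ H : ℝ,
      x ^ θ / 10 ≤ H → H ≤ x ^ (0.65 : ℝ) → volume (Bd a b ε x H) ≤ ENNReal.ofReal (x ^ (-(μ + η))))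
    {r : ℕ} (hr : 1 - θ < (r + 1) * (μ + η / 2)) :
    ∀ᵐ l : Fin (r + 1) → ℝ, (∀ j, 0 < l j) → ∀ δ : ℝ, 0 < δ → ∀ᶠ x : ℝ in atTop, ∃ j, ∀ H : ℝ, x ^ θ ≤ H → H ≤ x →
      |density (l j * x) H - 1| ≤ δ := by
  have hall : ∀ᵐ l : Fin (r + 1) → ℝ, ∀ k : ℕ, (∀ j, l j ∈ Set.Icc (1 / ((k : ℝ) + 10)) ((k : ℝ) + 10)) →
      ∀ᶠ x : ℝ in atTop, ∃ j, ∀ H : ℝ, x ^ θ ≤ H → H ≤ x → |density (l j * x) H - 1| ≤ 10 * (1 / ((k : ℝ) + 10)) := by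
    rw [ae_all_iff]
    intro k
    have hk : (0 : ℝ) ≤ k := Nat.cast_nonneg k
    have h10 : 1 / ((k : ℝ) + 10) ≤ 1 / 10 := by
      apply one_div_le_one_div_of_le (by norm_num)
      linarith
    exact tup_one hθ0 hθ1 hμ hη hv hr (by positivity) (by linarith) (by positivity) h10
  filter_upwards [hall] with l hl hpos δ hδ
  obtain ⟨k, hk⟩ : ∃ k : ℕ, 10 / δ ≤ k ∧ ∀ j, 1 / l j ≤ k ∧ l j ≤ k := by
    obtain ⟨k, hk⟩ := exists_nat_ge (10 / δ + ∑ j, (1 / l j + l j))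
    have h1 : 0 ≤ 10 / δ := by positivity
    have hterm : ∀ j, 0 ≤ 1 / l j + l j := fun j => by
      have := hpos j
      positivity
    refine ⟨k, ?_, ?_⟩
    · have : 0 ≤ ∑ j, (1 / l j + l j) := Finset.sum_nonneg fun j _ => hterm j
      linarith
    · intro j
      have h2 : 1 / l j + l j ≤ ∑ j, (1 / l j + l j) := Finset.single_le_sum (fun j _ => hterm j) (Finset.mem_univ j)
      have h3 := hpos j
      have h4 : 0 < 1 / l j := by positivity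
      constructor <;> linarith
  have hin : ∀ j, l j ∈ Set.Icc (1 / ((k : ℝ) + 10)) ((k : ℝ) + 10) := by
    intro j
    obtain ⟨h1, h2⟩ := hk.2 j
    have h3 := hpos j
    have hk0 : (0 : ℝ) ≤ k := Nat.cast_nonneg k
    constructor
    · rw [div_le_iff₀ (by positivity)]
      rw [div_le_iff₀ h3] at h1
      nlinarith
    · linarith
  filter_upwards [hl k hin] with x hx
  obtain ⟨j, hj⟩ := hx
  refine ⟨j, fun H hH1 hH2 => (hj H hH1 hH2).trans ?_⟩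
  have hk0 : (0 : ℝ) ≤ k := Nat.cast_nonneg k
  have h1 := hk.1
  rw [mul_one_div, div_le_iff₀ (by positivity)]
  rw [div_le_iff₀ hδ] at h1
  nlinarith

end Pool.Agent.U26Z.DX
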