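import Pool.Agent.U26Z.DX.Sx
import Pool.Agent.U26Z.DX.Prime

/-!
# The measure of the bad dilations
-/

set_option autoImplicit false

namespace Pool.Agent.U26Z.DX

open Finset Filter Topology MeasureTheory Pool.Agent.Q240.KS
open scoped NNReal ENNReal

/-- the bad dilations in `[a, b]` -/
def Bd (a b ε x H : ℝ) : Set ℝ := {t : ℝ | t ∈ Set.Icc a b ∧ 5 * ε < |density (t * x) H - 1|}

theorem exp_lip {v w B : ℝ} (hv : v ≤ B) (hw : w ≤ B) : |Real.exp v - Real.exp w| ≤ Real.exp B * |v - w| := by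
  have key : ∀ v w : ℝ, v ≤ B → w ≤ v → |Real.exp v - Real.exp w| ≤ Real.exp B * |v - w| := by
    intro v w hv hwv
    rw [abs_of_nonneg (sub_nonneg.2 (Real.exp_le_exp.2 hwv)), abs_of_nonneg (sub_nonneg.2 hwv)]
    have h1 : Real.exp w = Real.exp v * Real.exp (w - v) := by rw [← Real.exp_add]; congr 1; ring
    have h2 := Real.add_one_le_exp (w - v)
    have h3 := Real.exp_pos v
    calc Real.exp v - Real.exp w = Real.exp v * (1 - Real.exp (w - v)) := by rw [h1]; ring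
      _ ≤ Real.exp v * (v - w) := mul_le_mul_of_nonneg_left (by linarith) h3.le
      _ ≤ Real.exp B * (v - w) := mul_le_mul_of_nonneg_right (Real.exp_le_exp.2 hv) (sub_nonneg.2 hwv)
  rcases le_total w v with h | h
  · exact key v w hv h
  · rw [abs_sub_comm, abs_sub_comm v w]
    exact key w v hw h

theorem vol_log {a b x : ℝ} (ha : 0 < a) (hab : a ≤ b) (hx : 0 < x) (V : Set ℝ) :
    volume {t : ℝ | t ∈ Set.Icc a b ∧ Real.log (t * x) ∈ V} ≤ ENNReal.ofReal b * volume V := by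
  have hb : 0 < b := ha.trans_le hab
  have hsub : {t : ℝ | t ∈ Set.Icc a b ∧ Real.log (t * x) ∈ V} ⊆
      (fun v => Real.exp v / x) '' (V ∩ Set.Iic (Real.log (b * x))) := by
    rintro t ⟨ht, hV⟩
    have ht0 : 0 < t := ha.trans_le ht.1
    refine ⟨Real.log (t * x), ⟨hV, Real.log_le_log (by positivity) (by gcongr; exact ht.2)⟩, ?_⟩
    simp only
    rw [Real.exp_log (by positivity)]
    field_simp
  have hlip : LipschitzOnWith (Real.toNNReal b) (fun v => Real.exp v / x) (V ∩ Set.Iic (Real.log (b * x))) := by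
    apply LipschitzOnWith.of_dist_le_mul
    intro v hv w hw
    rw [Real.dist_eq, Real.dist_eq, ← sub_div, abs_div, abs_of_pos hx, Real.coe_toNNReal b hb.le]
    have h1 := exp_lip hv.2 hw.2
    rw [Real.exp_log (by positivity)] at h1
    rw [div_le_iff₀ hx]
    calc |Real.exp v - Real.exp w| ≤ b * x * |v - w| := h1
      _ = _ := by ring
  calc volume {t : ℝ | t ∈ Set.Icc a b ∧ Real.log (t * x) ∈ V}
      ≤ volume ((fun v => Real.exp v / x) '' (V ∩ Set.Iic (Real.log (b * x)))) := measure_mono hsub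
    _ = Measure.hausdorffMeasure 1 ((fun v => Real.exp v / x) '' (V ∩ Set.Iic (Real.log (b * x)))) := by
        rw [hausdorffMeasure_real]
    _ ≤ ((Real.toNNReal b : ℝ≥0) : ℝ≥0∞) ^ (1 : ℝ) * Measure.hausdorffMeasure 1 (V ∩ Set.Iic (Real.log (b * x))) :=
        hlip.hausdorffMeasure_image_le zero_le_one
    _ ≤ ENNReal.ofReal b * volume V := by
        rw [hausdorffMeasure_real, ENNReal.rpow_one]
        show ENNReal.ofReal b * _ ≤ _
        gcongr
        exact Set.inter_subset_left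

theorem ev_const (C : ℝ) {κ : ℝ} (hκ : 0 < κ) : ∀ᶠ x : ℝ in atTop, C ≤ x ^ κ :=
  (tendsto_rpow_atTop hκ).eventually_ge_atTop C

theorem vol_bad {lam0 μ : ℝ} (hFG : FG lam0 μ) (hl0 : 0 ≤ lam0) (hl : lam0 ≤ 0.833) (hμ : 0 ≤ μ) :
    ∃ η : ℝ, 0 < η ∧ η ≤ 1 / 1000 ∧ ∀ ε a b : ℝ, 0 < ε → ε ≤ 1 / 10 → 0 < a → a ≤ b → ∀ᶠ x : ℝ in atTop, ∀ H : ℝ,
      x ^ (1 - lam0) / 10 ≤ H → H ≤ x ^ (0.65 : ℝ) → volume (Bd a b ε x H) ≤ ENNReal.ofReal (x ^ (-(μ + η))) := by
  obtain ⟨η₁, Y₀, hη₁, hη₁1, hsl⟩ := sl_exc hFG hl0 hl 1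
  refine ⟨η₁ / 2, by positivity, by linarith, ?_⟩
  intro ε a b hε hε1 ha hab
  have hb : 0 < b := ha.trans_le hab
  obtain ⟨N₁, hN₁⟩ := exists_nat_ge ((|Real.log a| + |Real.log b|) / 0.8 + 1)
  obtain ⟨N₂, hN₂⟩ := pow_unbounded_of_one_lt (max (1 / a) (2 * b)) (show (1 : ℝ) < 1 + ε by linarith)
  obtain ⟨N, hN⟩ : ∃ N : ℕ, N = N₁ + N₂ + 1 := ⟨_, rfl⟩
  obtain ⟨y₀, hy₀⟩ := eventually_atTop.1 (dens_of hε hε1)
  have hp1 : 1 < 1 + ε := by linarith
  have hp0 : 0 < 1 + ε := by linarith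
  filter_upwards [Real.tendsto_log_atTop.eventually_ge_atTop (max (max Y₀ (1 / ε)) 1 + 0.8 * N),
    eventually_ge_atTop (y₀ / a), eventually_ge_atTop (1 : ℝ),
    ev_const (10 * b ^ (0.1 : ℝ)) (show (0 : ℝ) < 0.067 by norm_num),
    ev_const (1 / (ε * a)) (show (0 : ℝ) < 0.35 by norm_num),
    ev_const (10 * (1 + ε) ^ N * Real.exp ((lam0 + η₁) * (0.8 * N))) hη₁,
    ev_const ((1 + ε) ^ N * Real.exp (0.8 * N / 40)) (show (0 : ℝ) < 0.325 by norm_num),
    ev_const ((2 * N + 1) ^ 2 * (b * Real.exp ((μ + η₁) * (0.8 * N)))) (show 0 < η₁ / 2 by positivity)]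
    with x hx1 hx2 hx3 hx4 hx5 hx6 hx7 hx8
  intro H hH1 hH2
  have hx0 : 0 < x := by linarith
  obtain ⟨L, hL⟩ : ∃ L, L = Real.log x := ⟨_, rfl⟩
  rw [← hL] at hx1
  have hxpow : ∀ s : ℝ, x ^ s = Real.exp (s * L) := fun s => by
    rw [Real.rpow_def_of_pos hx0, ← hL, mul_comm]
  have hHlo : x ^ (0.167 : ℝ) / 10 ≤ H := by
    refine le_trans ?_ hH1
    gcongr
    linarith
  have hH0 : 0 < H := lt_of_lt_of_le (by positivity) hHlo
  obtain ⟨Yc, hYc⟩ : ∃ Yc : ℤ → ℝ, Yc = fun i : ℤ => L + 0.8 * (i : ℝ) := ⟨_, rfl⟩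
  obtain ⟨g, hg⟩ : ∃ g : ℤ → ℝ, g = fun l => H / x * (1 + ε) ^ l := ⟨_, rfl⟩
  have hYlo : ∀ i : ℤ, i ∈ Icc (-(N : ℤ)) N → L - 0.8 * N ≤ Yc i := by
    intro i hi
    rw [mem_Icc] at hi
    have : -(N : ℝ) ≤ i := by exact_mod_cast hi.1
    rw [hYc]
    simp only
    linarith
  have hYhi : ∀ i : ℤ, i ∈ Icc (-(N : ℤ)) N → Yc i ≤ L + 0.8 * N := by
    intro i hi
    rw [mem_Icc] at hi
    have : (i : ℝ) ≤ N := by exact_mod_cast hi.2
    rw [hYc]
    simp only
    linarith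
  have hglo : ∀ l : ℤ, l ∈ Icc (-(N : ℤ)) N → H / x * ((1 + ε) ^ N)⁻¹ ≤ g l := by
    intro l hl
    rw [mem_Icc] at hl
    rw [hg]
    simp only
    have h1 : ((1 + ε) ^ N)⁻¹ = (1 + ε) ^ (-(N : ℤ)) := by rw [zpow_neg, zpow_natCast]
    rw [h1]
    exact mul_le_mul_of_nonneg_left (zpow_le_zpow_right₀ hp1.le hl.1) (by positivity)
  have hghi : ∀ l : ℤ, l ∈ Icc (-(N : ℤ)) N → g l ≤ H / x * (1 + ε) ^ N := by
    intro l hl
    rw [mem_Icc] at hl
    rw [hg]
    simp only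
    have h1 : (1 + ε) ^ N = (1 + ε) ^ (N : ℤ) := by rw [zpow_natCast]
    rw [h1]
    exact mul_le_mul_of_nonneg_left (zpow_le_zpow_right₀ hp1.le hl.2) (by positivity)
  have hg0 : ∀ l : ℤ, 0 < g l := by
    intro l
    rw [hg]
    positivity
  -- the conditions of `sl_exc`
  have hYY : ∀ i : ℤ, i ∈ Icc (-(N : ℤ)) N → Y₀ ≤ Yc i ∧ 1 / ε ≤ Yc i ∧ 1 ≤ Yc i := by
    intro i hi
    have h1 := hYlo i hi
    have h2 := le_max_left (max Y₀ (1 / ε)) 1
    have h3 := le_max_right (max Y₀ (1 / ε)) 1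
    have h4 := le_max_left Y₀ (1 / ε)
    have h5 := le_max_right Y₀ (1 / ε)
    exact ⟨by linarith, by linarith, by linarith⟩
  have hvol : ∀ p ∈ (Icc (-(N : ℤ)) N) ×ˢ (Icc (-(N : ℤ)) N),
      volume {v : ℝ | |v - Yc p.1| ≤ 0.4 ∧ g p.2 / Yc p.1 ^ 1 < |SL v (g p.2) - g p.2|} ≤
        ENNReal.ofReal (Real.exp (-((μ + η₁) * (L - 0.8 * N)))) := by
    intro p hp
    rw [mem_product] at hp
    obtain ⟨hp1', hp2'⟩ := hp
    obtain ⟨q1, q2, q3⟩ := hYY p.1 hp1'
    refine (hsl (Yc p.1) q1 (g p.2) ?_ ?_).trans ?_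
    · refine le_trans ?_ (hglo p.2 hp2')
      have h1 := hYlo p.1 hp1'
      have h2 : Real.exp (-((lam0 + η₁) * Yc p.1)) ≤ Real.exp (-((lam0 + η₁) * (L - 0.8 * N))) := by
        apply Real.exp_le_exp.2
        apply neg_le_neg
        exact mul_le_mul_of_nonneg_left h1 (by linarith)
      refine h2.trans ?_
      have h3 : x ^ (-lam0) / 10 ≤ H / x := by
        rw [le_div_iff₀ hx0]
        calc x ^ (-lam0) / 10 * x = x ^ (-lam0) * x ^ (1 : ℝ) / 10 := by rw [Real.rpow_one]; ring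
          _ = x ^ (1 - lam0) / 10 := by rw [← Real.rpow_add hx0]; congr 2; ring
          _ ≤ H := hH1
      have h4 : Real.exp (-((lam0 + η₁) * (L - 0.8 * N))) = x ^ (-lam0) * x ^ (-η₁) * Real.exp ((lam0 + η₁) * (0.8 * N)) := by
        rw [hxpow, hxpow, ← Real.exp_add, ← Real.exp_add]
        congr 1
        ring
      have h5 : x ^ (-η₁) * Real.exp ((lam0 + η₁) * (0.8 * N)) ≤ ((1 + ε) ^ N)⁻¹ / 10 := by
        rw [Real.rpow_neg hx0.le, inv_mul_eq_div, div_le_iff₀ (by positivity)]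
        have h6 : 0 < (1 + ε) ^ N := by positivity
        calc Real.exp ((lam0 + η₁) * (0.8 * N)) = ((1 + ε) ^ N)⁻¹ / 10 *
              (10 * (1 + ε) ^ N * Real.exp ((lam0 + η₁) * (0.8 * N))) := by field_simp
          _ ≤ _ := by gcongr
      rw [h4]
      calc x ^ (-lam0) * x ^ (-η₁) * Real.exp ((lam0 + η₁) * (0.8 * N)) =
            x ^ (-lam0) * (x ^ (-η₁) * Real.exp ((lam0 + η₁) * (0.8 * N))) := by ring
        _ ≤ x ^ (-lam0) * (((1 + ε) ^ N)⁻¹ / 10) := by gcongr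
        _ = x ^ (-lam0) / 10 * ((1 + ε) ^ N)⁻¹ := by ring
        _ ≤ _ := by gcongr
    · refine (hghi p.2 hp2').trans ?_
      have h1 := hYhi p.1 hp1'
      have h2 : Real.exp (-((L + 0.8 * N) / 40)) ≤ Real.exp (-(Yc p.1 / 40)) := by
        apply Real.exp_le_exp.2
        linarith
      refine le_trans ?_ h2
      have h3 : H / x ≤ x ^ (-0.35 : ℝ) := by
        rw [div_le_iff₀ hx0]
        calc H ≤ x ^ (0.65 : ℝ) := hH2
          _ = x ^ (-0.35 : ℝ) * x ^ (1 : ℝ) := by rw [← Real.rpow_add hx0]; norm_num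
          _ = _ := by rw [Real.rpow_one]
      have h4 : Real.exp (-((L + 0.8 * N) / 40)) = x ^ (-0.35 : ℝ) * (x ^ (0.325 : ℝ) / Real.exp (0.8 * N / 40)) := by
        rw [hxpow, hxpow, ← Real.exp_sub, ← Real.exp_add]
        congr 1
        ring
      rw [h4]
      have h5 : (1 + ε) ^ N ≤ x ^ (0.325 : ℝ) / Real.exp (0.8 * N / 40) := by
        rw [le_div_iff₀ (Real.exp_pos _)]
        exact hx7
      calc H / x * (1 + ε) ^ N ≤ x ^ (-0.35 : ℝ) * (1 + ε) ^ N := by gcongr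
        _ ≤ _ := by gcongr
    · apply ENNReal.ofReal_le_ofReal
      apply Real.exp_le_exp.2
      apply neg_le_neg
      exact mul_le_mul_of_nonneg_left (hYlo p.1 hp1') (by linarith)
  -- the covering
  have hsub : Bd a b ε x H ⊆ ⋃ p ∈ (Icc (-(N : ℤ)) N) ×ˢ (Icc (-(N : ℤ)) N),
      {t : ℝ | t ∈ Set.Icc a b ∧ Real.log (t * x) ∈
        {v : ℝ | |v - Yc p.1| ≤ 0.4 ∧ g p.2 / Yc p.1 ^ 1 < |SL v (g p.2) - g p.2|}} := by
    rintro t ⟨ht, htb⟩
    have ht0 : 0 < t := ha.trans_le ht.1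
    obtain ⟨y, hy⟩ : ∃ y, y = t * x := ⟨_, rfl⟩
    have hy0 : 0 < y := by rw [hy]; positivity
    have hya : a * x ≤ y := by rw [hy]; gcongr; exact ht.1
    have hyb : y ≤ b * x := by rw [hy]; gcongr; exact ht.2
    -- the centre
    obtain ⟨z, hz⟩ : ∃ z, z = (Real.log y - L) / 0.8 := ⟨_, rfl⟩
    have hz1 : |z| ≤ (|Real.log a| + |Real.log b|) / 0.8 := by
      rw [hz, abs_div, abs_of_pos (show (0 : ℝ) < 0.8 by norm_num)]
      gcongr
      rw [hy, Real.log_mul ht0.ne' hx0.ne', ← hL, add_sub_cancel_right]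
      have h1 := Real.log_le_log ha ht.1
      have h2 := Real.log_le_log ht0 ht.2
      rw [abs_le]
      constructor
      · linarith [neg_abs_le (Real.log a), abs_nonneg (Real.log b)]
      · linarith [le_abs_self (Real.log b), abs_nonneg (Real.log a)]
    have hz2 := abs_sub_round z
    have hi : round z ∈ Icc (-(N : ℤ)) N := by
      have hNN : (N₁ : ℝ) ≤ N := by rw [hN]; push_cast; linarith [(Nat.cast_nonneg N₂ : (0 : ℝ) ≤ N₂)]
      have h1 := abs_le.1 hz1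
      have h2 := abs_le.1 hz2
      rw [mem_Icc]
      constructor
      · have : -(N : ℝ) ≤ (round z : ℝ) := by linarith
        exact_mod_cast this
      · have : (round z : ℝ) ≤ (N : ℝ) := by linarith
        exact_mod_cast this
    have hic : |Real.log y - Yc (round z)| ≤ 0.4 := by
      have e : Real.log y - Yc (round z) = 0.8 * (z - round z) := by
        rw [hYc, hz]
        simp only
        ring
      rw [e, abs_mul, abs_of_pos (show (0 : ℝ) < 0.8 by norm_num)]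
      linarith
    obtain ⟨i, hieq⟩ : ∃ i, i = round z := ⟨_, rfl⟩
    rw [← hieq] at hi hic
    -- the length
    obtain ⟨T, hT⟩ : ∃ T, T = Real.log (1 + H / y) := ⟨_, rfl⟩
    obtain ⟨τ, hτ⟩ : ∃ τ, τ = H / y := ⟨_, rfl⟩
    have hτ0 : 0 < τ := by rw [hτ]; positivity
    have hεax : H ≤ ε * (a * x) := by
      calc H ≤ x ^ (0.65 : ℝ) := hH2
        _ = ε * a * (1 / (ε * a)) * x ^ (0.65 : ℝ) := by field_simp
        _ ≤ ε * a * x ^ (0.35 : ℝ) * x ^ (0.65 : ℝ) := by gcongr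
        _ = ε * a * x ^ (1 : ℝ) := by rw [mul_assoc, ← Real.rpow_add hx0]; norm_num
        _ = _ := by rw [Real.rpow_one]; ring
    have hHy : H ≤ ε * y := hεax.trans (by gcongr)
    have hτ1 : τ ≤ 1 := by
      rw [hτ, div_le_one hy0]
      nlinarith
    rw [← hτ] at hT
    have hT1 : T ≤ τ := by
      rw [hT]
      have := Real.log_le_sub_one_of_pos (show 0 < 1 + τ by linarith)
      linarith
    have hT2 : τ / 2 ≤ T := by
      rw [hT]
      have h1 := Real.one_sub_inv_le_log_of_pos (show 0 < 1 + τ by linarith)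
      have e : 1 - (1 + τ)⁻¹ = τ / (1 + τ) := by field_simp; ring
      rw [e] at h1
      refine le_trans ?_ h1
      gcongr
      linarith
    have hT0 : 0 < T := lt_of_lt_of_le (by positivity) hT2
    have hquo : 0 < T / (H / x) := by positivity
    obtain ⟨l, hl1, hl2⟩ := exists_mem_Ico_zpow hquo hp1
    have hg1 : g l ≤ T := by
      rw [hg]
      simp only
      rw [mul_comm, ← le_div_iff₀ (by positivity)]
      exact hl1
    have hgs : g (l + 1) = (1 + ε) * g l := by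
      rw [hg]
      simp only
      rw [zpow_add₀ hp0.ne', zpow_one]
      ring
    have hg2 : T ≤ g (l + 1) := by
      rw [hg]
      simp only
      rw [mul_comm, ← div_le_iff₀ (by positivity)]
      exact hl2.le
    -- the range of `l`
    have hN₂a : 1 / a ≤ (1 + ε) ^ N₂ := (le_max_left _ _).trans hN₂.le
    have hN₂b : 2 * b ≤ (1 + ε) ^ N₂ := (le_max_right _ _).trans hN₂.le
    have hlhi : l ≤ N₂ := by
      have h1 : (1 + ε) ^ l ≤ (1 + ε) ^ (N₂ : ℤ) := by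
        have h4 : T / (H / x) ≤ 1 / a := by
          rw [div_le_div_iff₀ (by positivity) ha]
          have h2 : T * a ≤ τ * a := by gcongr
          have h3 : τ * a ≤ H / x := by
            rw [hτ, div_mul_eq_mul_div, div_le_div_iff₀ hy0 hx0]
            nlinarith
          linarith
        rw [zpow_natCast]
        exact hl1.trans (h4.trans hN₂a)
      exact (zpow_le_zpow_iff_right₀ hp1).1 h1
    have hllo : -(N₂ : ℤ) ≤ l := by
      have h1 : (1 + ε) ^ (-(N₂ : ℤ)) < (1 + ε) ^ (l + 1) := by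
        refine lt_of_le_of_lt ?_ hl2
        rw [zpow_neg, zpow_natCast]
        have h2 : ((1 + ε) ^ N₂)⁻¹ ≤ (2 * b)⁻¹ := by
          apply inv_anti₀ (by positivity) hN₂b
        refine h2.trans ?_
        rw [inv_eq_one_div, div_le_div_iff₀ (by positivity) (by positivity)]
        have h3 : H / x ≤ τ * b := by
          rw [hτ, div_mul_eq_mul_div, div_le_div_iff₀ hx0 hy0]
          nlinarith
        nlinarith
      have := (zpow_lt_zpow_iff_right₀ hp1).1 h1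
      omega
    have hlm : l ∈ Icc (-(N : ℤ)) N := by
      rw [mem_Icc, hN]
      push_cast
      omega
    have hlm' : l + 1 ∈ Icc (-(N : ℤ)) N := by
      rw [mem_Icc, hN]
      push_cast
      omega
    by_contra hcon
    simp only [Set.mem_iUnion, not_exists] at hcon
    have hno : ∀ l' : ℤ, l' ∈ Icc (-(N : ℤ)) N → |SL (Real.log y) (g l') - g l'| ≤ ε * g l' := by
      intro l' hl'
      have h1 := hcon (i, l') (mem_product.2 ⟨hi, hl'⟩)
      simp only [Set.mem_setOf_eq, not_and, not_lt] at h1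
      rw [← hy] at h1
      have h2 := h1 ht hic
      refine h2.trans ?_
      obtain ⟨_, q2, q3⟩ := hYY i hi
      rw [pow_one, div_le_iff₀ (by linarith)]
      have h3 : 1 ≤ ε * Yc i := by
        rw [div_le_iff₀ hε] at q2
        linarith
      calc g l' = g l' * 1 := (mul_one _).symm
        _ ≤ g l' * (ε * Yc i) := mul_le_mul_of_nonneg_left h3 (hg0 l').le
        _ = _ := by ring
    have hyy : y₀ ≤ y := by
      refine le_trans ?_ hya
      rw [div_le_iff₀ ha] at hx2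
      linarith
    have hlen : y ^ (0.1 : ℝ) ≤ H := by
      refine le_trans ?_ hHlo
      calc y ^ (0.1 : ℝ) ≤ (b * x) ^ (0.1 : ℝ) := Real.rpow_le_rpow hy0.le hyb (by norm_num)
        _ = b ^ (0.1 : ℝ) * x ^ (0.1 : ℝ) := Real.mul_rpow hb.le hx0.le
        _ ≤ (x ^ (0.067 : ℝ) / 10) * x ^ (0.1 : ℝ) := by
            gcongr
            rw [le_div_iff₀ (by norm_num)]
            linarith
        _ = x ^ (0.067 : ℝ) * x ^ (0.1 : ℝ) / 10 := by ring
        _ = x ^ (0.167 : ℝ) / 10 := by rw [← Real.rpow_add hx0]; norm_num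
    have hfin := hy₀ y hyy H hlen hHy (g l) (g (l + 1)) (by rw [← hτ, ← hT]; exact hg1)
      (by rw [← hτ, ← hT, ← hgs]; exact hg2) (by rw [← hτ, ← hT]; exact hg2)
      (by rw [← hτ, ← hT, hgs]; exact mul_le_mul_of_nonneg_left hg1 hp0.le) (hno l hlm) (hno (l + 1) hlm')
    rw [← hy] at htb
    linarith
  -- the sum
  refine (measure_mono hsub).trans ((measure_biUnion_finset_le _ _).trans ?_)
  have hterm : ∀ p ∈ (Icc (-(N : ℤ)) N) ×ˢ (Icc (-(N : ℤ)) N),
      volume {t : ℝ | t ∈ Set.Icc a b ∧ Real.log (t * x) ∈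
        {v : ℝ | |v - Yc p.1| ≤ 0.4 ∧ g p.2 / Yc p.1 ^ 1 < |SL v (g p.2) - g p.2|}} ≤
      ENNReal.ofReal (b * Real.exp (-((μ + η₁) * (L - 0.8 * N)))) := by
    intro p hp
    refine (vol_log ha hab hx0 _).trans ?_
    rw [ENNReal.ofReal_mul hb.le]
    gcongr
    exact hvol p hp
  refine (Finset.sum_le_card_nsmul _ _ _ hterm).trans ?_
  rw [card_product, Int.card_Icc]
  have hcard : ((N : ℤ) + 1 - (-(N : ℤ))).toNat = 2 * N + 1 := by omega
  rw [hcard, ← ENNReal.ofReal_nsmul]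
  apply ENNReal.ofReal_le_ofReal
  rw [nsmul_eq_mul]
  push_cast
  have h4 : Real.exp (-((μ + η₁) * (L - 0.8 * N))) = x ^ (-(μ + η₁ / 2)) * (x ^ (η₁ / 2))⁻¹ * Real.exp ((μ + η₁) * (0.8 * N)) := by
    rw [hxpow, hxpow, ← Real.exp_neg, ← Real.exp_add, ← Real.exp_add]
    congr 1
    ring
  rw [h4]
  have h5 : 0 < x ^ (η₁ / 2) := by positivity
  calc (2 * (N : ℝ) + 1) * (2 * N + 1) * (b * (x ^ (-(μ + η₁ / 2)) * (x ^ (η₁ / 2))⁻¹ * Real.exp ((μ + η₁) * (0.8 * N))))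
      = ((2 * N + 1) ^ 2 * (b * Real.exp ((μ + η₁) * (0.8 * N)))) * (x ^ (η₁ / 2))⁻¹ * x ^ (-(μ + η₁ / 2)) := by ring
    _ ≤ x ^ (η₁ / 2) * (x ^ (η₁ / 2))⁻¹ * x ^ (-(μ + η₁ / 2)) := by gcongr
    _ = x ^ (-(μ + η₁ / 2)) := by rw [mul_inv_cancel₀ h5.ne', one_mul]

end Pool.Agent.U26Z.DX
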