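import Pool.Agent.Q278.KT.Fin

/-!
# The number of frequencies with given sizes of the factors: exponents

`FG lam0 μ`: at the frequencies up to `e ^ (lam0 Y)` either the pointwise bound or the mean square with the saving `e ^ (- μ Y)` works.
-/

set_option autoImplicit false

namespace Pool.Agent.U26Z.DX

open Finset Pool.Agent.H376R2.MR Pool.Agent.Q240.KS Pool.Agent.Q278.KT

/-- few frequencies with given sizes of the factors -/
def FG (lam0 μ : ℝ) : Prop := ∀ ε₃ ε₀ : ℝ, 0 < ε₃ → 0 < ε₀ → ε₀ ≤ 1 / 100 → ∃ ε' η Y₀ : ℝ, 0 < ε' ∧ ε' ≤ ε₀ ∧ 0 < η ∧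
  ∀ Y : ℝ, Y₀ ≤ Y → ∀ d ∈ DY Y, ∀ T₁ : ℝ, Real.exp (ε₃ * Y) ≤ T₁ → T₁ ≤ Real.exp ((lam0 + η) * Y) →
  ∀ L : Finset ℤ, L.Nonempty → (∀ k ∈ L, T₁ ≤ |(k : ℝ)| ∧ |(k : ℝ)| < 2 * T₁) → ∀ κ : Fin 10 → ℝ, (∀ i, 0 ≤ κ i) →
  ε₀ ≤ ∑ i, κ i → (∀ k ∈ L, ∀ i, Real.exp (-((κ i + ε') * Y)) ≤ ‖PF (zY Y) (ty i) (d i) k‖) →
  (L.card : ℝ) ≤ Real.exp ((max (∑ i, κ i) (2 * ∑ i, κ i - μ) - η) * Y)

theorem no_mult {b c R : ℝ} (h1 : 0.6662 ≤ b) (h2 : b ≤ 0.9998) (hc : 0 < c) (hR : 1.9998 * c ≤ R)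
    (h : R ≤ max (2 * b * c) (min (0.833 - b + 2 * b * c) (0.833 - 2 * b + 6 * b * c))) : False := by
  rcases le_max_iff.1 h with h3 | h3
  · nlinarith
  · obtain ⟨h4, h5⟩ := le_min_iff.1 h3
    have e1 : c * (1.9998 - 2 * b) ≤ 0.833 - b := by linarith
    have e2 : 2 * b - 0.833 ≤ c * (6 * b - 1.9998) := by linarith
    have f1 : 0 < 1.9998 - 2 * b := by linarith
    have f2 : 0 < 6 * b - 1.9998 := by linarith
    have e3 : (2 * b - 0.833) * (1.9998 - 2 * b) ≤ c * (6 * b - 1.9998) * (1.9998 - 2 * b) :=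
      mul_le_mul_of_nonneg_right e2 f1.le
    have e4 : c * (1.9998 - 2 * b) * (6 * b - 1.9998) ≤ (0.833 - b) * (6 * b - 1.9998) :=
      mul_le_mul_of_nonneg_right e1 f2.le
    nlinarith

theorem optx : OPTX 0.833 0.833 := by
  intro al ka lam R hC hpos
  have hone : ∑ i, al i = 1 := by
    have h := abs_le.1 hC.one
    linarith [h.1, h.2]
  obtain ⟨i, hi1, hi2⟩ := t_MINF al ka hC.nn hone
  by_contra hcon
  have hR : 2 * ∑ i, ka i ≤ R := by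
    by_contra h
    push Not at h
    exact hcon ⟨R - 2 * ∑ i, ka i, by linarith, Or.inr (Or.inl (by linarith))⟩
  obtain ⟨κ, hκ⟩ : ∃ κ, κ = ∑ i, ka i := ⟨_, rfl⟩
  rw [← hκ] at hR hi2 hpos
  obtain ⟨c, hc⟩ : ∃ c : ℝ, c = κ / 0.9999 := ⟨_, rfl⟩
  have hc1 : 0.9999 * c = κ := by rw [hc]; field_simp
  have hc0 : 0 < c := by rw [hc]; positivity
  have hRc : 1.9998 * c ≤ R := by linarith
  have hka : ka i ≤ c * al i := by
    rw [← hc1] at hi2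
    nlinarith
  have hlam : lam ≤ 0.833 := by linarith [hC.la.2]
  have hRl : R ≤ lam := by linarith [hC.R0.2]
  have hm : ∀ m : ℕ, 1 ≤ m → m ≤ 100000 → 0.6662 ≤ (m : ℝ) * al i → (m : ℝ) * al i ≤ 0.9998 → False := by
    intro m h1 h2 h3 h4
    exact no_mult h3 h4 hc0 hRc (t_LVC 0.833 al ka lam R c i m hC hi1 hka h1 h2)
  rcases le_or_gt (al i) 0.3336 with h1 | h1
  · obtain ⟨m, h2, h3, h4, h5⟩ := t_MUL (al i) 0.6662 0.9998 hi1 (by norm_num) (by linarith) (by norm_num)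
    exact hm m h2 h3 h4 h5
  rcases le_or_gt (al i) 0.4999 with h2 | h2
  · exact hm 2 (by norm_num) (by norm_num) (by push_cast; linarith) (by push_cast; linarith)
  have h5 : 5 ≤ (i : ℕ) := by
    by_contra h
    push Not at h
    have := hC.mob i h
    linarith
  obtain ⟨s1, s2, s3, s4⟩ := hC.smo i h5
  have hc2 : 1.9998 * c ≤ 0.833 := by linarith
  rcases le_or_gt (4 * al i) 1.9998 with h6 | h6
  · nlinarith
  · nlinarith

theorem opts : OPTS 0.833 0.833 :=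
  Pool.Agent.Q208.KT.t_CPT _ _ (by norm_num) (by norm_num) optx

theorem fg_wide : FG 0.833 0 := by
  intro ε₃ ε₀ h1 h2 h3
  obtain ⟨ε', η, Y₀, a1, a2, a3, H⟩ := far2_all 0.833 0.833 (by norm_num) (by norm_num) opts ε₃ ε₀ h1 h2 h3
  refine ⟨ε', η, max Y₀ 0, a1, a2, a3, fun Y hY d hd T₁ hT1 hT2 L hL hL2 κ hκ hκ2 hPF => ?_⟩
  have hY0 : 0 ≤ Y := (le_max_right _ _).trans hY
  obtain ⟨R, hR, hAlt⟩ := H Y ((le_max_left _ _).trans hY) d hd T₁ hT1 hT2 L hL hL2 κ hκ hκ2 hPF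
  refine hR.trans (Real.exp_le_exp.2 (mul_le_mul_of_nonneg_right ?_ hY0))
  have m1 := le_max_left (∑ i, κ i) (2 * ∑ i, κ i - 0)
  have m2 := le_max_right (∑ i, κ i) (2 * ∑ i, κ i - 0)
  rcases hAlt with h | h | ⟨S, hS, _, _⟩
  · linarith
  · linarith
  · unfold gg at hS
    have : 0 ≤ ∑ i ∈ S, κ i := Finset.sum_nonneg fun i _ => hκ i
    linarith

end Pool.Agent.U26Z.DX
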