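import Pool.Agent.U26Z.DX.Opt
import Pool.Agent.Q278.KS.Far

/-!
# The exponents for the frequencies up to `e ^ (Y / 2)`: the saving `1 / 8`
-/

set_option autoImplicit false

namespace Pool.Agent.U26Z.DX

open Finset Pool.Agent.H376R2.MR Pool.Agent.Q240.KS Pool.Agent.Q278.KT

/-- one multiple in `[0.31, 0.49]` -/
theorem opt_mult {e a q ka lam : ℝ} (he : 0 < e) (he2 : e ≤ 1 / 100000) (hek : e ≤ ka / 1000) (hlam : lam ≤ 1 / 2 + e)
    (hq : 0 ≤ q) (hq2 : q ≤ 1.0065 * ka * a) (ha1 : 0.31 ≤ a) (ha2 : a ≤ 0.49) :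
    max (2 * q) (min (lam - a + 2 * q) (lam - 2 * a + 6 * q)) + e ≤ max ka (2 * ka + 3 / 8 - 1 / 2) := by
  have hka : 0 < ka := by linarith
  have hm1 := le_max_left ka (2 * ka + 3 / 8 - 1 / 2)
  have hm2 := le_max_right ka (2 * ka + 3 / 8 - 1 / 2)
  have hF : 2 * q + e ≤ ka := by
    have : ka * a ≤ ka * 0.49 := mul_le_mul_of_nonneg_left ha2 hka.le
    linarith
  have hmin1 := min_le_left (lam - a + 2 * q) (lam - 2 * a + 6 * q)
  have hmin2 := min_le_right (lam - a + 2 * q) (lam - 2 * a + 6 * q)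
  -- the three conditions
  have cH1 : (6.039 * a - 1) * ka ≤ 2 * a - 0.5 - 2 * e →
      min (lam - a + 2 * q) (lam - 2 * a + 6 * q) + e ≤ max ka (2 * ka + 3 / 8 - 1 / 2) := by
    intro h
    linarith
  have cH2 : (6.039 * a - 2) * ka ≤ 2 * a - 0.625 - 2 * e →
      min (lam - a + 2 * q) (lam - 2 * a + 6 * q) + e ≤ max ka (2 * ka + 3 / 8 - 1 / 2) := by
    intro h
    linarith
  have cM2 : 0.625 - a + 2 * e ≤ (2 - 2.013 * a) * ka →
      min (lam - a + 2 * q) (lam - 2 * a + 6 * q) + e ≤ max ka (2 * ka + 3 / 8 - 1 / 2) := by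
    intro h
    linarith
  have hmain : min (lam - a + 2 * q) (lam - 2 * a + 6 * q) + e ≤ max ka (2 * ka + 3 / 8 - 1 / 2) := by
    rcases le_or_gt a 0.3311 with h1 | h1
    · rcases le_or_gt ka 0.13 with h2 | h2
      · apply cH1
        have : 0 ≤ (0.13 - ka) * (6.039 * a - 1) := mul_nonneg (by linarith) (by linarith)
        linarith
      · apply cH2
        have : 0 ≤ (ka - 0.13) * (2 - 6.039 * a) := mul_nonneg (by linarith) (by linarith)
        linarith
    rcases le_or_gt a 0.38 with h3 | h3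
    · rcases le_or_gt ka 0.16 with h2 | h2
      · apply cH1
        have : 0 ≤ (0.16 - ka) * (6.039 * a - 1) := mul_nonneg (by linarith) (by linarith)
        linarith
      rcases le_or_gt ka 0.25 with h4 | h4
      · apply cH2
        rcases le_or_gt (6.039 * a) 2 with h5 | h5
        · have : 0 ≤ (ka - 0.16) * (2 - 6.039 * a) := mul_nonneg (by linarith) (by linarith)
          linarith
        · have : 0 ≤ (0.25 - ka) * (6.039 * a - 2) := mul_nonneg (by linarith) (by linarith)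
          linarith
      · apply cM2
        have : 0 ≤ (ka - 0.25) * (2 - 2.013 * a) := mul_nonneg (by linarith) (by linarith)
        linarith
    · rcases le_or_gt ka 0.2 with h2 | h2
      · apply cH1
        have : 0 ≤ (0.2 - ka) * (6.039 * a - 1) := mul_nonneg (by linarith) (by linarith)
        linarith
      · apply cM2
        have : 0 ≤ (ka - 0.2) * (2 - 2.013 * a) := mul_nonneg (by linarith) (by linarith)
        linarith
  rcases le_total (2 * q) (min (lam - a + 2 * q) (lam - 2 * a + 6 * q)) with h | h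
  · rw [max_eq_right h]
    exact hmain
  · rw [max_eq_left h]
    linarith

theorem opt1 : S_OPT1 := by
  intro ε₀ h0 h1 al lam ki ka hal hki hki2 hka hlam hlam2 hor
  obtain ⟨e, he⟩ : ∃ e, e = ε₀ / 1000 := ⟨_, rfl⟩
  rw [← he] at hlam2 hor ⊢
  have he0 : 0 < e := by rw [he]; positivity
  have he1 : e ≤ 1 / 100000 := by rw [he]; linarith
  have hek : e ≤ ka / 1000 := by rw [he]; linarith
  have hka0 : 0 < ka := by linarith
  have hA : ∀ m : ℕ, 1 ≤ m → m ≤ 2000 → 0.31 ≤ (m : ℝ) * al → (m : ℝ) * al ≤ 0.49 →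
      lam + e ≤ max ka (2 * ka + 3 / 8 - 1 / 2) ∨ ∃ m : ℕ, 1 ≤ m ∧ m ≤ 2000 ∧
        max (2 * m * ki) (min (lam - m * al + 2 * m * ki) (lam - 2 * m * al + 6 * m * ki)) + e ≤
          max ka (2 * ka + 3 / 8 - 1 / 2) := by
    intro m hm1 hm2 h3 h4
    right
    refine ⟨m, hm1, hm2, ?_⟩
    have hm0 : (0 : ℝ) ≤ m := Nat.cast_nonneg m
    have h5 := opt_mult (q := m * ki) he0 he1 hek hlam2 (by positivity) (by
      calc (m : ℝ) * ki ≤ m * (1.0065 * ka * al) := mul_le_mul_of_nonneg_left hki2 hm0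
        _ = 1.0065 * ka * (m * al) := by ring) h3 h4
    have e1 : 2 * (m : ℝ) * ki = 2 * (m * ki) := by ring
    have e2 : lam - 2 * (m : ℝ) * al + 6 * m * ki = lam - 2 * (m * al) + 6 * (m * ki) := by ring
    rw [e1, e2]
    exact h5
  rcases le_or_gt al 0.18 with c1 | c1
  · obtain ⟨m, hm1, _, hm3, hm4⟩ := t_MUL al 0.31 0.49 (by linarith) (by norm_num) (by linarith) (by norm_num)
    refine hA m hm1 ?_ hm3 hm4
    have : (m : ℝ) ≤ 2000 := by
      by_contra hcon
      push Not at hcon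
      nlinarith
    exact_mod_cast this
  rcases le_or_gt al 0.245 with c2 | c2
  · exact hA 2 (by norm_num) (by norm_num) (by push_cast; linarith) (by push_cast; linarith)
  have hor2 : al - lam / 2 - e ≤ ki ∧ al / 2 - lam / 6 - e ≤ ki ∧ al ≤ lam + e := by
    rcases hor with h | h
    · exfalso; linarith
    · exact h
  obtain ⟨o1, o2, o3⟩ := hor2
  rcases lt_or_ge al 0.31 with c3 | c3
  · right
    refine ⟨2, by norm_num, by norm_num, ?_⟩
    have hm2 := le_max_right ka (2 * ka + 3 / 8 - 1 / 2)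
    have hk : al / 2 - 0.0834 ≤ 1.0065 * ka * al := by linarith
    have hmain : 0.1351 ≤ (2 - 4.026 * al) * ka := by
      have g1 : 0 < 2 - 4.026 * al := by linarith
      have g2 : (2 - 4.026 * al) * (al / 2 - 0.0834) ≤ (2 - 4.026 * al) * (1.0065 * ka * al) :=
        mul_le_mul_of_nonneg_left hk g1.le
      have g3 : 0.1351 * 1.0065 * al ≤ (2 - 4.026 * al) * (al / 2 - 0.0834) := by nlinarith
      have g4 : (0.1351 : ℝ) * (1.0065 * al) ≤ ((2 - 4.026 * al) * ka) * (1.0065 * al) := by linarith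
      exact le_of_mul_le_mul_right g4 (by linarith)
    obtain ⟨u, hu⟩ : ∃ u, u = 2 * 2 * ki := ⟨_, rfl⟩
    obtain ⟨w, hw⟩ : ∃ w, w = min (lam - 2 * al + 2 * 2 * ki) (lam - 2 * 2 * al + 6 * 2 * ki) := ⟨_, rfl⟩
    obtain ⟨z, hz⟩ : ∃ z, z = max ka (2 * ka + 3 / 8 - 1 / 2) := ⟨_, rfl⟩
    have hw1 : w ≤ lam - 2 * al + 2 * 2 * ki := by rw [hw]; exact min_le_left _ _
    rw [← hz] at hm2
    have f0 : lam - 2 * al + 2 * 2 * ki + e ≤ 2 * ka + 3 / 8 - 1 / 2 := by linarith
    have f1 : u + e ≤ z := by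
      rw [hu]
      linarith
    have f2 : w + e ≤ z := by linarith
    push_cast
    rw [← hw, ← hz, ← hu]
    rcases le_total u w with h | h
    · rw [max_eq_right h]; exact f2
    · rw [max_eq_left h]; exact f1
  rcases le_or_gt al 0.49 with c4 | c4
  · exact hA 1 (by norm_num) (by norm_num) (by push_cast; linarith) (by push_cast; linarith)
  · left
    refine le_trans ?_ (le_max_right _ _)
    have g1 : 0.2399 ≤ 1.0065 * ka * al := by linarith
    have g2 : ka * al ≤ ka * 0.50003 := mul_le_mul_of_nonneg_left (by linarith) hka0.le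
    linarith

theorem fg_half : FG (1 / 2) (1 / 8) := by
  have h := Pool.Agent.Q278.KS.far (Pool.Agent.Q298.KS.sb1 Pool.Agent.Q14.KS.smo) Pool.Agent.Q298.KS.sb2
    Pool.Agent.Q298.KS.sb3 Pool.Agent.Q211.KS.lvm
    (Pool.Agent.Q211.KS.lvh (Pool.Agent.Q209.KS.hu Pool.Agent.Q209.KS.hmg (Pool.Agent.Q209.KS.ker Pool.Agent.Q14.KS.smo)))
    (1 / 2) (3 / 8) (by norm_num) (by norm_num) opt1
  intro ε₃ ε₀ h1 h2 h3
  obtain ⟨ε', η, Y₀, a1, a2, a3, H⟩ := h ε₃ ε₀ h1 h2 h3
  refine ⟨ε', η, Y₀, a1, a2, a3, fun Y hY d hd T₁ hT1 hT2 L hL hL2 κ hκ hκ2 hPF => ?_⟩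
  have h4 := H Y hY d hd T₁ hT1 hT2 L hL hL2 κ hκ hκ2 hPF
  have e : 2 * ∑ i, κ i + 3 / 8 - 1 / 2 = 2 * ∑ i, κ i - 1 / 8 := by ring
  rw [e] at h4
  exact h4

end Pool.Agent.U26Z.DX
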