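import Pool.Agent.U26Z.DX.Prime

/-!
# From a grid to all intervals
-/

set_option autoImplicit false

namespace Pool.Agent.U26Z.DX

open Finset Filter Topology

theorem primesIn_mono {x y H H' : ℝ} (h1 : y ≤ x) (h2 : x + H ≤ y + H') : primesIn x H ≤ primesIn y H' := by
  unfold primesIn
  apply card_le_card
  apply filter_subset_filter
  exact Finset.Ioc_subset_Ioc (Nat.floor_le_floor h1) (Nat.floor_le_floor h2)

theorem density_nn {x H : ℝ} (hx : 1 ≤ x) (hH : 0 ≤ H) : 0 ≤ density x H := by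
  unfold density
  have := Real.log_nonneg hx
  positivity

theorem sand {ε t x x₀ x₁ H G : ℝ} (hε : 0 < ε) (hε1 : ε ≤ 1 / 10) (ht : 0 < t) (hx0 : 1 < t * x₀) (h0 : x₀ ≤ x) (h1 : x ≤ x₁)
    (hs : t * (x₁ - x₀) ≤ ε / 2 * H) (hG : 0 < G) (hG1 : (1 + ε) * G ≤ H) (hG2 : H ≤ (1 + ε) ^ 2 * G)
    (hl : Real.log (t * x₁) ≤ (1 + ε) * Real.log (t * x₀))
    (hb0 : |density (t * x₀) ((1 + ε) ^ 3 * G) - 1| ≤ 5 * ε) (hb1 : |density (t * x₁) G - 1| ≤ 5 * ε) :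
    |density (t * x) H - 1| ≤ 10 * ε := by
  have hp0 : 0 < 1 + ε := by linarith
  have hH0 : 0 < H := lt_of_lt_of_le (by positivity) hG1
  have ht0 : t * x₀ ≤ t * x := mul_le_mul_of_nonneg_left h0 ht.le
  have ht1 : t * x ≤ t * x₁ := mul_le_mul_of_nonneg_left h1 ht.le
  have hlog0 : 0 < Real.log (t * x₀) := Real.log_pos hx0
  have hlogx : Real.log (t * x₀) ≤ Real.log (t * x) := Real.log_le_log (by linarith) ht0
  have hlogx1 : Real.log (t * x) ≤ Real.log (t * x₁) := Real.log_le_log (by linarith) ht1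
  -- the two comparisons
  have c0 : primesIn (t * x) H ≤ primesIn (t * x₀) ((1 + ε) ^ 3 * G) := by
    apply primesIn_mono ht0
    have e1 : t * x - t * x₀ ≤ t * (x₁ - x₀) := by nlinarith
    have e2 : (1 + ε) * H ≤ (1 + ε) ^ 3 * G := by
      calc (1 + ε) * H ≤ (1 + ε) * ((1 + ε) ^ 2 * G) := mul_le_mul_of_nonneg_left hG2 hp0.le
        _ = _ := by ring
    have e3 : 0 ≤ ε * H := by positivity
    nlinarith
  have c1 : primesIn (t * x₁) G ≤ primesIn (t * x) H := by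
    apply primesIn_mono ht1
    have e1 : t * x₁ - t * x ≤ t * (x₁ - x₀) := by nlinarith
    have e2 : G ≤ (1 - ε / 2) * H := by
      have e3 : (1 + ε) * G ≤ (1 + ε) * ((1 - ε / 2) * H) := by
        have : H ≤ (1 + ε) * ((1 - ε / 2) * H) := by
          have e4 : 1 ≤ (1 + ε) * (1 - ε / 2) := by nlinarith
          calc H = 1 * H := (one_mul H).symm
            _ ≤ (1 + ε) * (1 - ε / 2) * H := mul_le_mul_of_nonneg_right e4 hH0.le
            _ = _ := by ring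
        exact hG1.trans this
      exact le_of_mul_le_mul_left e3 hp0
    nlinarith
  have c0' : (primesIn (t * x) H : ℝ) ≤ primesIn (t * x₀) ((1 + ε) ^ 3 * G) := by exact_mod_cast c0
  have c1' : (primesIn (t * x₁) G : ℝ) ≤ primesIn (t * x) H := by exact_mod_cast c1
  unfold density at hb0 hb1 ⊢
  obtain ⟨N, hN⟩ : ∃ N : ℝ, N = primesIn (t * x) H := ⟨_, rfl⟩
  obtain ⟨N₀, hN₀⟩ : ∃ N₀ : ℝ, N₀ = primesIn (t * x₀) ((1 + ε) ^ 3 * G) := ⟨_, rfl⟩
  obtain ⟨N₁, hN₁⟩ : ∃ N₁ : ℝ, N₁ = primesIn (t * x₁) G := ⟨_, rfl⟩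
  obtain ⟨l, hldef⟩ : ∃ l, l = Real.log (t * x) := ⟨_, rfl⟩
  obtain ⟨l₀, hl₀⟩ : ∃ l₀, l₀ = Real.log (t * x₀) := ⟨_, rfl⟩
  obtain ⟨l₁, hl₁⟩ : ∃ l₁, l₁ = Real.log (t * x₁) := ⟨_, rfl⟩
  rw [← hN, ← hN₀] at c0'
  rw [← hN₁, ← hN] at c1'
  rw [← hN₀, ← hl₀] at hb0
  rw [← hN₁, ← hl₁] at hb1
  rw [← hN, ← hldef]
  rw [← hl₁, ← hl₀] at hl
  rw [← hl₀] at hlog0
  rw [← hl₀, ← hldef] at hlogx
  rw [← hldef, ← hl₁] at hlogx1
  have hN0 : 0 ≤ N := by rw [hN]; positivity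
  have hN₁0 : 0 ≤ N₁ := by rw [hN₁]; positivity
  have hN₀0 : 0 ≤ N₀ := by rw [hN₀]; positivity
  have b0 := (abs_le.1 hb0).2
  have b1 := (abs_le.1 hb1).1
  have hG3 : 0 < (1 + ε) ^ 3 * G := by positivity
  have b0' : N₀ * l₀ ≤ (1 + 5 * ε) * ((1 + ε) ^ 3 * G) := by
    rw [← div_le_iff₀ hG3]
    linarith
  have b1' : (1 - 5 * ε) * G ≤ N₁ * l₁ := by
    rw [← le_div_iff₀ hG]
    linarith
  have up : N * l ≤ (1 + 10 * ε) * H := by
    calc N * l ≤ N₀ * ((1 + ε) * l₀) := by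
          apply mul_le_mul c0' (by linarith) (by linarith) hN₀0
      _ = (1 + ε) * (N₀ * l₀) := by ring
      _ ≤ (1 + ε) * ((1 + 5 * ε) * ((1 + ε) ^ 3 * G)) := mul_le_mul_of_nonneg_left b0' hp0.le
      _ = (1 + 5 * ε) * (1 + ε) ^ 3 * ((1 + ε) * G) := by ring
      _ ≤ (1 + 5 * ε) * (1 + ε) ^ 3 * H := by gcongr
      _ ≤ (1 + 10 * ε) * H := by
          apply mul_le_mul_of_nonneg_right _ hH0.le
          have e1 : ε * ε ≤ ε * (1 / 10) := mul_le_mul_of_nonneg_left hε1 hε.le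
          have e3 : ε * ε * ε ≤ ε * (1 / 10) * (1 / 10) := by
            apply mul_le_mul e1 hε1 hε.le (by positivity)
          have e2 : (1 + ε) ^ 3 ≤ 1 + 3.31 * ε := by
            have e4 : (1 + ε) ^ 3 = 1 + 3 * ε + 3 * (ε * ε) + ε * ε * ε := by ring
            linarith
          calc (1 + 5 * ε) * (1 + ε) ^ 3 ≤ (1 + 5 * ε) * (1 + 3.31 * ε) := by gcongr
            _ = 1 + 8.31 * ε + 16.55 * (ε * ε) := by ring
            _ ≤ _ := by linarith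
  have low : (1 - 10 * ε) * H ≤ N * l := by
    have f1 : (1 - 5 * ε) * G ≤ (1 + ε) * (N * l) := by
      calc (1 - 5 * ε) * G ≤ N₁ * l₁ := b1'
        _ ≤ N * ((1 + ε) * l₀) := by
            apply mul_le_mul c1' hl (by linarith) hN0
        _ ≤ N * ((1 + ε) * l) := by gcongr
        _ = _ := by ring
    have f2 : (1 - 5 * ε) * H ≤ (1 + ε) ^ 3 * (N * l) := by
      calc (1 - 5 * ε) * H ≤ (1 - 5 * ε) * ((1 + ε) ^ 2 * G) := mul_le_mul_of_nonneg_left hG2 (by linarith)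
        _ = (1 + ε) ^ 2 * ((1 - 5 * ε) * G) := by ring
        _ ≤ (1 + ε) ^ 2 * ((1 + ε) * (N * l)) := by gcongr
        _ = _ := by ring
    have f3 : (1 - 10 * ε) * (1 + ε) ^ 3 ≤ 1 - 5 * ε := by
      have e1 : 0 ≤ ε * ε := by positivity
      have e2 : 0 ≤ ε * ε * ε := by positivity
      have e3 : 0 ≤ ε * ε * ε * ε := by positivity
      have e4 : (1 - 10 * ε) * (1 + ε) ^ 3 = 1 - 7 * ε - 27 * (ε * ε) - 29 * (ε * ε * ε) - 10 * (ε * ε * ε * ε) := by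
        ring
      linarith
    have f4 : 0 < (1 + ε) ^ 3 := by positivity
    have f5 : (1 + ε) ^ 3 * ((1 - 10 * ε) * H) ≤ (1 + ε) ^ 3 * (N * l) := by
      calc (1 + ε) ^ 3 * ((1 - 10 * ε) * H) = (1 - 10 * ε) * (1 + ε) ^ 3 * H := by ring
        _ ≤ (1 - 5 * ε) * H := by gcongr
        _ ≤ _ := f2
    exact le_of_mul_le_mul_left f5 f4
  rw [abs_le]
  constructor
  · have : 1 - 10 * ε ≤ N * l / H := by rw [le_div_iff₀ hH0]; exact low
    linarith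
  · have : N * l / H ≤ 1 + 10 * ε := by rw [div_le_iff₀ hH0]; exact up
    linarith

end Pool.Agent.U26Z.DX
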