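import Pool.Agent.U26Z.DX.Meas
import Pool.Agent.U26Z.DX.Long
import Pool.Agent.U26Z.DX.Sand

/-!
# The dilations which are bad for some length
-/

set_option autoImplicit false

namespace Pool.Agent.U26Z.DX

open Finset Filter Topology MeasureTheory
open scoped NNReal ENNReal

theorem density_meas (H : ℝ) : Measurable fun y : ℝ => density y H := by
  have h1 : Measurable fun y : ℝ => primesIn y H := by
    have : (fun y : ℝ => primesIn y H) = (fun p : ℕ × ℕ => ((Ioc p.1 p.2).filter Nat.Prime).card) ∘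
        (fun y : ℝ => (⌊y⌋₊, ⌊y + H⌋₊)) := rfl
    rw [this]
    exact (Measurable.of_discrete).comp ((Nat.measurable_floor).prodMk (Nat.measurable_floor.comp (measurable_id.add_const H)))
  have h2 : Measurable fun y : ℝ => (primesIn y H : ℝ) := measurable_from_top.comp h1
  exact (h2.mul Real.measurable_log).div_const H

theorem Bd_meas (a b ε x H : ℝ) : MeasurableSet (Bd a b ε x H) := by
  have h1 : Measurable fun t : ℝ => density (t * x) H := (density_meas H).comp (measurable_id.mul_const x)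
  have h2 : Measurable fun t : ℝ => |density (t * x) H - 1| := (h1.sub_const 1).abs
  exact measurableSet_Icc.inter (measurableSet_lt measurable_const h2)

/-- the dilations in `[a, b]` which are bad for some length `(1 + ε) ^ l` -/
def GS (a b ε θ x : ℝ) : Set ℝ := ⋃ l : ℕ, {t : ℝ | (x ^ θ / 10 ≤ (1 + ε) ^ l ∧ (1 + ε) ^ l ≤ x ^ (0.65 : ℝ)) ∧
  t ∈ Bd a b ε x ((1 + ε) ^ l)}

theorem GS_meas (a b ε θ x : ℝ) : MeasurableSet (GS a b ε θ x) := by
  apply MeasurableSet.iUnion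
  intro l
  by_cases h : x ^ θ / 10 ≤ (1 + ε) ^ l ∧ (1 + ε) ^ l ≤ x ^ (0.65 : ℝ)
  · have : {t : ℝ | (x ^ θ / 10 ≤ (1 + ε) ^ l ∧ (1 + ε) ^ l ≤ x ^ (0.65 : ℝ)) ∧ t ∈ Bd a b ε x ((1 + ε) ^ l)} =
        Bd a b ε x ((1 + ε) ^ l) := by
      ext t
      simp only [Set.mem_ofPred_eq]
      exact and_iff_right h
    rw [this]
    exact Bd_meas _ _ _ _ _
  · have : {t : ℝ | (x ^ θ / 10 ≤ (1 + ε) ^ l ∧ (1 + ε) ^ l ≤ x ^ (0.65 : ℝ)) ∧ t ∈ Bd a b ε x ((1 + ε) ^ l)} = ∅ := by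
      ext t
      simp only [Set.mem_ofPred_eq, Set.mem_empty_iff_false, iff_false, not_and]
      exact fun h' => absurd h' h
    rw [this]
    exact MeasurableSet.empty

theorem vol_GS {θ μ η : ℝ} (hη : 0 < η) {ε a b : ℝ} (hε : 0 < ε)
    (hv : ∀ᶠ x : ℝ in atTop, ∀ H : ℝ,
      x ^ θ / 10 ≤ H → H ≤ x ^ (0.65 : ℝ) → volume (Bd a b ε x H) ≤ ENNReal.ofReal (x ^ (-(μ + η)))) :
    ∀ᶠ x : ℝ in atTop, volume (GS a b ε θ x) ≤ ENNReal.ofReal (x ^ (-(μ + 3 / 4 * η))) := by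
  have hp1 : 1 < 1 + ε := by linarith
  have hle : 0 < Real.log (1 + ε) := Real.log_pos hp1
  filter_upwards [hv, eventually_ge_atTop (1 : ℝ), (Real.tendsto_log_atTop.eventually_ge_atTop 1),
      (Real.tendsto_log_atTop.eventually (Pool.Agent.Q278.KS.ev_poly (1 / Real.log (1 + ε) + 2) 1
        (show 0 < η / 4 by positivity)))] with x h1 h2 h3 h4
  have hx : 0 < x := by linarith
  obtain ⟨Lm, hLm⟩ : ∃ Lm : ℕ, Lm = ⌈Real.log x / Real.log (1 + ε)⌉₊ + 1 := ⟨_, rfl⟩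
  have hLb : (Lm : ℝ) ≤ x ^ (η / 4) := by
    have f1 : x ^ (η / 4) = Real.exp (η / 4 * Real.log x) := by
      rw [Real.rpow_def_of_pos hx, mul_comm]
    rw [f1]
    rw [pow_one] at h4
    refine le_trans ?_ h4
    have f3 : (0 : ℝ) ≤ Real.log x / Real.log (1 + ε) := div_nonneg (Real.log_nonneg (by linarith)) hle.le
    rw [hLm]
    push_cast
    have := (Nat.ceil_lt_add_one f3).le
    have e : (1 / Real.log (1 + ε) + 2) * Real.log x = Real.log x / Real.log (1 + ε) + 2 * Real.log x := by ring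
    rw [e]
    linarith
  have hsub : GS a b ε θ x ⊆ ⋃ l ∈ (range Lm).filter (fun l : ℕ => x ^ θ / 10 ≤ (1 + ε) ^ l ∧ (1 + ε) ^ l ≤ x ^ (0.65 : ℝ)),
      Bd a b ε x ((1 + ε) ^ l) := by
    intro t ht
    unfold GS at ht
    rw [Set.mem_iUnion] at ht
    obtain ⟨l, hl, ht⟩ := ht
    rw [Set.mem_iUnion₂]
    refine ⟨l, ?_, ht⟩
    rw [mem_filter, mem_range]
    refine ⟨?_, hl⟩
    have g1 : (1 + ε) ^ l ≤ x := by
      refine hl.2.trans ?_
      calc x ^ (0.65 : ℝ) ≤ x ^ (1 : ℝ) := Real.rpow_le_rpow_of_exponent_le h2 (by norm_num)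
        _ = x := Real.rpow_one x
    have g2 : (l : ℝ) ≤ Real.log x / Real.log (1 + ε) := by
      rw [le_div_iff₀ hle, ← Real.log_pow]
      exact Real.log_le_log (by positivity) g1
    have g3 : (l : ℝ) ≤ (⌈Real.log x / Real.log (1 + ε)⌉₊ : ℝ) := g2.trans (Nat.le_ceil _)
    have g4 : l ≤ ⌈Real.log x / Real.log (1 + ε)⌉₊ := by exact_mod_cast g3
    omega
  refine (measure_mono hsub).trans ((measure_biUnion_finset_le _ _).trans ?_)
  refine (Finset.sum_le_card_nsmul _ _ (ENNReal.ofReal (x ^ (-(μ + η)))) fun l hl => ?_).trans ?_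
  · rw [mem_filter] at hl
    exact h1 _ hl.2.1 hl.2.2
  · rw [← ENNReal.ofReal_nsmul]
    apply ENNReal.ofReal_le_ofReal
    rw [nsmul_eq_mul]
    have g1 : (((range Lm).filter (fun l : ℕ => x ^ θ / 10 ≤ (1 + ε) ^ l ∧ (1 + ε) ^ l ≤ x ^ (0.65 : ℝ))).card : ℝ) ≤ Lm := by
      have := card_filter_le (range Lm) (fun l : ℕ => x ^ θ / 10 ≤ (1 + ε) ^ l ∧ (1 + ε) ^ l ≤ x ^ (0.65 : ℝ))
      rw [card_range] at this
      exact_mod_cast this
    calc _ ≤ x ^ (η / 4) * x ^ (-(μ + η)) := by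
          apply mul_le_mul_of_nonneg_right (g1.trans hLb) (by positivity)
      _ = x ^ (-(μ + 3 / 4 * η)) := by
          rw [← Real.rpow_add hx]
          congr 1
          ring

/-- a dilation which is bad at `x` for some length is bad at one of two near points of the grid -/
theorem stab {θ : ℝ} (hθ0 : 0.167 ≤ θ) (hθ1 : θ ≤ 1) {a b : ℝ} (ha : 0 < a) (hab : a ≤ b) {ε : ℝ} (hε : 0 < ε)
    (hε1 : ε ≤ 1 / 10) :
    ∀ᶠ x : ℝ in atTop, ∀ x₀ x₁ : ℝ, x₀ ≤ x → x ≤ x₁ → b * (x₁ - x₀) ≤ ε / 2 * x ^ θ → ∀ t ∈ Set.Icc a b,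
      ∀ H : ℝ, x ^ θ ≤ H → H ≤ x → 10 * ε < |density (t * x) H - 1| → t ∈ GS a b ε θ x₀ ∪ GS a b ε θ x₁ := by
  have hb : 0 < b := ha.trans_le hab
  have hp1 : 1 < 1 + ε := by linarith
  have hp0 : 0 < 1 + ε := by linarith
  have hθp : 0 < θ := by linarith
  have hlong := long (δ := 10 * ε) (D := 1 / a) (by positivity) (by positivity)
  obtain ⟨y₁, hy₁⟩ := eventually_atTop.1 hlong
  filter_upwards [eventually_ge_atTop (y₁ / a),
    ev_const (1.21 * 2 ^ (0.65 : ℝ)) (show (0 : ℝ) < 0.05 by norm_num),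
    ev_const (b ^ (0.59 : ℝ)) (show (0 : ℝ) < 0.01 by norm_num),
    ev_const 2 hθp, eventually_ge_atTop (2 * Real.exp (1 / ε) / a), eventually_ge_atTop (4 : ℝ),
    ev_const (4 / b) (show (0 : ℝ) < 0.4 by norm_num)] with x hx3 hx4 hx5 hx6 hx7 hx8 hx9
  intro x₀ x₁ hxi hxi1 hsx t ht H hH1 hH2 hbad
  obtain ⟨j1, j2⟩ := ht
  have hl0 : 0 < t := ha.trans_le j1
  have hx0 : 0 < x := by linarith
  have hH0 : 0 < H := lt_of_lt_of_le (by positivity) hH1
  rcases le_or_gt (x ^ (0.6 : ℝ)) H with hcase | hcase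
  · -- long intervals
    exfalso
    have := hy₁ (t * x) (by
        rw [div_le_iff₀ ha] at hx3
        nlinarith) H (by
        calc (t * x) ^ (0.59 : ℝ) ≤ (b * x) ^ (0.59 : ℝ) := by gcongr
          _ = b ^ (0.59 : ℝ) * x ^ (0.59 : ℝ) := Real.mul_rpow hb.le hx0.le
          _ ≤ x ^ (0.01 : ℝ) * x ^ (0.59 : ℝ) := by gcongr
          _ = x ^ (0.6 : ℝ) := by rw [← Real.rpow_add hx0]; norm_num
          _ ≤ H := hcase) (by
        refine hH2.trans ?_
        rw [one_div_mul_eq_div, le_div_iff₀ ha, mul_comm]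
        gcongr)
    linarith
  -- short intervals
  have hsX : b * (x₁ - x₀) ≤ ε / 2 * H := hsx.trans (by gcongr)
  have hD : x₁ - x₀ ≤ x / 4 := by
    have h1 : x₁ - x₀ ≤ x ^ (0.6 : ℝ) / b := by
      rw [le_div_iff₀ hb, mul_comm]
      refine hsX.trans ?_
      have : ε / 2 * H ≤ 1 * H := by gcongr; linarith
      linarith
    refine h1.trans ?_
    have h2 : x = x ^ (0.4 : ℝ) * x ^ (0.6 : ℝ) := by rw [← Real.rpow_add hx0]; norm_num
    calc x ^ (0.6 : ℝ) / b = (4 / b) * x ^ (0.6 : ℝ) / 4 := by field_simp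
      _ ≤ x ^ (0.4 : ℝ) * x ^ (0.6 : ℝ) / 4 := by gcongr
      _ = x / 4 := by rw [← h2]
  have hx00 : x / 2 ≤ x₀ := by linarith
  have hx0p : 0 < x₀ := by linarith
  have hHbig : 1 ≤ H / (1 + ε) := by
    rw [le_div_iff₀ hp0]
    linarith
  obtain ⟨l, hl1, hl2⟩ := exists_nat_pow_near hHbig hp1
  have hG1 : (1 + ε) * (1 + ε) ^ l ≤ H := by
    rw [le_div_iff₀ hp0] at hl1
    linarith
  have hG2 : H ≤ (1 + ε) ^ 2 * (1 + ε) ^ l := by
    rw [div_lt_iff₀ hp0, pow_succ] at hl2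
    calc H ≤ (1 + ε) ^ l * (1 + ε) * (1 + ε) := hl2.le
      _ = _ := by ring
  have hp2 : (1 + ε) ^ 2 ≤ 1.21 := by nlinarith
  have hp2' : H ≤ 1.21 * (1 + ε) ^ l := hG2.trans (mul_le_mul_of_nonneg_right hp2 (by positivity))
  have hlp : 0 < (1 + ε) ^ l := by positivity
  have hsmall : ∀ y : ℝ, 0 < y → y ≤ 2 * x → y ^ θ / 10 ≤ (1 + ε) ^ l := by
    intro y hy0 hy
    have h2 : y ^ θ ≤ 2 * x ^ θ := by
      calc y ^ θ ≤ (2 * x) ^ θ := Real.rpow_le_rpow hy0.le hy hθp.le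
        _ = 2 ^ θ * x ^ θ := Real.mul_rpow (by norm_num) hx0.le
        _ ≤ 2 ^ (1 : ℝ) * x ^ θ := by
            gcongr
            · norm_num
        _ = _ := by rw [Real.rpow_one]
    linarith
  have h3l : (1 + ε) ^ (l + 3) = (1 + ε) ^ 3 * (1 + ε) ^ l := by rw [pow_add]; ring
  have hlarge : ∀ y : ℝ, x / 2 ≤ y → (1 + ε) ^ (l + 3) ≤ y ^ (0.65 : ℝ) := by
    intro y hy
    have hy0 : 0 < y := by linarith
    have h1 : (1 + ε) ^ (l + 3) = (1 + ε) ^ 2 * ((1 + ε) * (1 + ε) ^ l) := by rw [pow_add]; ring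
    have h2 : (1 + ε) ^ (l + 3) ≤ 1.21 * x ^ (0.6 : ℝ) := by
      rw [h1]
      exact mul_le_mul hp2 (hG1.trans hcase.le) (by positivity) (by norm_num)
    have h3 : x ^ (0.65 : ℝ) ≤ 2 ^ (0.65 : ℝ) * y ^ (0.65 : ℝ) := by
      rw [← Real.mul_rpow (by norm_num) hy0.le]
      exact Real.rpow_le_rpow hx0.le (by linarith) (by norm_num)
    have h4 : x ^ (0.65 : ℝ) = x ^ (0.05 : ℝ) * x ^ (0.6 : ℝ) := by rw [← Real.rpow_add hx0]; norm_num
    have h5 : (2 : ℝ) ^ (0.65 : ℝ) * (1.21 * x ^ (0.6 : ℝ)) ≤ 2 ^ (0.65 : ℝ) * y ^ (0.65 : ℝ) := by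
      calc (2 : ℝ) ^ (0.65 : ℝ) * (1.21 * x ^ (0.6 : ℝ)) = (1.21 * 2 ^ (0.65 : ℝ)) * x ^ (0.6 : ℝ) := by ring
        _ ≤ x ^ (0.05 : ℝ) * x ^ (0.6 : ℝ) := by gcongr
        _ ≤ _ := by rw [← h4]; exact h3
    exact h2.trans (le_of_mul_le_mul_left h5 (by positivity))
  have hl3 : (1 + ε) ^ l ≤ (1 + ε) ^ (l + 3) := pow_le_pow_right₀ hp1.le (by omega)
  by_contra hcon
  rw [Set.mem_union, not_or] at hcon
  obtain ⟨c0, c1⟩ := hcon
  unfold GS at c0 c1
  rw [Set.mem_iUnion, not_exists] at c0 c1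
  have d0 : |density (t * x₀) ((1 + ε) ^ 3 * (1 + ε) ^ l) - 1| ≤ 5 * ε := by
    by_contra h
    apply c0 (l + 3)
    refine ⟨⟨(hsmall x₀ hx0p (by linarith)).trans hl3, hlarge x₀ hx00⟩, ⟨j1, j2⟩, ?_⟩
    rw [h3l]
    exact not_le.1 h
  have d1 : |density (t * x₁) ((1 + ε) ^ l) - 1| ≤ 5 * ε := by
    by_contra h
    exact c1 l ⟨⟨hsmall x₁ (by linarith) (by linarith), hl3.trans (hlarge x₁ (by linarith))⟩, ⟨j1, j2⟩, not_le.1 h⟩
  have hbig : Real.exp (1 / ε) ≤ t * x₀ := by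
    have h1 : a * (x / 2) ≤ t * x₀ := mul_le_mul j1 hx00 (by positivity) hl0.le
    rw [div_le_iff₀ ha] at hx7
    nlinarith
  have hfin := sand hε hε1 hl0 (by
    have := Real.add_one_le_exp (1 / ε)
    have : 0 < 1 / ε := by positivity
    linarith) hxi hxi1 (by
    exact (mul_le_mul_of_nonneg_right j2 (by linarith)).trans hsX) (by positivity) hG1 hG2 (by
    have g1 : x₁ ≤ 2 * x₀ := by linarith
    have g2 : 0 < t * x₀ := (Real.exp_pos _).trans_le hbig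
    have g3 : Real.log (t * x₁) ≤ Real.log (2 * (t * x₀)) := by
      apply Real.log_le_log
      · have : 0 < x₁ := by linarith
        positivity
      · nlinarith
    rw [Real.log_mul (by norm_num) g2.ne'] at g3
    have g4 : 1 / ε ≤ Real.log (t * x₀) := by
      rw [← Real.log_exp (1 / ε)]
      exact Real.log_le_log (Real.exp_pos _) hbig
    rw [div_le_iff₀ hε] at g4
    have g5 := Real.log_two_lt_d9
    nlinarith) d0 d1
  linarith

end Pool.Agent.U26Z.DX
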