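import Pool.Agent.U26Z.DX.Exc
import Pool.Agent.H39x.LP.Asy

/-!
# The measure of the exceptional windows for the sums of `Λ(n)/n`
-/

set_option autoImplicit false

namespace Pool.Agent.U26Z.DX

open Finset Filter Topology MeasureTheory Pool.Agent.H376R2.MR Pool.Agent.Q240.KS Pool.Agent.Q278.KS Pool.Agent.Q278.KT
open Pool.Agent.Q257.KS Pool.Agent.Q95.KS Pool.Agent.H39x.LP

/-- the smoothing error, for all lengths -/
theorem box_ok (B : ℕ) : ∀ᶠ Y : ℝ in atTop, ∀ h v : ℝ, Real.exp (-(0.835 * Y)) ≤ h → h ≤ 1 / 100 → |v - Y| ≤ 0.41 →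
    |∑ n ∈ sY Y, aY Y n * bx ⌈Y ^ (B + 24) / h⌉₊ v h (Real.log n) - 2 * Real.pi * SL v h| ≤ 1 / Y ^ (B + 2) * h := by
  obtain ⟨CB, Y₂, hCB, hbtl⟩ := Pool.Agent.Q251.KS.btl 0.84 (by norm_num) (by norm_num)
  obtain ⟨C₀, hC₀⟩ : ∃ C₀ : ℝ, C₀ = 4 * CB * 27 + 1600 * (31 * (21 * 50) ^ 10) := ⟨_, rfl⟩
  filter_upwards [eventually_ge_atTop Y₂, eventually_ge_atTop 200, eventually_ge_atTop C₀,
    ev_poly 2 (B + 24) (show (0 : ℝ) < 0.005 by norm_num)] with Y hY2 hY3 hY4 hY5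
  intro h v hhlo hh1 hv
  have hY0 : 0 < Y := by linarith
  have hY1 : 1 ≤ Y := by linarith
  have hh0 : 0 < h := lt_of_lt_of_le (Real.exp_pos _) hhlo
  set D : ℕ := B + 24 with hD
  set K : ℕ := ⌈Y ^ D / h⌉₊ with hK
  have hKlo : Y ^ D / h ≤ K := Nat.le_ceil _
  have hYD : (100 : ℝ) ≤ Y ^ D / h := by
    rw [le_div_iff₀ hh0]
    calc 100 * h ≤ 1 := by linarith
      _ ≤ Y ^ D := one_le_pow₀ hY1
  have hK100 : 100 ≤ K := by
    have : (100 : ℝ) ≤ K := hYD.trans hKlo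
    exact_mod_cast this
  have hK0 : (0 : ℝ) < K := by exact_mod_cast (by omega : 0 < K)
  have hKhi : (K : ℝ) ≤ 2 * Y ^ D * Real.exp (0.835 * Y) := by
    have h3 := (Nat.ceil_lt_add_one (show 0 ≤ Y ^ D / h by positivity)).le
    rw [← hK] at h3
    have h5 : Y ^ D / h ≤ Y ^ D * Real.exp (0.835 * Y) := by
      rw [div_le_iff₀ hh0]
      calc Y ^ D = Y ^ D * (Real.exp (0.835 * Y) * Real.exp (-(0.835 * Y))) := by
            rw [← Real.exp_add]; simp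
        _ ≤ Y ^ D * (Real.exp (0.835 * Y) * h) := by gcongr
        _ = _ := by ring
    linarith
  have hK3 : (K : ℝ) ≤ Real.exp (0.84 * Y) := by
    refine hKhi.trans ?_
    calc 2 * Y ^ D * Real.exp (0.835 * Y) ≤ Real.exp (0.005 * Y) * Real.exp (0.835 * Y) := by gcongr
      _ = Real.exp (0.84 * Y) := by rw [← Real.exp_add]; congr 1; ring
  have hlogK : Real.log K ≤ Y := by
    have := Real.log_le_log hK0 hK3
    rw [Real.log_exp] at this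
    linarith
  have hKD : 1 / (K : ℝ) ≤ h / Y ^ D := by
    rw [div_le_div_iff₀ hK0 (by positivity)]
    rw [div_le_iff₀ hh0] at hKlo
    linarith
  have hbt : ∀ w : ℝ, |w - Y| ≤ 1 → SL w (1 / K) ≤ CB / K := by
    intro w hw
    have h3 := hbtl Y w (1 / K) hY2 hw (by
      rw [Real.exp_neg, ← one_div]
      exact one_div_le_one_div_of_le hK0 hK3) (by
      rw [div_le_one hK0]
      exact_mod_cast (by omega : 1 ≤ K))
    refine h3.trans (le_of_eq (by ring))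
  have ha1 : ∀ n : ℕ, 1 ≤ n → |Real.log n - Y| ≤ 1 / 2 → aY Y n = ArithmeticFunction.vonMangoldt n / n :=
    fun n hn h => aY_eq Pool.Agent.Q257.KS.hb (by linarith) hn h
  have ha3 : ∀ n : ℕ, 1 ≤ n → 3 / 2 < |Real.log n - Y| → aY Y n = 0 := fun n _ h => aY_zero h
  have hA1 := l1_aY (by linarith : (21 : ℝ) ≤ Y)
  have hbox := box_sum (Y := Y) (v := v) (h := h) hK100 ha1 hA1 ha3 hv hh0.le hh1 (by linarith) hbt
  refine hbox.trans ?_
  have e0 : (1 : ℝ) ≤ Y ^ 20 := one_le_pow₀ hY1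
  have e1 : 4 * (CB / K) * (17 + 10 * Real.log K) ≤ 4 * CB * 27 * Y ^ 20 * (1 / K) := by
    have e2 : 17 + 10 * Real.log K ≤ 27 * Y ^ 20 := by
      have e3 : Y ≤ Y ^ 20 := le_self_pow₀ hY1 (by norm_num)
      linarith
    calc 4 * (CB / K) * (17 + 10 * Real.log K) ≤ 4 * (CB / K) * (27 * Y ^ 20) := by gcongr
      _ = _ := by ring
  have e2 : 31 * (21 * 50) ^ 10 * Y ^ 20 * (1600 / K * h) ≤ 1600 * (31 * (21 * 50) ^ 10) * Y ^ 20 * (1 / K) := by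
    have e3 : h ≤ 1 := by linarith
    calc 31 * (21 * 50) ^ 10 * Y ^ 20 * (1600 / K * h) ≤ 31 * (21 * 50) ^ 10 * Y ^ 20 * (1600 / K * 1) := by
          gcongr
      _ = _ := by ring
  have e3 : (4 * CB * 27 + 1600 * (31 * (21 * 50) ^ 10)) * Y ^ 20 * (1 / K) ≤ Y ^ 21 * (h / Y ^ D) := by
    have e4 : 4 * CB * 27 + 1600 * (31 * (21 * 50) ^ 10) ≤ Y := by rw [← hC₀]; exact hY4
    calc (4 * CB * 27 + 1600 * (31 * (21 * 50) ^ 10)) * Y ^ 20 * (1 / K) ≤ Y * Y ^ 20 * (h / Y ^ D) := by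
          gcongr
      _ = _ := by ring
  have e4 : Y ^ 21 * (h / Y ^ D) ≤ 1 / Y ^ (B + 2) * h := by
    rw [hD, show B + 24 = 21 + (B + 3) by ring, pow_add]
    have e5 : Y ^ 21 * (h / (Y ^ 21 * Y ^ (B + 3))) = 1 / Y ^ (B + 3) * h := by field_simp
    rw [e5]
    gcongr
    norm_num
  calc _ ≤ 4 * CB * 27 * Y ^ 20 * (1 / K) + 1600 * (31 * (21 * 50) ^ 10) * Y ^ 20 * (1 / K) := add_le_add e1 e2
    _ = (4 * CB * 27 + 1600 * (31 * (21 * 50) ^ 10)) * Y ^ 20 * (1 / K) := by ring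
    _ ≤ _ := e3.trans e4

/-- the reference scale -/
theorem ff_ref (B : ℕ) : ∀ᶠ Y : ℝ in atTop, ∀ v : ℝ, |v - Y| ≤ 0.41 →
    |FF Y v (aY Y) ⌈Real.exp (Y / 50)⌉₊ - 2 * Real.pi| ≤ 1 / Y ^ B := by
  obtain ⟨A, η, Y₁, hη, hdif⟩ := dif (B + 2)
  obtain ⟨C, Y₃, hC, hasy⟩ := asy (B + 2)
  obtain ⟨A', hA'⟩ : ∃ A' : ℕ, A' = 6 * A + B + 24 := ⟨_, rfl⟩
  filter_upwards [eventually_ge_atTop Y₁, eventually_ge_atTop (2 * Y₃), eventually_ge_atTop 200, box_ok B,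
    eventually_ge_atTop (128 * (31 * (21 * 50) ^ 10)),
    ev_poly 2 (B + 24 + A') (show (0 : ℝ) < 0.4166 by norm_num), ev_poly 8 (3 * A) (show (0 : ℝ) < 1 / 50 by norm_num),
    ev_poly 1 A' (show (0 : ℝ) < 0.2 by norm_num),
    eventually_ge_atTop (4 + 2 * Real.pi * (C * 2 ^ (B + 2)))] with Y hY1 hY2 hY3 hY4 hY5 hY6 hY7 hY8 hY9
  intro v hv
  obtain ⟨hva, hvb⟩ := abs_le.1 hv
  have hY0 : 0 < Y := by linarith
  have hY1' : 1 ≤ Y := by linarith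
  have hv0 : Y / 2 ≤ v := by linarith
  set a := aY Y with ha
  have hA1 := l1_aY (by linarith : (21 : ℝ) ≤ Y)
  rw [← ha] at hA1
  set H : ℝ := 1 / Y ^ A' with hH
  have hH0 : 0 < H := by positivity
  have hH1 : H ≤ 1 / 100 := by
    rw [hH]
    have : (100 : ℝ) ≤ Y ^ A' := by
      calc (100 : ℝ) ≤ Y ^ 1 := by rw [pow_one]; linarith
        _ ≤ Y ^ A' := pow_le_pow_right₀ hY1' (by omega)
    gcongr
  have hHlo : Real.exp (-(0.2 * Y)) ≤ H := by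
    rw [hH, Real.exp_neg, ← one_div]
    apply one_div_le_one_div_of_le (by positivity)
    rw [one_mul] at hY8
    exact hY8
  set K₁ : ℕ := ⌈Y ^ A⌉₊ ^ 3 with hK₁
  have hYA1 : 1 ≤ Y ^ A := one_le_pow₀ hY1'
  have hK₁le : (K₁ : ℝ) ≤ 8 * Y ^ (3 * A) := by
    have h1 : (⌈Y ^ A⌉₊ : ℝ) ≤ 2 * Y ^ A := by
      have := (Nat.ceil_lt_add_one (by positivity : 0 ≤ Y ^ A)).le
      linarith
    rw [hK₁]
    push_cast
    calc (⌈Y ^ A⌉₊ : ℝ) ^ 3 ≤ (2 * Y ^ A) ^ 3 := by gcongr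
      _ = 8 * Y ^ (3 * A) := by rw [mul_pow, ← pow_mul]; ring_nf
  set K : ℕ := ⌈Y ^ (B + 24) / H⌉₊ with hK
  have hKe : Y ^ (B + 24) / H = Y ^ (B + 24 + A') := by
    rw [hH, div_div_eq_mul_div, div_one, ← pow_add]
  have hKlo : Y ^ (B + 24 + A') ≤ K := by rw [← hKe]; exact Nat.le_ceil _
  have hKhi : (K : ℝ) ≤ Real.exp ((0.4166 + η) * Y) := by
    have h3 := (Nat.ceil_lt_add_one (show 0 ≤ Y ^ (B + 24) / H by positivity)).le
    rw [← hK, hKe] at h3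
    have h4 : 1 ≤ Y ^ (B + 24 + A') := one_le_pow₀ hY1'
    have h5 : (K : ℝ) ≤ Real.exp (0.4166 * Y) := by linarith
    refine h5.trans (Real.exp_le_exp.2 ?_)
    exact mul_le_mul_of_nonneg_right (by linarith) hY0.le
  have hKK : K₁ ≤ K := by
    have h3 : (K₁ : ℝ) ≤ K := by
      refine hK₁le.trans (le_trans ?_ hKlo)
      calc 8 * Y ^ (3 * A) ≤ Y * Y ^ (3 * A) := by gcongr; linarith
        _ = Y ^ (3 * A + 1) := by rw [pow_succ]; ring
        _ ≤ Y ^ (B + 24 + A') := pow_le_pow_right₀ hY1' (by omega)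
    exact_mod_cast h3
  have hbox := hY4 H v (by
    refine le_trans (Real.exp_le_exp.2 ?_) hHlo
    linarith) hH1 hv
  rw [← hK] at hbox
  have hlip : ∀ u ∈ Set.Icc v (v + H), |FF Y u a K₁ - FF Y v a K₁| ≤ 1 / Y ^ (B + 2) := by
    intro u hu
    refine (ff_lip hA1 K₁ u v).trans ?_
    have e1 : |u - v| ≤ H := by rw [abs_le]; constructor <;> linarith [hu.1, hu.2]
    have e2 : (K₁ : ℝ) ^ 2 ≤ 64 * Y ^ (6 * A) := by
      calc (K₁ : ℝ) ^ 2 ≤ (8 * Y ^ (3 * A)) ^ 2 := by gcongr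
        _ = 64 * Y ^ (6 * A) := by rw [mul_pow, ← pow_mul]; ring_nf
    calc 31 * (21 * 50) ^ 10 * Y ^ 20 * (2 * (K₁ : ℝ) ^ 2 * |u - v|) ≤
          31 * (21 * 50) ^ 10 * Y ^ 20 * (2 * (64 * Y ^ (6 * A)) * H) := by gcongr
      _ = (128 * (31 * (21 * 50) ^ 10)) * (Y ^ 20 * Y ^ (6 * A) * H) := by ring
      _ ≤ Y * (Y ^ 20 * Y ^ (6 * A) * H) := by gcongr
      _ = 1 / Y ^ (B + 3) := by
          rw [hH, hA', show 6 * A + B + 24 = 6 * A + (B + 3) + 20 + 1 by ring, pow_add, pow_add, pow_add, pow_one]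
          field_simp
      _ ≤ 1 / Y ^ (B + 2) := by
          gcongr
          norm_num
  have hfin := comp_mean hH0.le (fun u => hdif Y hY1 K hKK hKhi u) hlip hbox
  have hsl := hasy v H (by linarith) (by
    refine le_trans (Real.exp_le_exp.2 ?_) hHlo
    linarith) (by linarith)
  have hv00 : 0 < v := by linarith
  have hvp : C * H / v ^ (B + 2) ≤ C * 2 ^ (B + 2) * (H / Y ^ (B + 2)) := by
    have h1 : Y ^ (B + 2) ≤ 2 ^ (B + 2) * v ^ (B + 2) := by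
      rw [← mul_pow]
      exact pow_le_pow_left₀ hY0.le (by linarith) _
    have h2 : 1 / v ^ (B + 2) ≤ 2 ^ (B + 2) / Y ^ (B + 2) := by
      rw [div_le_div_iff₀ (by positivity) (by positivity)]
      linarith
    calc C * H / v ^ (B + 2) = C * H * (1 / v ^ (B + 2)) := by ring
      _ ≤ C * H * (2 ^ (B + 2) / Y ^ (B + 2)) := by gcongr
      _ = _ := by ring
  have hsl2 := hsl.trans hvp
  have hpi := Real.pi_gt_three
  have hK₂ : K₁ ≤ ⌈Real.exp (Y / 50)⌉₊ := by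
    have : (K₁ : ℝ) ≤ ⌈Real.exp (Y / 50)⌉₊ := by
      refine hK₁le.trans (hY7.trans ?_)
      rw [show 1 / 50 * Y = Y / 50 by ring]
      exact Nat.le_ceil _
    exact_mod_cast this
  have hK₂' : (⌈Real.exp (Y / 50)⌉₊ : ℝ) ≤ Real.exp ((0.4166 + η) * Y) := by
    have h1 := (Nat.ceil_lt_add_one (Real.exp_pos (Y / 50)).le).le
    have h2 : 1 ≤ Real.exp (Y / 50) := Real.one_le_exp (by positivity)
    have h3 : (2 : ℝ) ≤ Real.exp (0.3966 * Y) := by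
      have := Real.add_one_le_exp (0.3966 * Y)
      linarith
    calc (⌈Real.exp (Y / 50)⌉₊ : ℝ) ≤ 2 * Real.exp (Y / 50) := by linarith
      _ ≤ Real.exp (0.3966 * Y) * Real.exp (Y / 50) := by gcongr
      _ = Real.exp (0.4166 * Y) := by rw [← Real.exp_add]; congr 1; ring
      _ ≤ _ := Real.exp_le_exp.2 (mul_le_mul_of_nonneg_right (by linarith) hY0.le)
  have hd2 := hdif Y hY1 ⌈Real.exp (Y / 50)⌉₊ hK₂ hK₂' v
  obtain ⟨F, hF⟩ : ∃ F, F = FF Y v a K₁ := ⟨_, rfl⟩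
  rw [← ha, ← hK₁, ← hF] at hd2
  rw [← hF] at hfin
  obtain ⟨δ, hδ⟩ : ∃ δ : ℝ, δ = 1 / Y ^ (B + 2) := ⟨_, rfl⟩
  have hδ0 : 0 < δ := by rw [hδ]; positivity
  rw [← hδ] at hfin hd2
  have hsl3 : |SL v H - H| ≤ C * 2 ^ (B + 2) * (H * δ) := by
    refine hsl2.trans (le_of_eq ?_)
    rw [hδ]
    ring
  have h4 : |F - 2 * Real.pi| ≤ (3 + 2 * Real.pi * (C * 2 ^ (B + 2))) * δ := by
    have e1 : H * |F - 2 * Real.pi| ≤ H * ((3 + 2 * Real.pi * (C * 2 ^ (B + 2))) * δ) := by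
      rw [← abs_of_pos hH0, ← abs_mul]
      have e2 : H * (F - 2 * Real.pi) = -(2 * Real.pi * SL v H - H * F) + 2 * Real.pi * (SL v H - H) := by ring
      rw [abs_of_pos hH0, e2]
      refine (abs_add_le _ _).trans ?_
      rw [abs_neg, abs_mul, abs_of_pos (by positivity : 0 < 2 * Real.pi)]
      calc |2 * Real.pi * SL v H - H * F| + 2 * Real.pi * |SL v H - H| ≤
            (δ + δ + δ) * H + 2 * Real.pi * (C * 2 ^ (B + 2) * (H * δ)) := by gcongr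
        _ = _ := by ring
    exact le_of_mul_le_mul_left e1 hH0
  have h5 : |FF Y v a ⌈Real.exp (Y / 50)⌉₊ - 2 * Real.pi| ≤ (4 + 2 * Real.pi * (C * 2 ^ (B + 2))) * δ := by
    have := abs_sub_le (FF Y v a ⌈Real.exp (Y / 50)⌉₊) F (2 * Real.pi)
    linarith
  refine h5.trans ?_
  calc (4 + 2 * Real.pi * (C * 2 ^ (B + 2))) * δ ≤ Y * δ := by gcongr
    _ = 1 / Y ^ (B + 1) := by
        rw [hδ, show B + 2 = B + 1 + 1 by ring, pow_succ Y (B + 1)]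
        field_simp
    _ ≤ 1 / Y ^ B := by
        gcongr
        omega

end Pool.Agent.U26Z.DX
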