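import Pool.Agent.U26Z.DX.Pt
import Pool.Agent.U26Z.DX.Opt3

/-!
# Dilates of the intervals between consecutive odd squares
-/

set_option autoImplicit false

namespace Pool.Agent.U26Z.DX

open Finset Filter Topology MeasureTheory
open scoped NNReal ENNReal

/-- the square `(2 k - 1) ^ 2` -/
noncomputable def osq (k : ℕ) : ℝ := (2 * (k : ℝ) - 1) ^ 2

theorem osq_succ (k : ℕ) : osq (k + 1) = osq k + 8 * k := by
  unfold osq
  push_cast
  ring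

theorem osq_lower {k : ℕ} (hk : 1 ≤ k) : (k : ℝ) ^ 2 ≤ osq k := by
  have h1 : (1 : ℝ) ≤ k := by exact_mod_cast hk
  unfold osq
  nlinarith

theorem osq_upper {k : ℕ} (hk : 1 ≤ k) : osq (k + 1) ≤ 9 * (k : ℝ) ^ 2 := by
  have h1 : (1 : ℝ) ≤ k := by exact_mod_cast hk
  unfold osq
  push_cast
  nlinarith

open Classical in
/-- the bad dilations for the interval between `(2 k - 1) ^ 2` and `(2 k + 1) ^ 2` -/
noncomputable def BadK (a b ε θ : ℝ) (k : ℕ) : Set ℝ :=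
  ⋃ i ∈ range (⌈8 * k / (ε * osq k ^ θ / (2 * b))⌉₊ + 1),
    (GS a b ε θ (osq k + i * (ε * osq k ^ θ / (2 * b))) ∪ GS a b ε θ (osq k + (i + 1 : ℕ) * (ε * osq k ^ θ / (2 * b))))

theorem BadK_meas (a b ε θ : ℝ) (k : ℕ) : MeasurableSet (BadK a b ε θ k) := by
  unfold BadK
  exact Finset.measurableSet_biUnion _ fun i _ => (GS_meas _ _ _ _ _).union (GS_meas _ _ _ _ _)

/-- the measure of the bad dilations -/
theorem BadK_vol {η a b ε : ℝ} (hη : 0 < η) (ha : 0 < a) (hab : a ≤ b) (hε : 0 < ε)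
    (hv : ∀ᶠ x : ℝ in atTop, ∀ H : ℝ,
      x ^ (0.499 : ℝ) / 10 ≤ H → H ≤ x ^ (0.65 : ℝ) → volume (Bd a b ε x H) ≤ ENNReal.ofReal (x ^ (-(0.16 + η)))) :
    ∀ᶠ k : ℕ in atTop, volume (BadK a b ε 0.499 k) ≤ ENNReal.ofReal ((k : ℝ) ^ (-0.31 : ℝ)) := by
  have hb : 0 < b := ha.trans_le hab
  obtain ⟨x₀, hx₀⟩ := eventually_atTop.1 (vol_GS (θ := 0.499) (μ := 0.16) hη hε hv)
  have hk := tendsto_natCast_atTop_atTop (R := ℝ)
  filter_upwards [hk.eventually_ge_atTop (max x₀ 1), hk.eventually (ev_const (4 * (16 * b / ε + 2)) (show (0 : ℝ) < 0.008 by norm_num))]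
    with k h1 h2
  have hk1 : (1 : ℝ) ≤ k := (le_max_right _ _).trans h1
  have hk1' : 1 ≤ k := by exact_mod_cast hk1
  have hk0 : (0 : ℝ) < k := by linarith
  have hsq := osq_lower hk1'
  have hkk : (k : ℝ) ≤ (k : ℝ) ^ 2 := by nlinarith
  have hx1 : x₀ ≤ osq k := (le_max_left _ _).trans (h1.trans (hkk.trans hsq))
  have hos0 : 0 < osq k := by nlinarith
  obtain ⟨s, hs⟩ : ∃ s, s = ε * osq k ^ (0.499 : ℝ) / (2 * b) := ⟨_, rfl⟩
  have hs0 : 0 < s := by rw [hs]; positivity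
  obtain ⟨I, hI⟩ : ∃ I, I = ⌈8 * k / s⌉₊ + 1 := ⟨_, rfl⟩
  have hpow1 : (k : ℝ) ^ (0.998 : ℝ) ≤ osq k ^ (0.499 : ℝ) := by
    calc (k : ℝ) ^ (0.998 : ℝ) = ((k : ℝ) ^ 2) ^ (0.499 : ℝ) := by
          rw [← Real.rpow_natCast, ← Real.rpow_mul hk0.le]
          norm_num
      _ ≤ _ := Real.rpow_le_rpow (by positivity) hsq (by norm_num)
  have hIle : (I : ℝ) ≤ (16 * b / ε + 2) * (k : ℝ) ^ (0.002 : ℝ) := by
    have f1 : 8 * (k : ℝ) / s ≤ 16 * b / ε * (k : ℝ) ^ (0.002 : ℝ) := by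
      rw [hs, div_div_eq_mul_div, div_le_iff₀ (by positivity)]
      calc 8 * (k : ℝ) * (2 * b) = 16 * b / ε * (k : ℝ) ^ (0.002 : ℝ) * (ε * (k : ℝ) ^ (0.998 : ℝ)) := by
            have e : (k : ℝ) = (k : ℝ) ^ (0.002 : ℝ) * (k : ℝ) ^ (0.998 : ℝ) := by
              rw [← Real.rpow_add hk0]
              norm_num
            calc 8 * (k : ℝ) * (2 * b) = 8 * ((k : ℝ) ^ (0.002 : ℝ) * (k : ℝ) ^ (0.998 : ℝ)) * (2 * b) := by rw [← e]
              _ = _ := by field_simp; ring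
        _ ≤ _ := by gcongr
    have f2 : 1 ≤ (k : ℝ) ^ (0.002 : ℝ) := Real.one_le_rpow hk1 (by norm_num)
    have f3 := (Nat.ceil_lt_add_one (show 0 ≤ 8 * (k : ℝ) / s by positivity)).le
    rw [hI]
    push_cast
    have e : (16 * b / ε + 2) * (k : ℝ) ^ (0.002 : ℝ) = 16 * b / ε * (k : ℝ) ^ (0.002 : ℝ) + 2 * (k : ℝ) ^ (0.002 : ℝ) := by ring
    rw [e]
    linarith
  have hGS : ∀ y : ℝ, osq k ≤ y → volume (GS a b ε 0.499 y) ≤ ENNReal.ofReal ((k : ℝ) ^ (-0.32 : ℝ)) := by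
    intro y hy
    refine (hx₀ y (hx1.trans hy)).trans (ENNReal.ofReal_le_ofReal ?_)
    have hy1 : (k : ℝ) ^ 2 ≤ y := hsq.trans hy
    have hy2 : 1 ≤ y := by nlinarith
    calc y ^ (-(0.16 + 3 / 4 * η)) ≤ y ^ (-0.16 : ℝ) := Real.rpow_le_rpow_of_exponent_le hy2 (by linarith)
      _ ≤ ((k : ℝ) ^ 2) ^ (-0.16 : ℝ) := Real.rpow_le_rpow_of_nonpos (by positivity) hy1 (by norm_num)
      _ = (k : ℝ) ^ (-0.32 : ℝ) := by
          rw [← Real.rpow_natCast, ← Real.rpow_mul hk0.le]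
          norm_num
  unfold BadK
  rw [← hs, ← hI]
  have hterm : ∀ i ∈ range I, volume (GS a b ε 0.499 (osq k + i * s) ∪ GS a b ε 0.499 (osq k + (i + 1 : ℕ) * s)) ≤
      ENNReal.ofReal (2 * (k : ℝ) ^ (-0.32 : ℝ)) := by
    intro i _
    refine (measure_union_le _ _).trans ?_
    rw [two_mul, ENNReal.ofReal_add (by positivity) (by positivity)]
    apply add_le_add
    · apply hGS
      have : (0 : ℝ) ≤ i * s := by positivity
      linarith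
    · apply hGS
      have : (0 : ℝ) ≤ (i + 1 : ℕ) * s := by positivity
      linarith
  refine (measure_biUnion_finset_le _ _).trans ((Finset.sum_le_card_nsmul _ _ _ hterm).trans ?_)
  rw [card_range, ← ENNReal.ofReal_nsmul, nsmul_eq_mul]
  apply ENNReal.ofReal_le_ofReal
  have hC0 : 0 < 16 * b / ε + 2 := by positivity
  calc (I : ℝ) * (2 * (k : ℝ) ^ (-0.32 : ℝ)) ≤ ((16 * b / ε + 2) * (k : ℝ) ^ (0.002 : ℝ)) * (2 * (k : ℝ) ^ (-0.32 : ℝ)) := by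
        gcongr
    _ = (2 * (16 * b / ε + 2)) * ((k : ℝ) ^ (0.002 : ℝ) * (k : ℝ) ^ (-0.32 : ℝ)) := by ring
    _ ≤ (k : ℝ) ^ (0.008 : ℝ) * ((k : ℝ) ^ (0.002 : ℝ) * (k : ℝ) ^ (-0.32 : ℝ)) := by
        gcongr
        linarith
    _ = (k : ℝ) ^ (-0.31 : ℝ) := by
        rw [← Real.rpow_add hk0, ← Real.rpow_add hk0]
        norm_num

/-- outside the bad dilations all long subintervals have the expected number of primes -/
theorem good_of_not {a b : ℝ} (ha : 0 < a) (hab : a ≤ b) {ε : ℝ} (hε : 0 < ε) (hε1 : ε ≤ 1 / 10) :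
    ∀ᶠ k : ℕ in atTop, ∀ t ∈ Set.Icc a b, t ∉ BadK a b ε 0.499 k → ∀ y H : ℝ, t * osq k ≤ y → y + H ≤ t * osq (k + 1) →
      (k : ℝ) ^ (0.999 : ℝ) ≤ H → |density y H - 1| ≤ 10 * ε := by
  have hb : 0 < b := ha.trans_le hab
  obtain ⟨x₁, hx₁⟩ := eventually_atTop.1 (stab (θ := 0.499) (by norm_num) (by norm_num) ha hab hε hε1)
  have hk := tendsto_natCast_atTop_atTop (R := ℝ)
  filter_upwards [hk.eventually_ge_atTop (max (max x₁ 1) (8 * b)),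
    hk.eventually (ev_const (9 ^ (0.499 : ℝ)) (show (0 : ℝ) < 0.001 by norm_num))] with k h1 h2
  intro t ht hbad y H hy1 hy2 hH
  have hk1 : (1 : ℝ) ≤ k := ((le_max_right _ _).trans (le_max_left _ _)).trans h1
  have hkb : 8 * b ≤ k := (le_max_right _ _).trans h1
  have hkx : x₁ ≤ k := ((le_max_left _ _).trans (le_max_left _ _)).trans h1
  have hk1' : 1 ≤ k := by exact_mod_cast hk1
  have hk0 : (0 : ℝ) < k := by linarith
  have hsq := osq_lower hk1'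
  have hsq2 := osq_upper hk1'
  have hsucc := osq_succ k
  have hkk : (k : ℝ) ≤ (k : ℝ) ^ 2 := by nlinarith
  have hos0 : 0 < osq k := by nlinarith
  have ht0 : 0 < t := ha.trans_le ht.1
  have hH0 : 0 < H := lt_of_lt_of_le (by positivity) hH
  obtain ⟨x, hx⟩ : ∃ x, x = y / t := ⟨_, rfl⟩
  have hxy : t * x = y := by rw [hx]; field_simp
  have hxlo : osq k ≤ x := by rw [hx, le_div_iff₀ ht0]; linarith
  have hxhi : x ≤ osq (k + 1) := by rw [hx, div_le_iff₀ ht0]; linarith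
  have hHle : H ≤ 8 * k * b := by
    have h3 : H ≤ t * osq (k + 1) - t * osq k := by linarith
    rw [hsucc] at h3
    have h4 : t * (8 * k) ≤ b * (8 * k) := mul_le_mul_of_nonneg_right ht.2 (by positivity)
    linarith
  obtain ⟨s, hs⟩ : ∃ s, s = ε * osq k ^ (0.499 : ℝ) / (2 * b) := ⟨_, rfl⟩
  have hs0 : 0 < s := by rw [hs]; positivity
  obtain ⟨i, hi⟩ : ∃ i : ℕ, i = ⌊(x - osq k) / s⌋₊ := ⟨_, rfl⟩
  have hi0 : (0 : ℝ) ≤ (x - osq k) / s := div_nonneg (by linarith) hs0.le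
  have hi1 : (i : ℝ) * s ≤ x - osq k := by
    rw [← le_div_iff₀ hs0, hi]
    exact Nat.floor_le hi0
  have hi2 : x - osq k < ((i : ℝ) + 1) * s := by
    rw [← div_lt_iff₀ hs0, hi]
    exact Nat.lt_floor_add_one _
  have hiI : i < ⌈8 * k / s⌉₊ + 1 := by
    have g1 : (i : ℝ) ≤ 8 * k / s := by
      rw [le_div_iff₀ hs0]
      linarith
    have g2 : (i : ℝ) ≤ (⌈8 * k / s⌉₊ : ℝ) := g1.trans (Nat.le_ceil _)
    have g3 : i ≤ ⌈8 * k / s⌉₊ := by exact_mod_cast g2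
    omega
  by_contra hcon
  have hmem := hx₁ x (by linarith) (osq k + i * s) (osq k + (i + 1 : ℕ) * s) (by linarith) (by push_cast; linarith) (by
    push_cast
    have h3 : osq k ^ (0.499 : ℝ) ≤ x ^ (0.499 : ℝ) := Real.rpow_le_rpow hos0.le hxlo (by norm_num)
    calc b * (osq k + (i + 1) * s - (osq k + i * s)) = b * s := by ring
      _ = ε / 2 * osq k ^ (0.499 : ℝ) := by rw [hs]; field_simp
      _ ≤ ε / 2 * x ^ (0.499 : ℝ) := by gcongr) t ht H (by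
    calc x ^ (0.499 : ℝ) ≤ (9 * (k : ℝ) ^ 2) ^ (0.499 : ℝ) :=
          Real.rpow_le_rpow (by linarith) (hxhi.trans hsq2) (by norm_num)
      _ = 9 ^ (0.499 : ℝ) * ((k : ℝ) ^ 2) ^ (0.499 : ℝ) := Real.mul_rpow (by norm_num) (by positivity)
      _ = 9 ^ (0.499 : ℝ) * (k : ℝ) ^ (0.998 : ℝ) := by
          congr 1
          rw [← Real.rpow_natCast, ← Real.rpow_mul hk0.le]
          norm_num
      _ ≤ (k : ℝ) ^ (0.001 : ℝ) * (k : ℝ) ^ (0.998 : ℝ) := by gcongr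
      _ = (k : ℝ) ^ (0.999 : ℝ) := by rw [← Real.rpow_add hk0]; norm_num
      _ ≤ H := hH) (by nlinarith) (by
    rw [hxy]
    exact not_le.1 hcon)
  apply hbad
  unfold BadK
  rw [Set.mem_iUnion₂]
  refine ⟨i, ?_, ?_⟩
  · rw [mem_range, ← hs]
    exact hiI
  · rw [← hs]
    exact hmem

/-- one `ε`, one range -/
theorem sq_one {η : ℝ} (hη : 0 < η) (hv : ∀ ε a b : ℝ, 0 < ε → ε ≤ 1 / 10 → 0 < a → a ≤ b → ∀ᶠ x : ℝ in atTop, ∀ H : ℝ,
      x ^ (0.499 : ℝ) / 10 ≤ H → H ≤ x ^ (0.65 : ℝ) → volume (Bd a b ε x H) ≤ ENNReal.ofReal (x ^ (-(0.16 + η))))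
    (S : Set ℕ) (n : ℕ) (hS : Summable fun k : S => ((k : ℕ) : ℝ) ^ (-(0.31 * (n : ℝ)))) {a b : ℝ} (ha : 0 < a) (hab : a ≤ b)
    {ε : ℝ} (hε : 0 < ε) (hε1 : ε ≤ 1 / 10) :
    ∀ᵐ l : Fin n → ℝ, (∀ j, l j ∈ Set.Icc a b) → ∀ᶠ k : ℕ in atTop, k ∈ S → ∃ j, ∀ y H : ℝ, l j * osq k ≤ y →
      y + H ≤ l j * osq (k + 1) → (k : ℝ) ^ (0.999 : ℝ) ≤ H → |density y H - 1| ≤ 10 * ε := by
  classical
  obtain ⟨k₀, hk₀⟩ := eventually_atTop.1 (BadK_vol hη ha hab hε (hv ε a b hε hε1 ha hab))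
  obtain ⟨E, hE⟩ : ∃ E : ℕ → Set (Fin n → ℝ), E = fun k => if k ∈ S ∧ k₀ ≤ k ∧ 1 ≤ k then Set.pi Set.univ (fun _ => BadK a b ε 0.499 k)
    else ∅ := ⟨_, rfl⟩
  have hvol : ∀ k, volume (E k) ≤ ENNReal.ofReal (S.indicator (fun k : ℕ => (k : ℝ) ^ (-(0.31 * (n : ℝ)))) k) := by
    intro k
    rw [hE]
    simp only
    split_ifs with h
    · rw [Set.indicator_of_mem h.1, volume_pi_pi, Finset.prod_const, Finset.card_univ, Fintype.card_fin]
      have hk0 : (0 : ℝ) < k := by exact_mod_cast h.2.2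
      have e : (k : ℝ) ^ (-(0.31 * (n : ℝ))) = ((k : ℝ) ^ (-0.31 : ℝ)) ^ n := by
        rw [← Real.rpow_natCast, ← Real.rpow_mul hk0.le]
        congr 1
        ring
      rw [e, ENNReal.ofReal_pow (by positivity)]
      gcongr
      exact hk₀ k h.2.1
    · rw [measure_empty]
      exact zero_le
  have hfin : (∑' k, volume (E k)) ≠ ∞ := by
    have hs := (summable_subtype_iff_indicator (f := fun k : ℕ => (k : ℝ) ^ (-(0.31 * (n : ℝ)))) (s := S)).1 hS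
    have h1 := ENNReal.ofReal_tsum_of_nonneg (f := S.indicator (fun k : ℕ => (k : ℝ) ^ (-(0.31 * (n : ℝ)))))
      (fun k => Set.indicator_nonneg (fun _ _ => by positivity) k) hs
    refine ne_top_of_le_ne_top ?_ (ENNReal.tsum_le_tsum hvol)
    rw [← h1]
    exact ENNReal.ofReal_ne_top
  filter_upwards [ae_eventually_notMem hfin] with l hl hin
  filter_upwards [hl, good_of_not ha hab hε hε1, eventually_ge_atTop k₀, eventually_ge_atTop 1] with k h1 h2 h3 h4 hkS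
  rw [hE] at h1
  simp only at h1
  rw [if_pos ⟨hkS, h3, h4⟩, Set.mem_pi] at h1
  push Not at h1
  obtain ⟨j, -, hj⟩ := h1
  exact ⟨j, h2 (l j) (hin j) hj⟩

/-- all `ε` and all positive dilations -/
theorem sq_all (S : Set ℕ) (n : ℕ) (hS : Summable fun k : S => ((k : ℕ) : ℝ) ^ (-(0.31 * (n : ℝ)))) :
    ∀ᵐ l : Fin n → ℝ, (∀ j, 0 < l j) → ∀ δ : ℝ, 0 < δ → ∀ᶠ k : ℕ in atTop, k ∈ S → ∃ j, ∀ y H : ℝ, l j * osq k ≤ y →
      y + H ≤ l j * osq (k + 1) → (k : ℝ) ^ (0.999 : ℝ) ≤ H → |density y H - 1| ≤ δ := by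
  obtain ⟨η, hη, -, h⟩ := vol_bad fg_C (by norm_num) (by norm_num) (by norm_num)
  have hv : ∀ ε a b : ℝ, 0 < ε → ε ≤ 1 / 10 → 0 < a → a ≤ b → ∀ᶠ x : ℝ in atTop, ∀ H : ℝ,
      x ^ (0.499 : ℝ) / 10 ≤ H → H ≤ x ^ (0.65 : ℝ) → volume (Bd a b ε x H) ≤ ENNReal.ofReal (x ^ (-(0.16 + η))) := by
    intro ε a b h1 h2 h3 h4
    have := h ε a b h1 h2 h3 h4
    rwa [show (1 : ℝ) - 0.501 = 0.499 by norm_num] at this
  have hall : ∀ᵐ l : Fin n → ℝ, ∀ m : ℕ, (∀ j, l j ∈ Set.Icc (1 / ((m : ℝ) + 10)) ((m : ℝ) + 10)) →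
      ∀ᶠ k : ℕ in atTop, k ∈ S → ∃ j, ∀ y H : ℝ, l j * osq k ≤ y →
      y + H ≤ l j * osq (k + 1) → (k : ℝ) ^ (0.999 : ℝ) ≤ H → |density y H - 1| ≤ 10 * (1 / ((m : ℝ) + 10)) := by
    rw [ae_all_iff]
    intro m
    have hk : (0 : ℝ) ≤ m := Nat.cast_nonneg m
    have h10 : 1 / ((m : ℝ) + 10) ≤ 1 / 10 := by
      apply one_div_le_one_div_of_le (by norm_num)
      linarith
    exact sq_one hη hv S n hS (by positivity) (by linarith) (by positivity) h10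
  filter_upwards [hall] with l hl hpos δ hδ
  obtain ⟨k, hk⟩ : ∃ k : ℕ, 10 / δ ≤ k ∧ ∀ j, 1 / l j ≤ k ∧ l j ≤ k := by
    obtain ⟨k, hk⟩ := exists_nat_ge (10 / δ + ∑ j, (1 / l j + l j))
    have h1 : 0 ≤ 10 / δ := by positivity
    have hterm : ∀ j, 0 ≤ 1 / l j + l j := fun j => by
      have := hpos j
      positivity
    refine ⟨k, ?_, ?_⟩
    · have : 0 ≤ ∑ j, (1 / l j + l j) := Finset.sum_nonneg fun j _ => hterm j
      linarith
    · intro j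
      have h2 : 1 / l j + l j ≤ ∑ j, (1 / l j + l j) := Finset.single_le_sum (fun j _ => hterm j) (Finset.mem_univ j)
      have h3 := hpos j
      have h4 : 0 < 1 / l j := by positivity
      constructor <;> linarith
  have hin : ∀ j, l j ∈ Set.Icc (1 / ((k : ℝ) + 10)) ((k : ℝ) + 10) := by
    intro j
    obtain ⟨h1, h2⟩ := hk.2 j
    have h3 := hpos j
    have hk0 : (0 : ℝ) ≤ k := Nat.cast_nonneg k
    constructor
    · rw [div_le_iff₀ (by positivity)]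
      rw [div_le_iff₀ h3] at h1
      nlinarith
    · linarith
  filter_upwards [hl k hin] with m hm hmS
  obtain ⟨j, hj⟩ := hm hmS
  refine ⟨j, fun y H h1 h2 h3 => (hj y H h1 h2 h3).trans ?_⟩
  have hk0 : (0 : ℝ) ≤ k := Nat.cast_nonneg k
  have h1 := hk.1
  rw [mul_one_div, div_le_iff₀ (by positivity)]
  rw [div_le_iff₀ hδ] at h1
  nlinarith

end Pool.Agent.U26Z.DX
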