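import Pool.Agent.U26Z.DX.Sl
import Pool.Agent.U26Z.DX.Freq

/-!
# The measure of the exceptional windows for the sums of `Λ(n)/n`: the result
-/

set_option autoImplicit false

namespace Pool.Agent.U26Z.DX

open Finset Filter Topology MeasureTheory Pool.Agent.H376R2.MR Pool.Agent.Q240.KS Pool.Agent.Q278.KS Pool.Agent.Q278.KT
open Pool.Agent.Q257.KS Pool.Agent.Q95.KS Pool.Agent.H39x.LP

theorem mean_eq {Y v h : ℝ} {K₂ K : ℕ} (h1 : 1 ≤ K₂) (h2 : K₂ ≤ K) (hh : 0 < h) :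
    ((∫ u in v..(v + h), (FF Y u (aY Y) K - FF Y u (aY Y) K₂) : ℝ) : ℂ) =
      (h : ℂ) * ∑ k ∈ FK K, ((mK K₂ K k * Real.sinc (k * (h / 2)) : ℝ) : ℂ) *
        Complex.exp (((k : ℝ) * (v + h / 2) : ℝ) * Complex.I) * AA (zY Y) Y k := by
  rw [← intervalIntegral.integral_ofReal]
  have e : ∀ u : ℝ, ((FF Y u (aY Y) K - FF Y u (aY Y) K₂ : ℝ) : ℂ) =
      ∑ k ∈ FK K, (((mK K₂ K k : ℝ) : ℂ) * AA (zY Y) Y k) * Complex.exp (((k : ℝ) * u : ℝ) * Complex.I) := by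
    intro u
    rw [← mK_sum Y u (aY Y) h1 h2]
    refine Finset.sum_congr rfl fun k _ => ?_
    rw [ap_eq]
    ring
  simp_rw [e]
  rw [intervalIntegral.integral_finsetSum]
  swap
  · intro k _
    exact Continuous.intervalIntegrable (by fun_prop) _ _
  rw [Finset.mul_sum]
  refine Finset.sum_congr rfl fun k _ => ?_
  rw [intervalIntegral.integral_const_mul, int_freq k v hh]
  push_cast
  ring

theorem mK_low {K₂ K : ℕ} (h1 : 1 ≤ K₂) (h2 : K₂ ≤ K) {k : ℤ} (hk : |(k : ℝ)| ≤ K₂) :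
    |mK K₂ K k| ≤ |(k : ℝ)| / K₂ := by
  have a1 : (0 : ℝ) < K₂ := by exact_mod_cast h1
  have a2 : (K₂ : ℝ) ≤ K := by exact_mod_cast h2
  have a0 : (0 : ℝ) < K := a1.trans_le a2
  have e2 : |(k : ℝ)| / K ≤ |(k : ℝ)| / K₂ := by gcongr
  have e3 : |(k : ℝ)| / K₂ ≤ 1 := by rw [div_le_one a1]; exact hk
  have e4 : 0 ≤ |(k : ℝ)| / K := by positivity
  unfold mK
  rw [max_eq_right (by linarith), max_eq_right (by linarith), abs_le]
  constructor <;> linarith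

theorem low_part {Y : ℝ} (hY : 21 ≤ Y) {K₀ K₂ K : ℕ} (h0 : K₀ ≤ K₂) (h1 : 1 ≤ K₂) (h2 : K₂ ≤ K) (s : ℤ → ℝ)
    (hs : ∀ k, |s k| ≤ 1) (u : ℝ) :
    ‖∑ k ∈ (FK K).filter (fun k => ¬ (K₀ : ℤ) ≤ |k|), ((mK K₂ K k * s k : ℝ) : ℂ) *
      Complex.exp (((k : ℝ) * u : ℝ) * Complex.I) * AA (zY Y) Y k‖ ≤
      2 * K₀ * (K₀ / K₂ * (31 * ((21 * Y) ^ 10 * (50 * Y) ^ 10))) := by
  have hK₂ : (0 : ℝ) < K₂ := by exact_mod_cast h1
  have h3 : ∀ k ∈ (FK K).filter (fun k => ¬ (K₀ : ℤ) ≤ |k|), ‖((mK K₂ K k * s k : ℝ) : ℂ) *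
      Complex.exp (((k : ℝ) * u : ℝ) * Complex.I) * AA (zY Y) Y k‖ ≤
      K₀ / K₂ * (31 * ((21 * Y) ^ 10 * (50 * Y) ^ 10)) := by
    intro k hk
    have hkQ : |k| < (K₀ : ℤ) := not_le.1 (Finset.mem_filter.1 hk).2
    have hkQ' : |(k : ℝ)| ≤ K₀ := by exact_mod_cast hkQ.le
    have h0' : (K₀ : ℝ) ≤ K₂ := by exact_mod_cast h0
    rw [norm_mul, norm_mul, Complex.norm_exp_ofReal_mul_I, mul_one, Complex.norm_real, Real.norm_eq_abs, abs_mul]
    have h4 : |mK K₂ K k| * |s k| ≤ K₀ / K₂ := by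
      calc |mK K₂ K k| * |s k| ≤ (|(k : ℝ)| / K₂) * 1 := by
            apply mul_le_mul (mK_low h1 h2 (hkQ'.trans h0')) (hs k) (abs_nonneg _) (by positivity)
        _ ≤ K₀ / K₂ := by
            rw [mul_one]
            gcongr
    have h5 : ‖AA (zY Y) Y k‖ ≤ 31 * ((21 * Y) ^ 10 * (50 * Y) ^ 10) := by
      refine (aa_le_sum Y k).trans ?_
      gcongr
      refine (Finset.sum_le_card_nsmul (DY Y) _ ((50 * Y) ^ 10) fun d hd => ee_le (by linarith) hd k).trans ?_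
      rw [nsmul_eq_mul]
      have hcd := card_DY hY
      gcongr
    exact mul_le_mul h4 h5 (norm_nonneg _) (by positivity)
  have h4 : (((FK K).filter (fun k => ¬ (K₀ : ℤ) ≤ |k|)).card : ℝ) ≤ 2 * K₀ := by
    have h5 : (FK K).filter (fun k => ¬ (K₀ : ℤ) ≤ |k|) ⊆ FK K₀ := by
      intro k hk
      have hkQ : |k| < (K₀ : ℤ) := not_le.1 (Finset.mem_filter.1 hk).2
      unfold FK
      rw [Finset.mem_Ioo]
      exact abs_lt.1 hkQ
    exact le_trans (by exact_mod_cast Finset.card_le_card h5) (card_FK K₀)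
  refine (norm_sum_le _ _).trans ((Finset.sum_le_card_nsmul _ _ _ h3).trans ?_)
  rw [nsmul_eq_mul]
  have hY0 : 0 ≤ Y := by linarith
  gcongr

/-- **the measure of the exceptional windows** -/
theorem sl_exc {lam0 μ : ℝ} (hFG : FG lam0 μ) (hl0 : 0 ≤ lam0) (hl : lam0 ≤ 0.833) (B : ℕ) :
    ∃ η Y₀ : ℝ, 0 < η ∧ η ≤ 1 / 1000 ∧ ∀ Y : ℝ, Y₀ ≤ Y → ∀ h : ℝ, Real.exp (-((lam0 + η) * Y)) ≤ h →
      h ≤ Real.exp (-(Y / 40)) →
      volume {v : ℝ | |v - Y| ≤ 0.4 ∧ h / Y ^ B < |SL v h - h|} ≤ ENNReal.ofReal (Real.exp (-((μ + η) * Y))) := by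
  obtain ⟨η₁, Y₁, hη₁, hη₁1, hhigh⟩ := high_exc hFG hl0 hl (B + 1)
  have hη₁2 : 0 < η₁ / 2 := by positivity
  have hev : ∀ᶠ Y : ℝ in atTop, Y₁ ≤ Y ∧ 1000 ≤ Y ∧
      2 * Y ^ (B + 24) ≤ Real.exp (η₁ / 2 * Y) ∧
      8 * (31 * (21 ^ 10 * 50 ^ 10)) * Y ^ (20 + B) ≤ Real.exp (1 / 100 * Y) ∧
      (∀ h v : ℝ, Real.exp (-(0.835 * Y)) ≤ h → h ≤ 1 / 100 → |v - Y| ≤ 0.41 →
        |∑ n ∈ sY Y, aY Y n * bx ⌈Y ^ (B + 24) / h⌉₊ v h (Real.log n) - 2 * Real.pi * SL v h| ≤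
          1 / Y ^ (B + 2) * h) ∧
      (∀ v : ℝ, |v - Y| ≤ 0.41 → |FF Y v (aY Y) ⌈Real.exp (Y / 50)⌉₊ - 2 * Real.pi| ≤ 1 / Y ^ (B + 2)) :=
    (eventually_ge_atTop Y₁).and ((eventually_ge_atTop 1000).and ((ev_poly _ _ hη₁2).and
      ((ev_poly _ _ (by norm_num)).and ((box_ok B).and (ff_ref (B + 2))))))
  obtain ⟨Y₀, hY₀⟩ := eventually_atTop.1 hev
  refine ⟨η₁ / 2, Y₀, hη₁2, by linarith, ?_⟩
  intro Y hY h hhlo hhhi
  obtain ⟨hY1, hY2, hY3, hY4, hY5, hY6⟩ := hY₀ Y hY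
  have hY0 : 0 < Y := by linarith
  have hY1' : 1 ≤ Y := by linarith
  have hh0 : 0 < h := (Real.exp_pos _).trans_le hhlo
  have hh1 : h ≤ 1 / 100 := by
    refine hhhi.trans ?_
    have h1 := Real.add_one_le_exp (Y / 40)
    have h2 : Real.exp (Y / 40) * Real.exp (-(Y / 40)) = 1 := by rw [← Real.exp_add]; simp
    have h3 := Real.exp_pos (-(Y / 40))
    have h4 : (5 : ℝ) ≤ Y / 200 := by linarith
    have h5 : 1 + Y / 40 + (Y / 40) ^ 2 / 2 ≤ Real.exp (Y / 40) := Real.quadratic_le_exp_of_nonneg (by positivity)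
    have h6 : (100 : ℝ) ≤ Real.exp (Y / 40) := by nlinarith
    nlinarith
  have hh835 : Real.exp (-(0.835 * Y)) ≤ h := by
    refine le_trans (Real.exp_le_exp.2 ?_) hhlo
    have : (lam0 + η₁ / 2) * Y ≤ 0.835 * Y := mul_le_mul_of_nonneg_right (by linarith) hY0.le
    linarith
  set K₂ : ℕ := ⌈Real.exp (Y / 50)⌉₊ with hK₂
  set K₀ : ℕ := ⌈Real.exp (Y / 200)⌉₊ with hK₀
  set K : ℕ := ⌈Y ^ (B + 24) / h⌉₊ with hK
  have hKlo : Y ^ (B + 24) / h ≤ K := Nat.le_ceil _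
  have hYD : 1 ≤ Y ^ (B + 24) := one_le_pow₀ hY1'
  have hdiv1 : Real.exp (Y / 40) ≤ Y ^ (B + 24) / h := by
    rw [le_div_iff₀ hh0]
    calc Real.exp (Y / 40) * h ≤ Real.exp (Y / 40) * Real.exp (-(Y / 40)) := by gcongr
      _ = 1 := by rw [← Real.exp_add]; simp
      _ ≤ _ := hYD
  have hKhi : (K : ℝ) ≤ Real.exp ((lam0 + η₁) * Y) := by
    have h3 := (Nat.ceil_lt_add_one (show 0 ≤ Y ^ (B + 24) / h by positivity)).le
    rw [← hK] at h3
    have h4 : 1 ≤ Y ^ (B + 24) / h := (Real.one_le_exp (by positivity)).trans hdiv1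
    have h5 : Y ^ (B + 24) / h ≤ Y ^ (B + 24) * Real.exp ((lam0 + η₁ / 2) * Y) := by
      rw [div_le_iff₀ hh0]
      calc Y ^ (B + 24) = Y ^ (B + 24) * (Real.exp ((lam0 + η₁ / 2) * Y) * Real.exp (-((lam0 + η₁ / 2) * Y))) := by
            rw [← Real.exp_add]; simp
        _ ≤ Y ^ (B + 24) * (Real.exp ((lam0 + η₁ / 2) * Y) * h) := by gcongr
        _ = _ := by ring
    calc (K : ℝ) ≤ 2 * Y ^ (B + 24) * Real.exp ((lam0 + η₁ / 2) * Y) := by linarith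
      _ ≤ Real.exp (η₁ / 2 * Y) * Real.exp ((lam0 + η₁ / 2) * Y) := by gcongr
      _ = _ := by rw [← Real.exp_add]; congr 1; ring
  have hE50 : Real.exp (Y / 50) + 1 ≤ Real.exp (Y / 40) := by
    have h1 : Real.exp (Y / 40) = Real.exp (Y / 200) * Real.exp (Y / 50) := by
      rw [← Real.exp_add]; congr 1; ring
    have h2 := Real.add_one_le_exp (Y / 200)
    have h3 : 1 ≤ Real.exp (Y / 50) := Real.one_le_exp (by positivity)
    rw [h1]
    have h4 : 2 * Real.exp (Y / 50) ≤ Real.exp (Y / 200) * Real.exp (Y / 50) := by gcongr; linarith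
    linarith
  have hK₂1 : 1 ≤ K₂ := Nat.one_le_ceil_iff.2 (Real.exp_pos _)
  have hK₂K : K₂ ≤ K := by
    have h1 : (K₂ : ℝ) ≤ K := by
      refine ((Nat.ceil_lt_add_one (Real.exp_pos _).le).le).trans (hE50.trans (hdiv1.trans hKlo))
    exact_mod_cast h1
  have hK₀K₂ : K₀ ≤ K₂ := Nat.ceil_le_ceil (Real.exp_le_exp.2 (by linarith))
  have hKpos : 1 ≤ K := hK₂1.trans hK₂K
  -- the multipliers
  obtain ⟨s, hs⟩ : ∃ s : ℤ → ℝ, s = fun k : ℤ => Real.sinc (k * (h / 2)) := ⟨_, rfl⟩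
  have hs1 : ∀ k, |s k| ≤ 1 := fun k => by rw [hs]; exact Real.abs_sinc_le_one _
  obtain ⟨m, hm⟩ : ∃ m : ℤ → ℝ, m = fun k : ℤ => mK K₂ K k * s k := ⟨_, rfl⟩
  have hm1 : ∀ k, |m k| ≤ 1 := fun k => by
    rw [hm]
    simp only [abs_mul]
    have h1 := mK_bd hK₂1 hK₂K k
    have h2 := hs1 k
    calc |mK K₂ K k| * |s k| ≤ 1 * 1 := mul_le_mul h1 h2 (abs_nonneg _) (by norm_num)
      _ = 1 := one_mul _
  have hmeas := hhigh Y hY1 K hKpos hKhi m hm1 (Y - 1)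
  have hmeas' : ENNReal.ofReal (Real.exp (-((μ + η₁) * Y))) ≤ ENNReal.ofReal (Real.exp (-((μ + η₁ / 2) * Y))) := by
    apply ENNReal.ofReal_le_ofReal
    apply Real.exp_le_exp.2
    apply neg_le_neg
    exact mul_le_mul_of_nonneg_right (by linarith) hY0.le
  refine le_trans ?_ (hmeas.trans hmeas')
  refine le_trans ?_ (le_of_eq (measure_preimage_add_right volume (h / 2) _))
  apply measure_mono
  rintro v ⟨hv1, hv2⟩
  obtain ⟨hva, hvb⟩ := abs_le.1 hv1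
  refine ⟨⟨?_, ?_⟩, ?_⟩
  · show Y - 1 ≤ v + h / 2
    linarith
  · show v + h / 2 ≤ Y - 1 + 3
    linarith
  · show 1 / Y ^ (B + 1) < ‖∑ k ∈ (FK K).filter (fun k => (K₀ : ℤ) ≤ |k|), ((m k : ℝ) : ℂ) *
        Complex.exp (((k : ℝ) * (v + h / 2) : ℝ) * Complex.I) * AA (zY Y) Y k‖
    have hbox := hY5 h v hh835 hh1 (hv1.trans (by norm_num))
    rw [← hK, ff_integral] at hbox
    have hT := mean_eq (Y := Y) (v := v) hK₂1 hK₂K hh0
    obtain ⟨T, hTdef⟩ : ∃ T : ℝ, T = ∫ u in v..(v + h), (FF Y u (aY Y) K - FF Y u (aY Y) K₂) := ⟨_, rfl⟩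
    rw [← hTdef] at hT
    have hsplit : T = (∫ u in v..(v + h), FF Y u (aY Y) K) - ∫ u in v..(v + h), FF Y u (aY Y) K₂ := by
      rw [hTdef, intervalIntegral.integral_sub ((ff_cont Y _ K).intervalIntegrable _ _)
        ((ff_cont Y _ K₂).intervalIntegrable _ _)]
    have href : |(∫ u in v..(v + h), FF Y u (aY Y) K₂) - 2 * Real.pi * h| ≤ 1 / Y ^ (B + 2) * h := by
      have h4 : ∫ u in v..(v + h), (FF Y u (aY Y) K₂ - 2 * Real.pi) =
          (∫ u in v..(v + h), FF Y u (aY Y) K₂) - 2 * Real.pi * h := by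
        rw [intervalIntegral.integral_sub ((ff_cont Y _ K₂).intervalIntegrable _ _) intervalIntegrable_const]
        simp
        ring
      have h5 : ∀ u ∈ Set.uIoc v (v + h), ‖FF Y u (aY Y) K₂ - 2 * Real.pi‖ ≤ 1 / Y ^ (B + 2) := by
        intro u hu
        rw [Set.uIoc_of_le (by linarith)] at hu
        rw [Real.norm_eq_abs]
        apply hY6 u
        rw [abs_le]
        constructor <;> linarith [hu.1, hu.2]
      have h6 := intervalIntegral.norm_integral_le_of_norm_le_const h5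
      rw [Real.norm_eq_abs, h4, show v + h - v = h by ring, abs_of_nonneg hh0.le] at h6
      exact h6
    have hpi := Real.pi_gt_three
    have hYB : 0 < Y ^ B := by positivity
    obtain ⟨δ, hδ⟩ : ∃ δ : ℝ, δ = 1 / Y ^ B := ⟨_, rfl⟩
    have hδ0 : 0 < δ := by rw [hδ]; positivity
    have hδ2 : 1 / Y ^ (B + 2) ≤ δ / 4 := by
      rw [hδ, div_div, one_div_le_one_div (by positivity) (by positivity), pow_add]
      apply mul_le_mul_of_nonneg_left _ hYB.le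
      nlinarith
    have hδ1 : 1 / Y ^ (B + 1) ≤ δ := by
      rw [hδ, one_div_le_one_div (by positivity) (by positivity)]
      exact pow_le_pow_right₀ hY1' (by omega)
    have hv3 : h * δ < |SL v h - h| := by
      rw [hδ, mul_one_div]
      exact hv2
    -- lower bound for `T`
    have hTlow : 5 * δ * h ≤ |T| := by
      have e1 : 2 * Real.pi * (SL v h - h) = -((∫ u in v..(v + h), FF Y u (aY Y) K) - 2 * Real.pi * SL v h) + T +
          ((∫ u in v..(v + h), FF Y u (aY Y) K₂) - 2 * Real.pi * h) := by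
        rw [hsplit]
        ring
      have e2 : 2 * Real.pi * |SL v h - h| ≤ 1 / Y ^ (B + 2) * h + |T| + 1 / Y ^ (B + 2) * h := by
        have e0 : 2 * Real.pi * |SL v h - h| = |2 * Real.pi * (SL v h - h)| := by
          rw [abs_mul, abs_of_pos (by positivity : 0 < 2 * Real.pi)]
        rw [e0, e1]
        refine (abs_add_le _ _).trans (add_le_add ((abs_add_le _ _).trans (add_le_add ?_ le_rfl)) href)
        rw [abs_neg]
        exact hbox
      have e3 : 6 * (h * δ) ≤ 2 * Real.pi * |SL v h - h| := by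
        have : 0 ≤ |SL v h - h| := abs_nonneg _
        nlinarith
      have e4 : 1 / Y ^ (B + 2) * h ≤ δ / 4 * h := mul_le_mul_of_nonneg_right hδ2 hh0.le
      nlinarith
    -- the sum over the frequencies
    have hTn : |T| = h * ‖∑ k ∈ FK K, ((m k : ℝ) : ℂ) *
        Complex.exp (((k : ℝ) * (v + h / 2) : ℝ) * Complex.I) * AA (zY Y) Y k‖ := by
      have e1 : |T| = ‖((T : ℝ) : ℂ)‖ := by rw [Complex.norm_real, Real.norm_eq_abs]
      rw [e1, hT, norm_mul, Complex.norm_real, Real.norm_eq_abs, abs_of_pos hh0, hm, hs]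
    rw [hTn, ← Finset.sum_filter_add_sum_filter_not (FK K) (fun k => (K₀ : ℤ) ≤ |k|)] at hTlow
    obtain ⟨P, hP⟩ : ∃ P, P = ∑ k ∈ (FK K).filter (fun k => (K₀ : ℤ) ≤ |k|), ((m k : ℝ) : ℂ) *
        Complex.exp (((k : ℝ) * (v + h / 2) : ℝ) * Complex.I) * AA (zY Y) Y k := ⟨_, rfl⟩
    obtain ⟨P', hP'⟩ : ∃ P', P' = ∑ k ∈ (FK K).filter (fun k => ¬ (K₀ : ℤ) ≤ |k|), ((m k : ℝ) : ℂ) *
        Complex.exp (((k : ℝ) * (v + h / 2) : ℝ) * Complex.I) * AA (zY Y) Y k := ⟨_, rfl⟩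
    rw [← hP, ← hP'] at hTlow
    rw [← hP]
    have hlow : ‖P'‖ ≤ δ := by
      have h1 := low_part (by linarith : (21 : ℝ) ≤ Y) hK₀K₂ hK₂1 hK₂K s hs1 (v + h / 2)
      have h2 : ‖P'‖ ≤ 2 * K₀ * (K₀ / K₂ * (31 * ((21 * Y) ^ 10 * (50 * Y) ^ 10))) := by
        rw [hP', hm]
        exact h1
      refine h2.trans ?_
      have h3 : (K₀ : ℝ) ≤ 2 * Real.exp (Y / 200) := by
        have h4 := (Nat.ceil_lt_add_one (Real.exp_pos (Y / 200)).le).le
        have h5 : 1 ≤ Real.exp (Y / 200) := Real.one_le_exp (by positivity)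
        linarith
      have h4 : Real.exp (Y / 50) ≤ K₂ := Nat.le_ceil _
      have h5 : (K₀ : ℝ) / K₂ ≤ 2 * Real.exp (Y / 200) / Real.exp (Y / 50) := by gcongr
      rw [hδ, le_div_iff₀ hYB]
      calc 2 * (K₀ : ℝ) * (K₀ / K₂ * (31 * ((21 * Y) ^ 10 * (50 * Y) ^ 10))) * Y ^ B
          ≤ 2 * (2 * Real.exp (Y / 200)) * (2 * Real.exp (Y / 200) / Real.exp (Y / 50) *
            (31 * ((21 * Y) ^ 10 * (50 * Y) ^ 10))) * Y ^ B := by gcongr
        _ = (8 * (31 * (21 ^ 10 * 50 ^ 10)) * Y ^ (20 + B)) *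
            (Real.exp (Y / 200) * Real.exp (Y / 200) / Real.exp (Y / 50)) := by
            rw [pow_add]
            ring
        _ ≤ Real.exp (1 / 100 * Y) * (Real.exp (Y / 200) * Real.exp (Y / 200) / Real.exp (Y / 50)) := by gcongr
        _ = 1 := by
            rw [← Real.exp_add, ← Real.exp_sub, ← Real.exp_add]
            rw [show 1 / 100 * Y + (Y / 200 + Y / 200 - Y / 50) = 0 by ring, Real.exp_zero]
    have h7 : 5 * δ ≤ ‖P + P'‖ := by
      have : h * (5 * δ) ≤ h * ‖P + P'‖ := by linarith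
      exact le_of_mul_le_mul_left this hh0
    have h8 := norm_add_le P P'
    linarith

end Pool.Agent.U26Z.DX
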